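import Mathlib

/-!
Definitions for problem MP_eb03ca_co: finite coverings of convex sets by translates of a planar
convex domain, the parametric covering density and the critical radius.
-/

set_option autoImplicit false

open scoped Pointwise
open Filter

namespace Pool.Agent.Lib.MP_eb03ca_co

/-- A convex domain: a compact convex set in the plane with nonempty interior. -/
def IsConvexDomain (K : Set (ℝ × ℝ)) : Prop :=
  IsCompact K ∧ Convex ℝ K ∧ (interior K).Nonempty

/-- The area (two-dimensional Lebesgue measure) of a set in the plane. -/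
noncomputable def area (A : Set (ℝ × ℝ)) : ℝ := (MeasureTheory.volume A).toReal

/-- `D` is a compact convex set covered by `n` translates of `K`. -/
def IsCovered (K : Set (ℝ × ℝ)) (n : ℕ) (D : Set (ℝ × ℝ)) : Prop :=
  IsCompact D ∧ Convex ℝ D ∧ ∃ c : Fin n → ℝ × ℝ, D ⊆ ⋃ i, (fun z => c i + z) '' K

/-- `M_n(K,θ)`: the largest area of `D + θ K` over the compact convex sets `D` covered by `n`
translates of `K`. -/
noncomputable def maxArea (K : Set (ℝ × ℝ)) (θ : ℝ) (n : ℕ) : ℝ :=
  sSup {a : ℝ | ∃ D : Set (ℝ × ℝ), IsCovered K n D ∧ a = area (D + θ • K)}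

/-- The parametric covering density `Θ(K,θ) = lim M_n(K,θ) / n`. -/
noncomputable def Theta (K : Set (ℝ × ℝ)) (θ : ℝ) : ℝ :=
  limUnder atTop (fun n : ℕ => maxArea K θ n / n)

/-- The critical radius for coverings of `K`: the largest `θ ≥ 0` with `Θ(K,θ) = Θ(K,0)`. -/
noncomputable def criticalRadius (K : Set (ℝ × ℝ)) : ℝ :=
  sSup {θ : ℝ | 0 ≤ θ ∧ Theta K θ = Theta K 0}

end Pool.Agent.Lib.MP_eb03ca_co
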