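import Mathlib

/-!
Local estimates for translates of a planar convex set (problem MP_eb03ca_co).

`RowBound K R` says that every one-row strip built from `K` has parametric value at most `R`
for the parameter `1/4`.  From it we construct a weight `wt` on pairs of centres whose defect on
every triple of translates with a common point is at most `6 R`.
-/

set_option autoImplicit false

namespace Pool.Agent.Lib.MP_eb03ca_co

/-- The planar determinant. -/
def det (a b : ℝ × ℝ) : ℝ := a.1 * b.2 - a.2 * b.1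

/-- All one-row values of `K` for the parameter `1/4` are at most `R`. -/
def RowBound (K : Set (ℝ × ℝ)) (R : ℝ) : Prop :=
  ∀ p q d s t : ℝ × ℝ, p ∈ K → q ∈ K → p + d ∈ K → q + d ∈ K → s ∈ K → t ∈ K →
    4 * det d (p - q) + det d (s - t) ≤ 4 * R

/-- The set of values attached to a displacement `d`. -/
def VV (K : Set (ℝ × ℝ)) (d : ℝ × ℝ) : Set ℝ :=
  {v | ∃ z c : ℝ × ℝ, z ∈ K ∧ z - d ∈ K ∧ z - c ∈ K ∧ v = 3 * det d z + det d c}

/-- The midpoint of `VV K d`. -/
noncomputable def mu (K : Set (ℝ × ℝ)) (d : ℝ × ℝ) : ℝ := (sSup (VV K d) + sInf (VV K d)) / 2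

/-- The weight of an ordered pair of centres. -/
noncomputable def wt (K : Set (ℝ × ℝ)) (a b : ℝ × ℝ) : ℝ :=
  mu K (b - a) + 6 * (a.2 + b.2) * (b.1 - a.1)

theorem VV_diff {K : Set (ℝ × ℝ)} {R : ℝ} (h : RowBound K R) {d : ℝ × ℝ} {v v' : ℝ}
    (hv : v ∈ VV K d) (hv' : v' ∈ VV K d) : v - v' ≤ 4 * R := by
  obtain ⟨z, c, hz, hzd, hzc, rfl⟩ := hv
  obtain ⟨z', c', hz', hzd', hzc', rfl⟩ := hv'
  have := h (z - d) (z' - d) d (z' - c') (z - c) hzd hzd' (by simpa using hz) (by simpa using hz')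
    hzc' hzc
  simp only [det, Prod.fst_sub, Prod.snd_sub] at this ⊢
  nlinarith [this]

theorem VV_neg (K : Set (ℝ × ℝ)) (d : ℝ × ℝ) : VV K (-d) = -(VV K d) := by
  ext v
  constructor
  · rintro ⟨z, c, hz, hzd, hzc, rfl⟩
    refine ⟨z + d, c + d, ?_, ?_, ?_, ?_⟩
    · simpa using hzd
    · simpa using hz
    · have : z + d - (c + d) = z - c := by abel
      rw [this]; exact hzc
    · simp only [det, Prod.fst_neg, Prod.snd_neg, Prod.fst_add, Prod.snd_add]; ring
  · rintro ⟨z, c, hz, hzd, hzc, hv⟩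
    refine ⟨z - d, c - d, hzd, by simpa using hz, ?_, ?_⟩
    · have : z - d - (c - d) = z - c := by abel
      rw [this]; exact hzc
    · have : v = -(3 * det d z + det d c) := by linarith
      rw [this]
      simp only [det, Prod.fst_neg, Prod.snd_neg, Prod.fst_sub, Prod.snd_sub]; ring

theorem mu_neg (K : Set (ℝ × ℝ)) (d : ℝ × ℝ) : mu K (-d) = -mu K d := by
  unfold mu
  rw [VV_neg]
  have h1 : sSup (-(VV K d)) = -sInf (VV K d) := by rw [Real.sInf_def]; ring
  have h2 : sInf (-(VV K d)) = -sSup (VV K d) := by rw [Real.sInf_def, neg_neg]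
  rw [h1, h2]; ring

theorem mu_zero (K : Set (ℝ × ℝ)) : mu K 0 = 0 := by
  have := mu_neg K 0
  rw [neg_zero] at this
  linarith

theorem abs_sub_mu {K : Set (ℝ × ℝ)} {R : ℝ} (h : RowBound K R) {d : ℝ × ℝ} {v : ℝ}
    (hv : v ∈ VV K d) : |v - mu K d| ≤ 2 * R := by
  have hne : (VV K d).Nonempty := ⟨v, hv⟩
  have hba : BddAbove (VV K d) := ⟨v + 4 * R, fun v' hv' => by
    have := VV_diff h hv' hv; linarith⟩
  have hbb : BddBelow (VV K d) := ⟨v - 4 * R, fun v' hv' => by
    have := VV_diff h hv hv'; linarith⟩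
  have h1 : sSup (VV K d) ≤ v + 4 * R := csSup_le hne fun v' hv' => by
    have := VV_diff h hv' hv; linarith
  have h2 : v ≤ sSup (VV K d) := le_csSup hba hv
  have h3 : v - 4 * R ≤ sInf (VV K d) := le_csInf hne fun v' hv' => by
    have := VV_diff h hv hv'; linarith
  have h4 : sInf (VV K d) ≤ v := csInf_le hbb hv
  unfold mu
  rw [abs_le]
  constructor <;> linarith

theorem abs_mu_le {K : Set (ℝ × ℝ)} {B : ℝ} (hB : ∀ z ∈ K, |z.1| ≤ B ∧ |z.2| ≤ B) (hB0 : 0 ≤ B)
    (d : ℝ × ℝ) : |mu K d| ≤ 20 * B ^ 2 := by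
  have hv : ∀ v ∈ VV K d, |v| ≤ 20 * B ^ 2 := by
    rintro v ⟨z, c, hz, hzd, hzc, rfl⟩
    obtain ⟨a1, a2⟩ := hB _ hz
    obtain ⟨b1, b2⟩ := hB _ hzd
    obtain ⟨c1, c2⟩ := hB _ hzc
    simp only [Prod.fst_sub, Prod.snd_sub] at b1 b2 c1 c2
    have d1 : |d.1| ≤ 2 * B := by
      have : d.1 = z.1 - (z.1 - d.1) := by ring
      rw [this]; exact (abs_sub _ _).trans (by linarith)
    have d2 : |d.2| ≤ 2 * B := by
      have : d.2 = z.2 - (z.2 - d.2) := by ring
      rw [this]; exact (abs_sub _ _).trans (by linarith)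
    have e1 : |c.1| ≤ 2 * B := by
      have : c.1 = z.1 - (z.1 - c.1) := by ring
      rw [this]; exact (abs_sub _ _).trans (by linarith)
    have e2 : |c.2| ≤ 2 * B := by
      have : c.2 = z.2 - (z.2 - c.2) := by ring
      rw [this]; exact (abs_sub _ _).trans (by linarith)
    have hdet : ∀ u v : ℝ × ℝ, |det u v| ≤ |u.1| * |v.2| + |u.2| * |v.1| := by
      intro u v
      unfold det
      refine (abs_sub _ _).trans ?_
      rw [abs_mul, abs_mul]
    have f1 := hdet d z
    have f2 := hdet d c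
    have g1 : |d.1| * |z.2| ≤ 2 * B * B := mul_le_mul d1 a2 (abs_nonneg _) (by linarith)
    have g2 : |d.2| * |z.1| ≤ 2 * B * B := mul_le_mul d2 a1 (abs_nonneg _) (by linarith)
    have g3 : |d.1| * |c.2| ≤ 2 * B * (2 * B) := mul_le_mul d1 e2 (abs_nonneg _) (by linarith)
    have g4 : |d.2| * |c.1| ≤ 2 * B * (2 * B) := mul_le_mul d2 e1 (abs_nonneg _) (by linarith)
    have : |3 * det d z + det d c| ≤ 3 * |det d z| + |det d c| := by
      refine (abs_add_le _ _).trans ?_
      rw [abs_mul]; simp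
    nlinarith
  unfold mu
  by_cases hne : (VV K d).Nonempty
  · have h1 : sSup (VV K d) ≤ 20 * B ^ 2 := csSup_le hne fun v' hv' => (abs_le.1 (hv v' hv')).2
    have h3 : -(20 * B ^ 2) ≤ sInf (VV K d) := le_csInf hne fun v' hv' => (abs_le.1 (hv v' hv')).1
    obtain ⟨v, hvm⟩ := hne
    have hba : BddAbove (VV K d) := ⟨20 * B ^ 2, fun v' hv' => (abs_le.1 (hv v' hv')).2⟩
    have hbb : BddBelow (VV K d) := ⟨-(20 * B ^ 2), fun v' hv' => (abs_le.1 (hv v' hv')).1⟩
    have h2 : v ≤ sSup (VV K d) := le_csSup hba hvm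
    have h4 : sInf (VV K d) ≤ v := csInf_le hbb hvm
    have h5 := abs_le.1 (hv v hvm)
    rw [abs_le]
    constructor <;> linarith [h5.1, h5.2]
  · rw [Set.not_nonempty_iff_eq_empty] at hne
    rw [hne]
    simp only [Real.sSup_empty, Real.sInf_empty, add_zero, zero_div, abs_zero]
    positivity

theorem wt_self (K : Set (ℝ × ℝ)) (a : ℝ × ℝ) : wt K a a = 0 := by
  unfold wt; rw [sub_self, mu_zero]; ring

theorem wt_anti (K : Set (ℝ × ℝ)) (a b : ℝ × ℝ) : wt K b a = -wt K a b := by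
  unfold wt
  have : a - b = -(b - a) := by abel
  rw [this, mu_neg]; ring

theorem wt_triple {K : Set (ℝ × ℝ)} {R : ℝ} (h : RowBound K R) {a k b z : ℝ × ℝ}
    (ha : z - a ∈ K) (hk : z - k ∈ K) (hb : z - b ∈ K) :
    |wt K a k + wt K k b - wt K a b| ≤ 6 * R := by
  have v1 : 3 * det (k - a) (z - a) + det (k - a) (b - a) ∈ VV K (k - a) := by
    refine ⟨z - a, b - a, ha, ?_, ?_, rfl⟩
    · have : z - a - (k - a) = z - k := by abel
      rw [this]; exact hk
    · have : z - a - (b - a) = z - b := by abel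
      rw [this]; exact hb
  have v2 : 3 * det (b - k) (z - k) + det (b - k) (a - k) ∈ VV K (b - k) := by
    refine ⟨z - k, a - k, hk, ?_, ?_, rfl⟩
    · have : z - k - (b - k) = z - b := by abel
      rw [this]; exact hb
    · have : z - k - (a - k) = z - a := by abel
      rw [this]; exact ha
  have v3 : 3 * det (b - a) (z - a) + det (b - a) (k - a) ∈ VV K (b - a) := by
    refine ⟨z - a, k - a, ha, ?_, ?_, rfl⟩
    · have : z - a - (b - a) = z - b := by abel
      rw [this]; exact hb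
    · have : z - a - (k - a) = z - k := by abel
      rw [this]; exact hk
  have m1 := abs_le.1 (abs_sub_mu h v1)
  have m2 := abs_le.1 (abs_sub_mu h v2)
  have m3 := abs_le.1 (abs_sub_mu h v3)
  have key : (3 * det (k - a) (z - a) + det (k - a) (b - a))
      + (3 * det (b - k) (z - k) + det (b - k) (a - k))
      - (3 * det (b - a) (z - a) + det (b - a) (k - a))
      + (6 * (a.2 + k.2) * (k.1 - a.1) + 6 * (k.2 + b.2) * (b.1 - k.1)
        - 6 * (a.2 + b.2) * (b.1 - a.1)) = 0 := by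
    simp only [det, Prod.fst_sub, Prod.snd_sub]; ring
  unfold wt
  rw [abs_le]
  constructor <;> linarith [m1.1, m1.2, m2.1, m2.2, m3.1, m3.2]

end Pool.Agent.Lib.MP_eb03ca_co
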