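import Mathlib

/-!
Horizontal sections of a planar convex body (problem MP_eb03ca_co).
-/

set_option autoImplicit false

namespace Pool.Agent.Lib.MP_eb03ca_co

/-- Horizontal section at height `s`. -/
def sec (K : Set (ℝ × ℝ)) (s : ℝ) : Set ℝ := {x | (x, s) ∈ K}

/-- Left end of the section. -/
noncomputable def lo (K : Set (ℝ × ℝ)) (s : ℝ) : ℝ := sInf (sec K s)

/-- Right end of the section. -/
noncomputable def hi (K : Set (ℝ × ℝ)) (s : ℝ) : ℝ := sSup (sec K s)

variable {K : Set (ℝ × ℝ)}

theorem sec_isCompact (hK : IsCompact K) (s : ℝ) : IsCompact (sec K s) := by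
  have hcl : IsClosed (sec K s) :=
    hK.isClosed.preimage (Continuous.prodMk continuous_id continuous_const)
  refine IsCompact.of_isClosed_subset (hK.image continuous_fst) hcl ?_
  intro x hx
  exact ⟨(x, s), hx, rfl⟩

theorem lo_mem (hK : IsCompact K) {s : ℝ} (hne : (sec K s).Nonempty) : (lo K s, s) ∈ K :=
  (sec_isCompact hK s).sInf_mem hne

theorem hi_mem (hK : IsCompact K) {s : ℝ} (hne : (sec K s).Nonempty) : (hi K s, s) ∈ K :=
  (sec_isCompact hK s).sSup_mem hne

theorem lo_le (hK : IsCompact K) {s x : ℝ} (hx : (x, s) ∈ K) : lo K s ≤ x :=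
  csInf_le (sec_isCompact hK s).bddBelow hx

theorem le_hi (hK : IsCompact K) {s x : ℝ} (hx : (x, s) ∈ K) : x ≤ hi K s :=
  le_csSup (sec_isCompact hK s).bddAbove hx

theorem lo_le_hi (hK : IsCompact K) {s : ℝ} (hne : (sec K s).Nonempty) : lo K s ≤ hi K s :=
  lo_le hK (hi_mem hK hne)

theorem mem_of_lo_hi (hK : IsCompact K) (hc : Convex ℝ K) {s x : ℝ} (hne : (sec K s).Nonempty)
    (h1 : lo K s ≤ x) (h2 : x ≤ hi K s) : (x, s) ∈ K := by
  have hA := lo_mem hK hne
  have hB := hi_mem hK hne
  rcases eq_or_lt_of_le (h1.trans h2) with h | h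
  · have : x = lo K s := le_antisymm (by rw [h]; exact h2) h1
    rw [this]; exact hA
  · set L := lo K s
    set R := hi K s
    have hpos : 0 < R - L := by linarith
    have := hc hA hB (a := (R - x) / (R - L)) (b := (x - L) / (R - L))
      (div_nonneg (by linarith) hpos.le) (div_nonneg (by linarith) hpos.le)
      (by field_simp; ring)
    convert this using 1
    ext
    · simp only [Prod.fst_add, Prod.smul_fst, smul_eq_mul]
      field_simp; ring
    · simp only [Prod.snd_add, Prod.smul_snd, smul_eq_mul]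
      field_simp; ring

/-- A convex combination of two points of `K`, with prescribed height. -/
theorem comb_mem (hc : Convex ℝ K) {x x' s t u : ℝ} (hx : (x, s) ∈ K) (hx' : (x', t) ∈ K)
    (hsu : s ≤ u) (hut : u ≤ t) (hst : s < t) :
    (((t - u) / (t - s)) * x + ((u - s) / (t - s)) * x', u) ∈ K := by
  have hpos : 0 < t - s := by linarith
  have := hc hx hx' (a := (t - u) / (t - s)) (b := (u - s) / (t - s))
    (div_nonneg (by linarith) hpos.le) (div_nonneg (by linarith) hpos.le)
    (by field_simp; ring)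
  convert this using 1
  ext
  · simp only [Prod.fst_add, Prod.smul_fst, smul_eq_mul]
  · simp only [Prod.snd_add, Prod.smul_snd, smul_eq_mul]
    field_simp; ring

theorem sec_nonempty_mid (hc : Convex ℝ K) {s t u : ℝ} (hs : (sec K s).Nonempty)
    (ht : (sec K t).Nonempty) (hsu : s ≤ u) (hut : u ≤ t) : (sec K u).Nonempty := by
  rcases eq_or_lt_of_le (hsu.trans hut) with h | h
  · have : u = s := le_antisymm (by rw [h]; exact hut) hsu
    rw [this]; exact hs
  · obtain ⟨x, hx⟩ := hs
    obtain ⟨x', hx'⟩ := ht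
    exact ⟨_, comb_mem hc hx hx' hsu hut h⟩

/-- The monotone difference property of the left end. -/
theorem lo_incr (hK : IsCompact K) (hc : Convex ℝ K) {s t δ : ℝ} (hst : s ≤ t) (hδ : 0 ≤ δ)
    (h1 : (sec K (s - δ)).Nonempty) (h2 : (sec K t).Nonempty) :
    lo K s + lo K (t - δ) ≤ lo K (s - δ) + lo K t := by
  have hle : s - δ ≤ t := by linarith
  rcases eq_or_lt_of_le hle with h | h
  · have hs : s = t := by linarith
    have hd : δ = 0 := by linarith
    subst hs; subst hd; simp
  · have hA := lo_mem hK h1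
    have hB := lo_mem hK h2
    have c1 := lo_le hK (comb_mem hc hA hB (u := s) (by linarith) hst h)
    have c2 := lo_le hK (comb_mem hc hA hB (u := t - δ) (by linarith) (by linarith) h)
    have hpos : 0 < t - (s - δ) := by linarith
    have e : (t - s) / (t - (s - δ)) * lo K (s - δ) + (s - (s - δ)) / (t - (s - δ)) * lo K t
      + ((t - (t - δ)) / (t - (s - δ)) * lo K (s - δ)
        + (t - δ - (s - δ)) / (t - (s - δ)) * lo K t) = lo K (s - δ) + lo K t := by
      field_simp; ring
    linarith

/-- The monotone difference property of the right end. -/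
theorem hi_incr (hK : IsCompact K) (hc : Convex ℝ K) {s t δ : ℝ} (hst : s ≤ t) (hδ : 0 ≤ δ)
    (h1 : (sec K (s - δ)).Nonempty) (h2 : (sec K t).Nonempty) :
    hi K (s - δ) + hi K t ≤ hi K s + hi K (t - δ) := by
  have hle : s - δ ≤ t := by linarith
  rcases eq_or_lt_of_le hle with h | h
  · have hs : s = t := by linarith
    have hd : δ = 0 := by linarith
    subst hs; subst hd; simp
  · have hA := hi_mem hK h1
    have hB := hi_mem hK h2
    have c1 := le_hi hK (comb_mem hc hA hB (u := s) (by linarith) hst h)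
    have c2 := le_hi hK (comb_mem hc hA hB (u := t - δ) (by linarith) (by linarith) h)
    have hpos : 0 < t - (s - δ) := by linarith
    have e : (t - s) / (t - (s - δ)) * hi K (s - δ) + (s - (s - δ)) / (t - (s - δ)) * hi K t
      + ((t - (t - δ)) / (t - (s - δ)) * hi K (s - δ)
        + (t - δ - (s - δ)) / (t - (s - δ)) * hi K t) = hi K (s - δ) + hi K t := by
      field_simp; ring
    linarith

/-- The left end at an intermediate height lies below any common upper bound. -/
theorem lo_mid (hK : IsCompact K) (hc : Convex ℝ K) {s t u c : ℝ} (hs : (sec K s).Nonempty)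
    (ht : (sec K t).Nonempty) (hsu : s ≤ u) (hut : u ≤ t) (h1 : lo K s < c) (h2 : lo K t < c) :
    lo K u < c := by
  rcases eq_or_lt_of_le (hsu.trans hut) with h | h
  · have : u = s := le_antisymm (by rw [h]; exact hut) hsu
    rw [this]; exact h1
  · have c1 := lo_le hK (comb_mem hc (lo_mem hK hs) (lo_mem hK ht) hsu hut h)
    have hpos : 0 < t - s := by linarith
    have a0 : 0 ≤ (t - u) / (t - s) := div_nonneg (by linarith) hpos.le
    have b0 : 0 ≤ (u - s) / (t - s) := div_nonneg (by linarith) hpos.le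
    have ab : (t - u) / (t - s) + (u - s) / (t - s) = 1 := by field_simp; ring
    set a := (t - u) / (t - s)
    set b := (u - s) / (t - s)
    rcases eq_or_lt_of_le a0 with ha | ha
    · rw [← ha] at c1 ab
      have : b = 1 := by linarith
      rw [this] at c1
      linarith
    · have e1 : a * lo K s < a * c := mul_lt_mul_of_pos_left h1 ha
      have e2 : b * lo K t ≤ b * c := mul_le_mul_of_nonneg_left h2.le b0
      have e3 : a * c + b * c = c := by rw [← add_mul, ab, one_mul]
      linarith

theorem hi_mid (hK : IsCompact K) (hc : Convex ℝ K) {s t u c : ℝ} (hs : (sec K s).Nonempty)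
    (ht : (sec K t).Nonempty) (hsu : s ≤ u) (hut : u ≤ t) (h1 : c < hi K s) (h2 : c < hi K t) :
    c < hi K u := by
  rcases eq_or_lt_of_le (hsu.trans hut) with h | h
  · have : u = s := le_antisymm (by rw [h]; exact hut) hsu
    rw [this]; exact h1
  · have c1 := le_hi hK (comb_mem hc (hi_mem hK hs) (hi_mem hK ht) hsu hut h)
    have hpos : 0 < t - s := by linarith
    have a0 : 0 ≤ (t - u) / (t - s) := div_nonneg (by linarith) hpos.le
    have b0 : 0 ≤ (u - s) / (t - s) := div_nonneg (by linarith) hpos.le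
    have ab : (t - u) / (t - s) + (u - s) / (t - s) = 1 := by field_simp; ring
    set a := (t - u) / (t - s)
    set b := (u - s) / (t - s)
    rcases eq_or_lt_of_le a0 with ha | ha
    · rw [← ha] at c1 ab
      have : b = 1 := by linarith
      rw [this] at c1
      linarith
    · have e1 : a * c < a * hi K s := mul_lt_mul_of_pos_left h1 ha
      have e2 : b * c ≤ b * hi K t := mul_le_mul_of_nonneg_left h2.le b0
      have e3 : a * c + b * c = c := by rw [← add_mul, ab, one_mul]
      linarith

/-- Sections at close heights are close. -/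
theorem sec_close (hK : IsCompact K) (hc : Convex ℝ K) (hne : K.Nonempty) {ε : ℝ} (hε : 0 < ε) :
    ∃ η : ℝ, 0 < η ∧ ∀ s s' : ℝ, (sec K s).Nonempty → (sec K s').Nonempty → |s - s'| ≤ η →
      lo K s' ≤ hi K s + ε := by
  obtain ⟨⟨a, h0⟩, hA, hAmin⟩ := hK.exists_isMinOn hne continuous_snd.continuousOn
  obtain ⟨⟨b, h1⟩, hB, hBmax⟩ := hK.exists_isMaxOn hne continuous_snd.continuousOn
  have hmin : ∀ z ∈ K, h0 ≤ z.2 := fun z hz => hAmin hz
  have hmax : ∀ z ∈ K, z.2 ≤ h1 := fun z hz => hBmax hz
  rcases eq_or_lt_of_le (hmin _ hB) with h | h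
  · refine ⟨1, one_pos, fun s s' hs hs' _ => ?_⟩
    obtain ⟨x, hx⟩ := hs
    obtain ⟨x', hx'⟩ := hs'
    have e1 : s = h0 := le_antisymm (by have := hmax _ hx; simp only at this h; linarith) (hmin _ hx)
    have e2 : s' = h0 :=
      le_antisymm (by have := hmax _ hx'; simp only at this h; linarith) (hmin _ hx')
    have : lo K s' ≤ hi K s := by
      rw [e1, e2]
      exact lo_le_hi hK ⟨x, by rw [← e1]; exact hx⟩
    linarith
  · have hpos : 0 < h1 - h0 := by simp only at h; linarith
    refine ⟨ε * (h1 - h0) / (|b - a| + 1), by positivity, fun s s' hs hs' hss => ?_⟩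
    obtain ⟨x, hx⟩ := hs
    obtain ⟨x', hx'⟩ := hs'
    have m1 := comb_mem hc hA hB (u := s) (hmin _ hx) (hmax _ hx) h
    have m2 := comb_mem hc hA hB (u := s') (hmin _ hx') (hmax _ hx') h
    have l1 := le_hi hK m1
    have l2 := lo_le hK m2
    have key : (h1 - s') / (h1 - h0) * a + (s' - h0) / (h1 - h0) * b
      - ((h1 - s) / (h1 - h0) * a + (s - h0) / (h1 - h0) * b) = (s' - s) * (b - a) / (h1 - h0) := by
      field_simp; ring
    have hb : (s' - s) * (b - a) / (h1 - h0) ≤ ε := by
      rw [div_le_iff₀ hpos]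
      have h3 : (s' - s) * (b - a) ≤ |s - s'| * |b - a| := by
        rw [abs_sub_comm s s', ← abs_mul]; exact le_abs_self _
      have h4 : |s - s'| * |b - a| ≤ ε * (h1 - h0) / (|b - a| + 1) * |b - a| :=
        mul_le_mul_of_nonneg_right hss (abs_nonneg _)
      have h5 : ε * (h1 - h0) / (|b - a| + 1) * |b - a| ≤ ε * (h1 - h0) := by
        rw [div_mul_eq_mul_div, div_le_iff₀ (by positivity)]
        have : 0 ≤ ε * (h1 - h0) := by positivity
        nlinarith [abs_nonneg (b - a)]
      linarith
    linarith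

end Pool.Agent.Lib.MP_eb03ca_co
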