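import Mathlib

/-!
A combinatorial comparison of two chains of intervals (problem MP_eb03ca_co).
-/

set_option autoImplicit false

namespace Pool.Agent.Lib.MP_eb03ca_co

variable {α : Type*} [DecidableEq α]

/-- Sum of a weight over consecutive pairs of a list. -/
def wsum (w : α → α → ℝ) : List α → ℝ
  | [] => 0
  | [_] => 0
  | a :: b :: l => w a b + wsum w (b :: l)

/-- Number of elements of exactly one of two lists. -/
def ecount (A B : List α) : ℕ := A.countP (fun x => x ∉ B) + B.countP (fun x => x ∉ A)

/-- Closeness of the interval of `a` (first family) and of `b` (second family). -/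
def Ov (ε : ℝ) (la ra lb rb : α → ℝ) (a b : α) : Prop := la a ≤ rb b + ε ∧ lb b ≤ ra a + ε

/-- The hypotheses on two chains. -/
structure Hyp (w : α → α → ℝ) (C0 ε : ℝ) (la ra lb rb : α → ℝ) (A B : List α) : Prop where
  sA : A.Pairwise (fun a a' => la a < la a' ∧ ra a < ra a')
  sB : B.Pairwise (fun b b' => lb b < lb b' ∧ rb b < rb b')
  oA : A.IsChain (fun a a' => la a' ≤ ra a)
  oB : B.IsChain (fun b b' => lb b' ≤ rb b)
  self : ∀ k ∈ A, k ∈ B → Ov ε la ra lb rb k k
  cons : ∀ k ∈ A, k ∈ B → ∀ j ∈ A, j ∈ B → (la k < la j ↔ lb k < lb j)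
  lastA : ∀ (h : A ≠ []), ∀ b ∈ B, lb b ≤ ra (A.getLast h) + ε
  lastB : ∀ (h : B ≠ []), ∀ a ∈ A, la a ≤ rb (B.getLast h) + ε
  tA : ∀ a ∈ A, ∀ a' ∈ A, ∀ b ∈ B, la a < la a' → ra a < ra a' → la a' ≤ ra a →
    Ov ε la ra lb rb a b → Ov ε la ra lb rb a' b → |w a a' + w a' b - w a b| ≤ C0
  tB : ∀ b ∈ B, ∀ b' ∈ B, ∀ a ∈ A, lb b < lb b' → rb b < rb b' → lb b' ≤ rb b →
    Ov ε lb rb la ra b a → Ov ε lb rb la ra b' a → |w b b' + w b' a - w b a| ≤ C0

theorem Ov.symm {ε : ℝ} {la ra lb rb : α → ℝ} {a b : α} (h : Ov ε la ra lb rb a b) :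
    Ov ε lb rb la ra b a := ⟨h.2, h.1⟩

theorem Hyp.symm {w : α → α → ℝ} {C0 ε : ℝ} {la ra lb rb : α → ℝ} {A B : List α}
    (h : Hyp w C0 ε la ra lb rb A B) : Hyp w C0 ε lb rb la ra B A where
  sA := h.sB
  sB := h.sA
  oA := h.oB
  oB := h.oA
  self := fun k hk hk' => (h.self k hk' hk).symm
  cons := fun k hk hk' j hj hj' => (h.cons k hk' hk j hj' hj).symm
  lastA := h.lastB
  lastB := h.lastA
  tA := h.tB
  tB := h.tA

theorem ecount_comm (A B : List α) : ecount A B = ecount B A := by
  unfold ecount; ring

/-- Dropping the head of the second chain preserves the hypotheses. -/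
theorem Hyp.dropB {w : α → α → ℝ} {C0 ε : ℝ} {la ra lb rb : α → ℝ} {A : List α} {b b2 : α}
    {B : List α} (h : Hyp w C0 ε la ra lb rb A (b :: b2 :: B)) :
    Hyp w C0 ε la ra lb rb A (b2 :: B) where
  sA := h.sA
  sB := (List.pairwise_cons.1 h.sB).2
  oA := h.oA
  oB := h.oB.tail
  self := fun k hk hk' => h.self k hk (List.mem_cons_of_mem _ hk')
  cons := fun k hk hk' j hj hj' =>
    h.cons k hk (List.mem_cons_of_mem _ hk') j hj (List.mem_cons_of_mem _ hj')
  lastA := fun hne x hx => h.lastA hne x (List.mem_cons_of_mem _ hx)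
  lastB := fun hne x hx => by
    have := h.lastB (by simp) x hx
    rwa [List.getLast_cons_cons] at this
  tA := fun a ha a' ha' x hx => h.tA a ha a' ha' x (List.mem_cons_of_mem _ hx)
  tB := fun x hx x' hx' a ha =>
    h.tB x (List.mem_cons_of_mem _ hx) x' (List.mem_cons_of_mem _ hx') a ha

/-- The quantity to be bounded. -/
def GG (w : α → α → ℝ) (a : α) (A : List α) (b : α) (B : List α) : ℝ :=
  wsum w (a :: A) + w ((a :: A).getLast (by simp)) ((b :: B).getLast (by simp)) - w a b
    - wsum w (b :: B)

theorem GG_symm {w : α → α → ℝ} (hw : ∀ a b, w b a = -w a b) (a : α) (A : List α) (b : α)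
    (B : List α) : GG w b B a A = -GG w a A b B := by
  unfold GG
  rw [hw ((a :: A).getLast (by simp)) ((b :: B).getLast (by simp)), hw a b]
  ring

theorem GG_step {w : α → α → ℝ} (a : α) (A : List α) (b b2 : α) (B : List α) :
    GG w a A b (b2 :: B) = GG w a A b2 B + (w a b2 - w a b - w b b2) := by
  unfold GG
  rw [List.getLast_cons_cons]
  simp only [wsum]
  ring

/-- The sharpened count: one less when the heads differ. -/
noncomputable def bnd (C0 : ℝ) (a : α) (A : List α) (b : α) (B : List α) : ℝ :=
  C0 * ((ecount (a :: A) (b :: B) : ℝ) - (if a = b then 0 else 1))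

theorem bnd_symm (C0 : ℝ) (a : α) (A : List α) (b : α) (B : List α) :
    bnd C0 b B a A = bnd C0 a A b B := by
  unfold bnd
  rw [ecount_comm]
  by_cases h : a = b
  · simp [h]
  · rw [if_neg h, if_neg (fun h' => h h'.symm)]

theorem ecount_drop {A : List α} {b : α} {B : List α} (hb : b ∉ A) :
    ecount A (b :: B) = ecount A B + 1 := by
  unfold ecount
  have h1 : A.countP (fun x => x ∉ b :: B) = A.countP (fun x => x ∉ B) := by
    apply List.countP_congr
    intro x hx
    have : x ≠ b := fun h => hb (h ▸ hx)
    simp [this]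
  have h2 : (b :: B).countP (fun x => x ∉ A) = B.countP (fun x => x ∉ A) + 1 := by
    rw [List.countP_cons_of_pos]
    simpa using hb
  rw [h1, h2]; ring

theorem ecount_drop_eq {a : α} {A B : List α} (hB : a ∉ B) (hA : a ∉ A) :
    ecount (a :: A) B = ecount (a :: A) (a :: B) + 1 := by
  unfold ecount
  have h1 : (a :: A).countP (fun x => x ∉ B) = A.countP (fun x => x ∉ a :: B) + 1 := by
    rw [List.countP_cons_of_pos (by simpa using hB)]
    congr 1
    apply List.countP_congr
    intro x hx
    have : x ≠ a := fun h => hA (h ▸ hx)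
    simp [this]
  have h2 : (a :: A).countP (fun x => x ∉ a :: B) = A.countP (fun x => x ∉ a :: B) := by
    rw [List.countP_cons_of_neg]
    simp
  have h3 : (a :: B).countP (fun x => x ∉ a :: A) = B.countP (fun x => x ∉ a :: A) := by
    rw [List.countP_cons_of_neg]
    simp
  rw [h1, h2, h3]; ring

/-- One step along the second chain. -/
theorem stepB {w : α → α → ℝ} (hw : ∀ a b, w b a = -w a b) (hw0 : ∀ a, w a a = 0)
    {C0 ε : ℝ} {la ra lb rb : α → ℝ} {a : α} {A : List α} {b b2 : α}
    {B : List α} (h : Hyp w C0 ε la ra lb rb (a :: A) (b :: b2 :: B))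
    (hov : Ov ε la ra lb rb a b) (hov2 : Ov ε la ra lb rb a b2)
    (hb : a = b ∨ b ∉ a :: A) (ih : |GG w a A b2 B| ≤ bnd C0 a A b2 B) :
    |GG w a A b (b2 :: B)| ≤ bnd C0 a A b (b2 :: B) := by
  have hsB := List.pairwise_cons.1 h.sB
  have hbb2 : lb b < lb b2 ∧ rb b < rb b2 := hsB.1 b2 (by simp)
  have hbne : b ≠ b2 := fun h' => by rw [h'] at hbb2; exact lt_irrefl _ hbb2.1
  have hbnot : b ∉ b2 :: B := fun hmem => by
    have := (hsB.1 b hmem).1; exact lt_irrefl _ this
  rw [GG_step]
  rcases hb with rfl | hb
  · -- equal heads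
    have hA : a ∉ A := fun hmem => by
      have := ((List.pairwise_cons.1 h.sA).1 a hmem).1; exact lt_irrefl _ this
    have e0 : w a b2 - w a a - w a b2 = 0 := by rw [hw0]; ring
    rw [e0, add_zero]
    refine ih.trans (le_of_eq ?_)
    unfold bnd
    rw [if_neg hbne, if_pos rfl, ecount_drop_eq hbnot hA]
    push_cast; ring
  · have hab : a ≠ b := fun h' => hb (h' ▸ List.mem_cons_self)
    by_cases hab2 : a = b2
    · subst hab2
      have e0 : w a a - w a b - w b a = 0 := by rw [hw0, hw a b]; ring
      rw [e0, add_zero]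
      refine ih.trans (le_of_eq ?_)
      unfold bnd
      rw [if_neg hab, if_pos rfl, ecount_drop hb]
      push_cast; ring
    · have ht := h.tB b (by simp) b2 (by simp) a (by simp) hbb2.1 hbb2.2
        (by have := h.oB; simp only [List.isChain_cons_cons] at this; exact this.1)
        hov.symm hov2.symm
      have e1 : w a b2 - w a b - w b b2 = -(w b b2 + w b2 a - w b a) := by
        rw [hw a b2, hw a b]; ring
      calc |GG w a A b2 B + (w a b2 - w a b - w b b2)|
          ≤ |GG w a A b2 B| + |w a b2 - w a b - w b b2| := abs_add_le _ _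
        _ ≤ bnd C0 a A b2 B + C0 := by
            rw [e1, abs_neg]; exact add_le_add ih ht
        _ = bnd C0 a A b (b2 :: B) := by
            unfold bnd
            rw [if_neg hab, if_neg hab2, ecount_drop hb]
            push_cast; ring

/-- The zigzag lemma. -/
theorem zigzag {w : α → α → ℝ} (hw : ∀ a b, w b a = -w a b) (hw0 : ∀ a, w a a = 0)
    {C0 ε : ℝ} (hC0 : 0 ≤ C0) (hε : 0 ≤ ε) (n : ℕ) :
    ∀ (la ra lb rb : α → ℝ) (a : α) (A : List α) (b : α) (B : List α),
      A.length + B.length = n → Hyp w C0 ε la ra lb rb (a :: A) (b :: B) →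
      Ov ε la ra lb rb a b → |GG w a A b B| ≤ bnd C0 a A b B := by
  induction n with
  | zero =>
    intro la ra lb rb a A b B hn h hov
    have hA : A = [] := List.length_eq_zero_iff.1 (by omega)
    have hB : B = [] := List.length_eq_zero_iff.1 (by omega)
    subst hA; subst hB
    unfold GG bnd
    simp only [wsum, List.getLast_singleton]
    by_cases hab : a = b
    · subst hab; simp [ecount]
    · rw [if_neg hab]
      have hba : b ≠ a := fun h => hab h.symm
      simp only [ecount]
      simp [hab, hba]
      norm_num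
      exact hC0
  | succ n ih =>
    intro la ra lb rb a A b B hn h hov
    -- generic moves
    have moveB : ∀ (b2 : α) (B' : List α), B = b2 :: B' → Ov ε la ra lb rb a b2 →
        (a = b ∨ b ∉ a :: A) → |GG w a A b B| ≤ bnd C0 a A b B := by
      intro b2 B' hB hov2 hb
      subst hB
      exact stepB hw hw0 h hov hov2 hb
        (ih la ra lb rb a A b2 B' (by simp at hn ⊢; omega) h.dropB hov2)
    have moveA : ∀ (a2 : α) (A' : List α), A = a2 :: A' → Ov ε la ra lb rb a2 b →
        (b = a ∨ a ∉ b :: B) → |GG w a A b B| ≤ bnd C0 a A b B := by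
      intro a2 A' hA hov2 ha
      subst hA
      have := stepB hw hw0 h.symm hov.symm hov2.symm ha
        (ih lb rb la ra b B a2 A' (by simp at hn ⊢; omega) h.symm.dropB hov2.symm)
      rw [GG_symm hw, abs_neg, bnd_symm] at this
      exact this
    have hsA := List.pairwise_cons.1 h.sA
    have hsB := List.pairwise_cons.1 h.sB
    match A, B, hn, h, hov, moveB, moveA, hsA, hsB with
    | [], [], hn, _, _, _, _, _, _ => simp at hn
    | [], b2 :: B', hn, h, hov, moveB, moveA, hsA, hsB =>
      refine moveB b2 B' rfl ⟨?_, ?_⟩ ?_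
      · have := (hsB.1 b2 (by simp)).2
        linarith [hov.1]
      · have := h.lastA (by simp) b2 (by simp)
        simpa using this
      · by_cases hab : a = b
        · exact Or.inl hab
        · right; simp; exact fun h' => hab h'.symm
    | a2 :: A', [], hn, h, hov, moveB, moveA, hsA, hsB =>
      refine moveA a2 A' rfl ⟨?_, ?_⟩ ?_
      · have := h.lastB (by simp) a2 (by simp)
        simpa using this
      · have := (hsA.1 a2 (by simp)).2
        linarith [hov.2]
      · by_cases hab : a = b
        · exact Or.inl hab.symm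
        · right; simp; exact hab
    | a2 :: A', b2 :: B', hn, h, hov, moveB, moveA, hsA, hsB =>
      have ha2 := hsA.1 a2 (by simp)
      have hb2 := hsB.1 b2 (by simp)
      have hoA : la a2 ≤ ra a := by
        have := h.oA; simp only [List.isChain_cons_cons] at this; exact this.1
      have hoB : lb b2 ≤ rb b := by
        have := h.oB; simp only [List.isChain_cons_cons] at this; exact this.1
      -- if the B-step is impossible then the A-step is possible
      have hor : Ov ε la ra lb rb a b2 ∨ Ov ε la ra lb rb a2 b := by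
        by_cases h1 : lb b2 ≤ ra a + ε
        · exact Or.inl ⟨by linarith [hov.1], h1⟩
        · right
          push Not at h1
          exact ⟨by linarith, by linarith [hov.2]⟩
      by_cases hab : a = b
      · rcases hor with h1 | h1
        · exact moveB b2 B' rfl h1 (Or.inl hab)
        · exact moveA a2 A' rfl h1 (Or.inl hab.symm)
      · by_cases haB : a ∈ b :: b2 :: B'
        · -- a is common and later in B
          have haB' : a ∈ b2 :: B' := by
            rcases List.mem_cons.1 haB with h1 | h1
            · exact absurd h1 hab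
            · exact h1
          have hbA : b ∉ a :: a2 :: A' := by
            intro hbA
            have hbA' : b ∈ a2 :: A' := by
              rcases List.mem_cons.1 hbA with h1 | h1
              · exact absurd h1.symm hab
              · exact h1
            have h1 := (hsA.1 b hbA').1
            have h2 := (hsB.1 a haB').1
            have h3 := (h.cons a (by simp) haB b hbA (by simp)).1 h1
            linarith
          have hself := h.self a (by simp) haB
          refine moveB b2 B' rfl ⟨by linarith [hov.1], ?_⟩ (Or.inr hbA)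
          have : lb b2 ≤ lb a := by
            rcases List.mem_cons.1 haB' with h1 | h1
            · rw [h1]
            · exact ((List.pairwise_cons.1 hsB.2).1 a h1).1.le
          linarith [hself.2]
        · by_cases hbA : b ∈ a :: a2 :: A'
          · have hbA' : b ∈ a2 :: A' := by
              rcases List.mem_cons.1 hbA with h1 | h1
              · exact absurd h1.symm hab
              · exact h1
            have hself := h.self b hbA (by simp)
            refine moveA a2 A' rfl ⟨?_, by linarith [hov.2]⟩ (Or.inr haB)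
            have : la a2 ≤ la b := by
              rcases List.mem_cons.1 hbA' with h1 | h1
              · rw [h1]
              · exact ((List.pairwise_cons.1 hsA.2).1 b h1).1.le
            linarith [hself.1]
          · rcases hor with h1 | h1
            · exact moveB b2 B' rfl h1 (Or.inr hbA)
            · exact moveA a2 A' rfl h1 (Or.inr haB)

end Pool.Agent.Lib.MP_eb03ca_co
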