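import Mathlib
import Pool.Agent.Lib.MP_eb03ca_co.Local
import Pool.Agent.Lib.MP_eb03ca_co.Zigzag
import Pool.Agent.Lib.MP_eb03ca_co.Sections

/-!
The chain of maximal sections at a given height (problem MP_eb03ca_co).
-/

set_option autoImplicit false

namespace Pool.Agent.Lib.MP_eb03ca_co

/-- The translate of `K` with centre `p` meets the line at height `y`. -/
def Al (K : Set (ℝ × ℝ)) (p : ℝ × ℝ) (y : ℝ) : Prop := (sec K (y - p.2)).Nonempty

/-- Left end of the section of `p + K` at height `y`. -/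
noncomputable def Lf (K : Set (ℝ × ℝ)) (p : ℝ × ℝ) (y : ℝ) : ℝ := p.1 + lo K (y - p.2)

/-- Right end of the section of `p + K` at height `y`. -/
noncomputable def Rf (K : Set (ℝ × ℝ)) (p : ℝ × ℝ) (y : ℝ) : ℝ := p.1 + hi K (y - p.2)

/-- The section of `p` is dominated by that of `q`. -/
def Dom (K : Set (ℝ × ℝ)) (y : ℝ) (p q : ℝ × ℝ) : Prop :=
  Al K p y ∧ Al K q y ∧ Lf K q y ≤ Lf K p y ∧ Rf K p y ≤ Rf K q y ∧
    (Lf K q y < Lf K p y ∨ Rf K p y < Rf K q y ∨ p.2 < q.2)

open Classical in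
/-- The centres with maximal section at height `y` which meet the open interval `(cL, cR)`. -/
noncomputable def Mx (K : Set (ℝ × ℝ)) (P : Finset (ℝ × ℝ)) (cL cR y : ℝ) : Finset (ℝ × ℝ) :=
  P.filter (fun p => Al K p y ∧ cL < Rf K p y ∧ Lf K p y < cR ∧ ∀ q ∈ P, ¬ Dom K y p q)

variable {K : Set (ℝ × ℝ)}

theorem mem_Mx {P : Finset (ℝ × ℝ)} {cL cR y : ℝ} {p : ℝ × ℝ} :
    p ∈ Mx K P cL cR y ↔
      p ∈ P ∧ Al K p y ∧ cL < Rf K p y ∧ Lf K p y < cR ∧ ∀ q ∈ P, ¬ Dom K y p q := by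
  classical
  unfold Mx
  rw [Finset.mem_filter]

theorem diffL_up (hK : IsCompact K) (hc : Convex ℝ K) {p q : ℝ × ℝ} {y y' : ℝ}
    (hpq : p.2 ≤ q.2) (hy : y ≤ y') (hq : Al K q y) (hp : Al K p y') :
    Lf K q y' - Lf K p y' ≤ Lf K q y - Lf K p y := by
  have := lo_incr hK hc (s := y - p.2) (t := y' - p.2) (δ := q.2 - p.2) (by linarith)
    (by linarith) (by rw [show y - p.2 - (q.2 - p.2) = y - q.2 by ring]; exact hq) hp
  rw [show y - p.2 - (q.2 - p.2) = y - q.2 by ring,
    show y' - p.2 - (q.2 - p.2) = y' - q.2 by ring] at this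
  unfold Lf; linarith

theorem diffR_up (hK : IsCompact K) (hc : Convex ℝ K) {p q : ℝ × ℝ} {y y' : ℝ}
    (hpq : p.2 ≤ q.2) (hy : y ≤ y') (hq : Al K q y) (hp : Al K p y') :
    Rf K q y - Rf K p y ≤ Rf K q y' - Rf K p y' := by
  have := hi_incr hK hc (s := y - p.2) (t := y' - p.2) (δ := q.2 - p.2) (by linarith)
    (by linarith) (by rw [show y - p.2 - (q.2 - p.2) = y - q.2 by ring]; exact hq) hp
  rw [show y - p.2 - (q.2 - p.2) = y - q.2 by ring,
    show y' - p.2 - (q.2 - p.2) = y' - q.2 by ring] at this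
  unfold Rf; linarith

theorem Al_mid (hc : Convex ℝ K) {p : ℝ × ℝ} {y y' u : ℝ} (h : Al K p y) (h' : Al K p y')
    (h1 : y ≤ u) (h2 : u ≤ y') : Al K p u :=
  sec_nonempty_mid hc h h' (by linarith) (by linarith)

/-- A higher centre is alive wherever both a lower centre is alive and it was alive before. -/
theorem Al_up (hc : Convex ℝ K) {p q : ℝ × ℝ} {y y' : ℝ}
    (hpq : p.2 ≤ q.2) (hy : y ≤ y') (hq : Al K q y) (hp : Al K p y') : Al K q y' :=
  sec_nonempty_mid hc hq hp (by linarith) (by linarith)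

theorem Al_down (hc : Convex ℝ K) {p q : ℝ × ℝ} {y y' : ℝ}
    (hpq : p.2 ≤ q.2) (hy : y ≤ y') (hq : Al K q y) (hp : Al K p y') : Al K p y :=
  sec_nonempty_mid hc hq hp (by linarith) (by linarith)

theorem Lf_le_Rf (hK : IsCompact K) {p : ℝ × ℝ} {y : ℝ} (h : Al K p y) : Lf K p y ≤ Rf K p y := by
  unfold Lf Rf
  have := lo_le_hi hK h
  linarith

theorem mem_iff_Lf (hK : IsCompact K) (hc : Convex ℝ K) {p : ℝ × ℝ} {x y : ℝ} (h : Al K p y)
    (h1 : Lf K p y ≤ x) (h2 : x ≤ Rf K p y) : ((x, y) : ℝ × ℝ) - p ∈ K := by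
  have : ((x, y) : ℝ × ℝ) - p = (x - p.1, y - p.2) := rfl
  rw [this]
  unfold Lf at h1
  unfold Rf at h2
  exact mem_of_lo_hi hK hc h (by linarith) (by linarith)

theorem Lf_le (hK : IsCompact K) {p : ℝ × ℝ} {x y : ℝ} (h : ((x, y) : ℝ × ℝ) - p ∈ K) :
    Al K p y ∧ Lf K p y ≤ x ∧ x ≤ Rf K p y := by
  have h' : (x - p.1, y - p.2) ∈ K := h
  refine ⟨⟨x - p.1, h'⟩, ?_, ?_⟩
  · unfold Lf; have := lo_le hK h'; linarith
  · unfold Rf; have := le_hi hK h'; linarith

/-- (4a) two distinct maximal sections are strictly ordered. -/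
theorem Mx_sorted {P : Finset (ℝ × ℝ)} {cL cR y : ℝ} {p q : ℝ × ℝ}
    (hp : p ∈ Mx K P cL cR y) (hq : q ∈ Mx K P cL cR y) (hne : p ≠ q) :
    (Lf K p y < Lf K q y ∧ Rf K p y < Rf K q y) ∨
      (Lf K q y < Lf K p y ∧ Rf K q y < Rf K p y) := by
  rw [mem_Mx] at hp hq
  obtain ⟨hpP, hpa, -, -, hpd⟩ := hp
  obtain ⟨hqP, hqa, -, -, hqd⟩ := hq
  have d1 := hpd q hqP
  have d2 := hqd p hpP
  unfold Dom at d1 d2
  rcases lt_trichotomy (Lf K p y) (Lf K q y) with h | h | h
  · left
    refine ⟨h, ?_⟩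
    by_contra hcon
    push Not at hcon
    exact d2 ⟨hqa, hpa, h.le, hcon, Or.inl h⟩
  · exfalso
    rcases lt_trichotomy (Rf K p y) (Rf K q y) with h' | h' | h'
    · exact d1 ⟨hpa, hqa, h.ge, h'.le, Or.inr (Or.inl h')⟩
    · rcases lt_trichotomy p.2 q.2 with h2 | h2 | h2
      · exact d1 ⟨hpa, hqa, h.ge, h'.le, Or.inr (Or.inr h2)⟩
      · apply hne
        unfold Lf at h
        rw [h2] at h
        exact Prod.ext (by linarith) h2
      · exact d2 ⟨hqa, hpa, h.le, h'.ge, Or.inr (Or.inr h2)⟩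
    · exact d2 ⟨hqa, hpa, h.le, h'.le, Or.inr (Or.inl h')⟩
  · right
    refine ⟨h, ?_⟩
    by_contra hcon
    push Not at hcon
    exact d1 ⟨hpa, hqa, h.le, hcon, Or.inl h⟩

/-- Every section lies in a maximal one. -/
theorem exists_max {P : Finset (ℝ × ℝ)} {y : ℝ} {p : ℝ × ℝ} (hp : p ∈ P) (ha : Al K p y) :
    ∃ q ∈ P, Al K q y ∧ Lf K q y ≤ Lf K p y ∧ Rf K p y ≤ Rf K q y ∧ ∀ r ∈ P, ¬ Dom K y q r := by
  classical
  set S := P.filter (fun q => Al K q y ∧ Lf K q y ≤ Lf K p y ∧ Rf K p y ≤ Rf K q y) with hS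
  have hne : S.Nonempty := ⟨p, by rw [hS, Finset.mem_filter]; exact ⟨hp, ha, le_refl _, le_refl _⟩⟩
  obtain ⟨q, hq, hmax⟩ := Finset.exists_max_image S
    (fun q => (toLex (Rf K q y - Lf K q y, q.2) : ℝ ×ₗ ℝ)) hne
  rw [hS, Finset.mem_filter] at hq
  refine ⟨q, hq.1, hq.2.1, hq.2.2.1, hq.2.2.2, fun r hr hdom => ?_⟩
  obtain ⟨-, hra, h1, h2, h3⟩ := hdom
  have hrS : r ∈ S := by
    rw [hS, Finset.mem_filter]
    exact ⟨hr, hra, h1.trans hq.2.2.1, hq.2.2.2.trans h2⟩
  have := hmax r hrS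
  rw [Prod.Lex.toLex_le_toLex] at this
  simp only at this
  rcases this with h | ⟨h, h'⟩
  · linarith
  · rcases h3 with h3 | h3 | h3 <;> linarith

/-- (4b) the maximal sections cover. -/
theorem Mx_cover (hK : IsCompact K) {P : Finset (ℝ × ℝ)} {cL cR y x : ℝ} (h1 : cL < x)
    (h2 : x < cR) (hcov : ∃ p ∈ P, ((x, y) : ℝ × ℝ) - p ∈ K) :
    ∃ q ∈ Mx K P cL cR y, Lf K q y ≤ x ∧ x ≤ Rf K q y := by
  obtain ⟨p, hp, hx⟩ := hcov
  obtain ⟨ha, hl, hr⟩ := Lf_le hK hx
  obtain ⟨q, hqP, hqa, hq1, hq2, hq3⟩ := exists_max hp ha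
  exact ⟨q, mem_Mx.2 ⟨hqP, hqa, by linarith, by linarith, hq3⟩, by linarith, by linarith⟩

/-- (4d) membership is order-connected in the height. -/
theorem Mx_conn (hK : IsCompact K) (hc : Convex ℝ K) {P : Finset (ℝ × ℝ)} {cL cR y1 y2 y3 : ℝ}
    (h12 : y1 ≤ y2) (h23 : y2 ≤ y3) {p : ℝ × ℝ} (h1 : p ∈ Mx K P cL cR y1)
    (h3 : p ∈ Mx K P cL cR y3) : p ∈ Mx K P cL cR y2 := by
  rw [mem_Mx] at h1 h3 ⊢
  obtain ⟨hP, a1, b1, c1, d1⟩ := h1
  obtain ⟨-, a3, b3, c3, d3⟩ := h3
  refine ⟨hP, Al_mid hc a1 a3 h12 h23, ?_, ?_, ?_⟩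
  · unfold Rf at b1 b3 ⊢
    have := hi_mid hK hc a1 a3 (u := y2 - p.2) (by linarith) (by linarith) (c := cL - p.1)
      (by linarith) (by linarith)
    linarith
  · unfold Lf at c1 c3 ⊢
    have := lo_mid hK hc a1 a3 (u := y2 - p.2) (by linarith) (by linarith) (c := cR - p.1)
      (by linarith) (by linarith)
    linarith
  · rintro q hq ⟨e1, e2, e3, e4, e5⟩
    rcases le_or_gt p.2 q.2 with h | h
    · -- the dominating centre is at least as high: dominated at `y3`
      have f1 := diffL_up hK hc h h23 e2 a3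
      have f2 := diffR_up hK hc h h23 e2 a3
      have f3 := Al_up hc h h23 e2 a3
      refine d3 q hq ⟨a3, f3, by linarith, by linarith, ?_⟩
      rcases lt_or_eq_of_le h with h' | h'
      · exact Or.inr (Or.inr h')
      · exfalso
        unfold Lf at e3 e5
        unfold Rf at e4 e5
        rw [h'] at e3 e4 e5
        rcases e5 with e5 | e5 | e5
        · linarith
        · linarith
        · exact lt_irrefl _ e5
    · -- the dominating centre is lower: dominated at `y1`
      have f1 := diffL_up hK hc h.le h12 a1 e2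
      have f2 := diffR_up hK hc h.le h12 a1 e2
      have f3 := Al_down hc h.le h12 a1 e2
      refine d1 q hq ⟨a1, f3, by linarith, by linarith, ?_⟩
      rcases e5 with e5 | e5 | e5
      · left; linarith
      · right; left; linarith
      · linarith

/-- (4e) the order of common elements is the same at all heights. -/
theorem Mx_cons (hK : IsCompact K) (hc : Convex ℝ K) {P : Finset (ℝ × ℝ)} {cL cR y y' : ℝ}
    (hy : y ≤ y') {p q : ℝ × ℝ} (hp : p ∈ Mx K P cL cR y) (hp' : p ∈ Mx K P cL cR y')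
    (hq : q ∈ Mx K P cL cR y) (hq' : q ∈ Mx K P cL cR y') (hlt : Lf K p y < Lf K q y) :
    Lf K p y' < Lf K q y' := by
  have hne : p ≠ q := fun h => by rw [h] at hlt; exact lt_irrefl _ hlt
  have s1 : Rf K p y < Rf K q y := by
    rcases Mx_sorted hp hq hne with h | h
    · exact h.2
    · linarith [h.1]
  rcases Mx_sorted hp' hq' hne with h | h
  · exact h.1
  · exfalso
    have ap := (mem_Mx.1 hp).2.1
    have ap' := (mem_Mx.1 hp').2.1
    have aq := (mem_Mx.1 hq).2.1
    have aq' := (mem_Mx.1 hq').2.1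
    rcases le_total p.2 q.2 with h2 | h2
    · have := diffR_up hK hc h2 hy aq ap'
      linarith [h.2]
    · have := diffL_up hK hc h2 hy ap aq'
      linarith [h.1]

/-- Sorting a finite set by an injective real function. -/
theorem exists_sorted_list {α : Type*} [DecidableEq α] (f : α → ℝ) (S : Finset α) :
    Set.InjOn f S → ∃ l : List α, (∀ x, x ∈ l ↔ x ∈ S) ∧ l.Nodup ∧
      l.Pairwise (fun a b => f a < f b) := by
  refine Finset.induction_on_max_value f (motive := fun S => Set.InjOn f S → ∃ l : List α,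
    (∀ x, x ∈ l ↔ x ∈ S) ∧ l.Nodup ∧ l.Pairwise (fun a b => f a < f b)) S ?_ ?_
  · intro _
    exact ⟨[], by simp, by simp, by simp⟩
  · intro a s has hmax ih hinj
    obtain ⟨l, hl1, hl2, hl3⟩ := ih (hinj.mono (by intro x hx; simp only [Finset.coe_insert]; exact Or.inr hx))
    refine ⟨l ++ [a], ?_, ?_, ?_⟩
    · intro x
      simp [hl1 x]
      tauto
    · rw [List.nodup_append]
      refine ⟨hl2, by simp, ?_⟩
      intro x hx y hy
      simp only [List.mem_singleton] at hy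
      subst hy
      intro hxa
      subst hxa
      exact has ((hl1 _).1 hx)
    · rw [List.pairwise_append]
      refine ⟨hl3, by simp, ?_⟩
      intro x hx y hy
      simp only [List.mem_singleton] at hy
      subst hy
      have hxs := (hl1 x).1 hx
      refine lt_of_le_of_ne (hmax x hxs) ?_
      intro he
      have := hinj (by simp only [Finset.coe_insert]; exact Or.inr hxs)
        (by simp only [Finset.coe_insert]; exact Or.inl rfl) he
      subst this
      exact has hxs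

/-- The sorted chain at height `y`, with all its properties. -/
structure IsChainAt (K : Set (ℝ × ℝ)) (P : Finset (ℝ × ℝ)) (cL cR y : ℝ) (l : List (ℝ × ℝ)) :
    Prop where
  ne : l ≠ []
  mem : ∀ x, x ∈ l ↔ x ∈ Mx K P cL cR y
  nodup : l.Nodup
  sorted : l.Pairwise (fun a b => Lf K a y < Lf K b y ∧ Rf K a y < Rf K b y)
  chain : l.IsChain (fun a b => Lf K b y ≤ Rf K a y)
  head : ∀ h : l ≠ [], Lf K (l.head h) y ≤ cL
  last : ∀ h : l ≠ [], cR ≤ Rf K (l.getLast h) y

theorem exists_chain (hK : IsCompact K) {P : Finset (ℝ × ℝ)} {cL cR y : ℝ}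
    (hlr : cL < cR) (hcov : ∀ x, cL < x → x < cR → ∃ p ∈ P, ((x, y) : ℝ × ℝ) - p ∈ K) :
    ∃ l, IsChainAt K P cL cR y l := by
  classical
  have hinj : Set.InjOn (fun p => Lf K p y) (Mx K P cL cR y) := by
    intro p hp q hq he
    by_contra hne
    have he' : Lf K p y = Lf K q y := he
    rcases Mx_sorted hp hq hne with h | h <;> linarith [h.1]
  obtain ⟨l, hmem, hnd, hpw⟩ := exists_sorted_list (fun p => Lf K p y) (Mx K P cL cR y) hinj
  have hcov' : ∀ x, cL < x → x < cR → ∃ q ∈ l, Lf K q y ≤ x ∧ x ≤ Rf K q y := by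
    intro x h1 h2
    obtain ⟨q, hq, hq1, hq2⟩ := Mx_cover hK h1 h2 (hcov x h1 h2)
    exact ⟨q, (hmem q).2 hq, hq1, hq2⟩
  have hsorted : l.Pairwise (fun a b => Lf K a y < Lf K b y ∧ Rf K a y < Rf K b y) := by
    refine hpw.imp_of_mem ?_
    intro a b ha hb hab
    have hab' : Lf K a y < Lf K b y := hab
    have hne : a ≠ b := fun h => by rw [h] at hab'; exact lt_irrefl _ hab'
    rcases Mx_sorted ((hmem a).1 ha) ((hmem b).1 hb) hne with h | h
    · exact h
    · linarith [h.1]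
  refine ⟨l, ?_, hmem, hnd, hsorted, ?_, ?_, ?_⟩
  · intro hl
    obtain ⟨q, hq, -⟩ := hcov' ((cL + cR) / 2) (by linarith) (by linarith)
    rw [hl] at hq
    simp at hq
  · rw [List.isChain_iff_forall_rel_of_append_cons_cons]
    intro a b l1 l2 hl
    by_contra hcon
    push Not at hcon
    have haM := mem_Mx.1 ((hmem a).1 (by rw [hl]; simp))
    have hbM := mem_Mx.1 ((hmem b).1 (by rw [hl]; simp))
    obtain ⟨x, hx1, hx2⟩ := exists_between hcon
    obtain ⟨q, hq, hq1, hq2⟩ := hcov' x (by linarith [haM.2.2.1]) (by linarith [hbM.2.2.2.1])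
    rw [hl] at hq hsorted
    rw [List.pairwise_append] at hsorted
    obtain ⟨-, hs2, hs3⟩ := hsorted
    rw [List.mem_append] at hq
    rcases hq with hq | hq
    · have := (hs3 q hq a (by simp)).2
      linarith
    · rw [List.pairwise_cons] at hs2
      obtain ⟨hs4, hs5⟩ := hs2
      rw [List.pairwise_cons] at hs5
      rcases List.mem_cons.1 hq with h | h
      · rw [h] at hq2; linarith
      · rcases List.mem_cons.1 h with h | h
        · rw [h] at hq1; linarith
        · have := (hs5.1 q h).1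
          linarith
  · intro hne
    by_contra hcon
    push Not at hcon
    obtain ⟨x, hx1, hx2⟩ := exists_between (lt_min hcon hlr)
    obtain ⟨q, hq, hq1, hq2⟩ := hcov' x hx1 (by linarith [min_le_right (Lf K (l.head hne) y) cR])
    have hq' := hq
    rw [← List.cons_head_tail hne] at hq' hsorted
    rw [List.pairwise_cons] at hsorted
    have hle := min_le_left (Lf K (l.head hne) y) cR
    rcases List.mem_cons.1 hq' with h | h
    · rw [h] at hq1; linarith
    · have := (hsorted.1 q h).1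
      linarith
  · intro hne
    by_contra hcon
    push Not at hcon
    obtain ⟨x, hx1, hx2⟩ := exists_between (max_lt hcon hlr)
    obtain ⟨q, hq, hq1, hq2⟩ := hcov' x
      (by linarith [le_max_right (Rf K (l.getLast hne) y) cL]) hx2
    have hq' := hq
    rw [← List.dropLast_append_getLast hne] at hq' hsorted
    rw [List.pairwise_append] at hsorted
    have hle := le_max_left (Rf K (l.getLast hne) y) cL
    rcases List.mem_append.1 hq' with h | h
    · have := (hsorted.2.2 q h _ (List.mem_singleton.2 rfl)).2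
      linarith
    · rw [List.mem_singleton] at h
      rw [h] at hq2; linarith

end Pool.Agent.Lib.MP_eb03ca_co
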