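import Mathlib
import Pool.Agent.Lib.MP_eb03ca_co.Chain

/-!
The sweep-line inequality (problem MP_eb03ca_co).
-/

set_option autoImplicit false

namespace Pool.Agent.Lib.MP_eb03ca_co

variable {K Kp : Set (ℝ × ℝ)}

/-- `Kp` contains the `ε`-neighbourhood of `K` in the maximum norm. -/
def Thick (K Kp : Set (ℝ × ℝ)) (ε : ℝ) : Prop :=
  ∀ z ∈ K, ∀ u : ℝ × ℝ, |u.1| ≤ ε → |u.2| ≤ ε → z + u ∈ Kp

/-- Coordinates of points of `Kp` are bounded by `B`. -/
def BdBy (Kp : Set (ℝ × ℝ)) (B : ℝ) : Prop := ∀ z ∈ Kp, |z.1| ≤ B ∧ |z.2| ≤ B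

theorem Thick.subset {ε : ℝ} (h : Thick K Kp ε) (hε : 0 ≤ ε) {z : ℝ × ℝ} (hz : z ∈ K) :
    z ∈ Kp := by
  have := h z hz 0 (by simpa using hε) (by simpa using hε)
  simpa using this

theorem triple_point (hK : IsCompact K) (hc : Convex ℝ K) {ε : ℝ} (hε : 0 ≤ ε)
    (ht : Thick K Kp ε) {a a' b : ℝ × ℝ} {y y' : ℝ} (hyy : |y - y'| ≤ ε)
    (ha : Al K a y) (ha' : Al K a' y) (hb : Al K b y')
    (h1 : Lf K a y ≤ Lf K a' y) (h2 : Rf K a y ≤ Rf K a' y) (h3 : Lf K a' y ≤ Rf K a y)
    (h4 : Lf K b y' ≤ Rf K a y + ε) (h5 : Lf K a' y ≤ Rf K b y' + ε) :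
    ∃ z, z - a ∈ Kp ∧ z - a' ∈ Kp ∧ z - b ∈ Kp := by
  have hab := Lf_le_Rf hK hb
  set x := max (Lf K a' y) (Lf K b y' - ε) with hx
  have x1 : Lf K a' y ≤ x := le_max_left _ _
  have x2 : Lf K b y' - ε ≤ x := le_max_right _ _
  have x3 : x ≤ Rf K a y := max_le h3 (by linarith)
  have x4 : x ≤ Rf K b y' + ε := max_le h5 (by linarith)
  refine ⟨(x, y), ?_, ?_, ?_⟩
  · exact ht.subset hε (mem_iff_Lf hK hc ha (by linarith) x3)
  · exact ht.subset hε (mem_iff_Lf hK hc ha' x1 (by linarith))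
  · set x'' := max (Lf K b y') (min x (Rf K b y')) with hx''
    have u1 : Lf K b y' ≤ x'' := le_max_left _ _
    have u2 : x'' ≤ Rf K b y' := max_le hab (min_le_right _ _)
    have hm := mem_iff_Lf hK hc hb u1 u2
    have hd : |x - x''| ≤ ε := by
      rw [abs_le]
      constructor
      · have : x'' ≤ x + ε := max_le (by linarith) ((min_le_left _ _).trans (by linarith))
        linarith
      · have : x - ε ≤ x'' := by
          have h6 : min x (Rf K b y') ≤ x'' := le_max_right _ _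
          have h7 : x - ε ≤ min x (Rf K b y') := le_min (by linarith) (by linarith)
          linarith
        linarith
    have := ht _ hm (x - x'', y - y') hd hyy
    convert this using 1
    ext
    · simp
    · simp

/-- The comparison hypotheses hold for chains at close heights. -/
theorem hyp_of_chains (hK : IsCompact K) (hc : Convex ℝ K) {ε R : ℝ} (hε : 0 ≤ ε)
    (ht : Thick K Kp ε) (hR : RowBound Kp R) {P : Finset (ℝ × ℝ)} {cL cR y y' : ℝ}
    (hy : y ≤ y') (hyy : |y - y'| ≤ ε)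
    (hself : ∀ s s' : ℝ, (sec K s).Nonempty → (sec K s').Nonempty → |s - s'| ≤ |y - y'| →
      lo K s' ≤ hi K s + ε)
    {l l' : List (ℝ × ℝ)} (hl : IsChainAt K P cL cR y l) (hl' : IsChainAt K P cL cR y' l') :
    Hyp (wt Kp) (6 * R) ε (fun p => Lf K p y) (fun p => Rf K p y)
      (fun p => Lf K p y') (fun p => Rf K p y') l l' where
  sA := hl.sorted
  sB := hl'.sorted
  oA := hl.chain
  oB := hl'.chain
  self := by
    intro k hk hk'
    have a1 := (mem_Mx.1 ((hl.mem k).1 hk)).2.1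
    have a2 := (mem_Mx.1 ((hl'.mem k).1 hk')).2.1
    have e1 := hself (y' - k.2) (y - k.2) a2 a1 (by
      rw [show y' - k.2 - (y - k.2) = -(y - y') by ring, abs_neg])
    have e2 := hself (y - k.2) (y' - k.2) a1 a2 (by
      rw [show y - k.2 - (y' - k.2) = y - y' by ring])
    constructor
    · simp only [Lf, Rf]; linarith
    · simp only [Lf, Rf]; linarith
  cons := by
    intro k hk hk' j hj hj'
    have k1 := (hl.mem k).1 hk
    have k2 := (hl'.mem k).1 hk'
    have j1 := (hl.mem j).1 hj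
    have j2 := (hl'.mem j).1 hj'
    constructor
    · intro h
      exact Mx_cons hK hc hy k1 k2 j1 j2 h
    · intro h
      have hne : k ≠ j := fun h' => by rw [h'] at h; exact lt_irrefl _ h
      rcases Mx_sorted k1 j1 hne with h' | h'
      · exact h'.1
      · have := Mx_cons hK hc hy j1 j2 k1 k2 h'.1
        linarith
  lastA := by
    intro h b hb
    have := (mem_Mx.1 ((hl'.mem b).1 hb)).2.2.2.1
    have h2 := hl.last h
    linarith
  lastB := by
    intro h a ha
    have := (mem_Mx.1 ((hl.mem a).1 ha)).2.2.2.1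
    have h2 := hl'.last h
    linarith
  tA := by
    intro a ha a' ha' b hb h1 h2 h3 h4 h5
    have q1 := (mem_Mx.1 ((hl.mem a).1 ha)).2.1
    have q2 := (mem_Mx.1 ((hl.mem a').1 ha')).2.1
    have q3 := (mem_Mx.1 ((hl'.mem b).1 hb)).2.1
    obtain ⟨z, z1, z2, z3⟩ := triple_point hK hc hε ht hyy q1 q2 q3 h1.le h2.le h3 h4.2 h5.1
    exact wt_triple hR z1 z2 z3
  tB := by
    intro b hb b' hb' a ha h1 h2 h3 h4 h5
    have q1 := (mem_Mx.1 ((hl'.mem b).1 hb)).2.1
    have q2 := (mem_Mx.1 ((hl'.mem b').1 hb')).2.1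
    have q3 := (mem_Mx.1 ((hl.mem a).1 ha)).2.1
    obtain ⟨z, z1, z2, z3⟩ := triple_point hK hc hε ht (by rw [abs_sub_comm]; exact hyy)
      q1 q2 q3 h1.le h2.le h3 h4.2 h5.1
    exact wt_triple hR z1 z2 z3

/-- The potential of a chain between two vertical walls. -/
noncomputable def Om (Kp : Set (ℝ × ℝ)) (cL cR : ℝ) (l : List (ℝ × ℝ)) : ℝ :=
  12 * (l.headD 0).2 * ((l.headD 0).1 - cL) + wsum (wt Kp) l
    + 12 * (l.getLastD 0).2 * (cR - (l.getLastD 0).1)

theorem ecount_eq_card {α : Type*} [DecidableEq α] {l l' : List α} (h : l.Nodup) (h' : l'.Nodup)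
    {S S' : Finset α} (hS : ∀ x, x ∈ l ↔ x ∈ S) (hS' : ∀ x, x ∈ l' ↔ x ∈ S') :
    ecount l l' = (symmDiff S S').card := by
  have key : ∀ (l l' : List α) (S S' : Finset α), l.Nodup → (∀ x, x ∈ l ↔ x ∈ S) →
      (∀ x, x ∈ l' ↔ x ∈ S') → l.countP (fun x => x ∉ l') = (S \ S').card := by
    intro l l' S S' h hS hS'
    rw [List.countP_eq_length_filter, ← List.toFinset_card_of_nodup (h.filter _)]
    congr 1
    ext x
    simp [hS, hS']
  unfold ecount
  rw [key l l' S S' h hS hS', key l' l S' S h' hS' hS]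
  have : symmDiff S S' = (S \ S') ∪ (S' \ S) := rfl
  rw [this, Finset.card_union_of_disjoint]
  rw [Finset.disjoint_left]
  intro x hx hx'
  rw [Finset.mem_sdiff] at hx hx'
  exact hx.2 hx'.1

/-- Centres of translates meeting a vertical line or a horizontal line are close to it. -/
theorem near_of_mem {B : ℝ} (hB : BdBy K B) {p : ℝ × ℝ} {x y : ℝ}
    (h : ((x, y) : ℝ × ℝ) - p ∈ K) : |x - p.1| ≤ B ∧ |y - p.2| ≤ B := hB _ h

theorem wall_bound {B cL : ℝ} (hB : BdBy Kp B) (hB1 : 1 ≤ B) {a b : ℝ × ℝ} {y y' : ℝ}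
    (hyy : |y - y'| ≤ 1) (ha : |cL - a.1| ≤ B ∧ |y - a.2| ≤ B) (hb : |cL - b.1| ≤ B ∧ |y' - b.2| ≤ B) :
    |12 * a.2 * (a.1 - cL) - 12 * b.2 * (b.1 - cL) + wt Kp a b| ≤ 60 * B ^ 2 := by
  have hm := abs_mu_le hB (by linarith) (b - a)
  have e : 12 * a.2 * (a.1 - cL) - 12 * b.2 * (b.1 - cL) + wt Kp a b
      = mu Kp (b - a) + 6 * ((a.2 - b.2) * ((a.1 - cL) + (b.1 - cL))) := by
    unfold wt; ring
  rw [e]
  have h1 : |a.2 - b.2| ≤ 3 * B := by
    have : a.2 - b.2 = -(y - a.2) + (y - y') + (y' - b.2) := by ring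
    rw [this]
    refine (abs_add_le _ _).trans ?_
    have := abs_add_le (-(y - a.2)) (y - y')
    rw [abs_neg] at this
    linarith [ha.2, hb.2]
  have h2 : |(a.1 - cL) + (b.1 - cL)| ≤ 2 * B := by
    refine (abs_add_le _ _).trans ?_
    rw [abs_sub_comm a.1 cL, abs_sub_comm b.1 cL]
    linarith [ha.1, hb.1]
  have h3 : |(a.2 - b.2) * ((a.1 - cL) + (b.1 - cL))| ≤ 3 * B * (2 * B) := by
    rw [abs_mul]
    exact mul_le_mul h1 h2 (abs_nonneg _) (by linarith)
  refine (abs_add_le _ _).trans ?_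
  rw [abs_mul 6]
  have : |(6 : ℝ)| = 6 := by norm_num
  rw [this]
  nlinarith

theorem wall_bound' {B cR : ℝ} (hB : BdBy Kp B) (hB1 : 1 ≤ B) {a b : ℝ × ℝ} {y y' : ℝ}
    (hyy : |y - y'| ≤ 1) (ha : |cR - a.1| ≤ B ∧ |y - a.2| ≤ B) (hb : |cR - b.1| ≤ B ∧ |y' - b.2| ≤ B) :
    |12 * a.2 * (cR - a.1) - 12 * b.2 * (cR - b.1) - wt Kp a b| ≤ 60 * B ^ 2 := by
  have := wall_bound hB hB1 hyy ha hb
  have e : 12 * a.2 * (cR - a.1) - 12 * b.2 * (cR - b.1) - wt Kp a b
      = -(12 * a.2 * (a.1 - cR) - 12 * b.2 * (b.1 - cR) + wt Kp a b) := by ring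
  rw [e, abs_neg]; exact this

/-- Comparison of the potentials of two chains at close heights. -/
theorem Om_compare (hK : IsCompact K) (hc : Convex ℝ K) {ε R B : ℝ} (hε : 0 ≤ ε) (hε1 : ε ≤ 1)
    (hR0 : 0 ≤ R)
    (ht : Thick K Kp ε) (hR : RowBound Kp R) (hB : BdBy Kp B) (hB1 : 1 ≤ B)
    {P : Finset (ℝ × ℝ)} {cL cR y y' : ℝ}
    (hy : y ≤ y') (hyy : |y - y'| ≤ ε)
    (hself : ∀ s s' : ℝ, (sec K s).Nonempty → (sec K s').Nonempty → |s - s'| ≤ |y - y'| →
      lo K s' ≤ hi K s + ε)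
    {l l' : List (ℝ × ℝ)} (hl : IsChainAt K P cL cR y l) (hl' : IsChainAt K P cL cR y' l') :
    |Om Kp cL cR l' - Om Kp cL cR l| ≤
      6 * R * ((symmDiff (Mx K P cL cR y) (Mx K P cL cR y')).card : ℝ)
      + 60 * B ^ 2 * (((symmDiff (Mx K P cL cR y) (Mx K P cL cR y')).filter
          (fun p => |cL - p.1| ≤ B)).card : ℝ)
      + 60 * B ^ 2 * (((symmDiff (Mx K P cL cR y) (Mx K P cL cR y')).filter
          (fun p => |cR - p.1| ≤ B)).card : ℝ) := by
  classical
  have hH := hyp_of_chains hK hc hε ht hR hy hyy hself hl hl'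
  obtain ⟨a, A, rfl⟩ : ∃ a A, l = a :: A := List.exists_cons_of_ne_nil hl.ne
  obtain ⟨b, A', rfl⟩ : ∃ b A', l' = b :: A' := List.exists_cons_of_ne_nil hl'.ne
  have haM := mem_Mx.1 ((hl.mem a).1 (by simp))
  have hbM := mem_Mx.1 ((hl'.mem b).1 (by simp))
  have hah : Lf K a y ≤ cL := hl.head (by simp)
  have hbh : Lf K b y' ≤ cL := hl'.head (by simp)
  have hov : Ov ε (fun p => Lf K p y) (fun p => Rf K p y)
      (fun p => Lf K p y') (fun p => Rf K p y') a b :=
    ⟨by simp only; linarith [hbM.2.2.1], by simp only; linarith [haM.2.2.1]⟩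
  have hz := zigzag (wt_anti Kp) (wt_self Kp) (C0 := 6 * R) (by linarith) hε _ _ _ _ _ a A b A' rfl
    hH hov
  have hz' : |GG (wt Kp) a A b A'| ≤ 6 * R * (ecount (a :: A) (b :: A') : ℝ) := by
    refine hz.trans ?_
    unfold bnd
    apply mul_le_mul_of_nonneg_left _ (by linarith)
    split_ifs <;> linarith
  rw [ecount_eq_card hl.nodup hl'.nodup hl.mem hl'.mem] at hz'
  set D := symmDiff (Mx K P cL cR y) (Mx K P cL cR y') with hD
  set la := (a :: A).getLast (by simp) with hla
  set lb := (b :: A').getLast (by simp) with hlb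
  have hlaM := mem_Mx.1 ((hl.mem la).1 (List.getLast_mem _))
  have hlbM := mem_Mx.1 ((hl'.mem lb).1 (List.getLast_mem _))
  have hlaR : cR ≤ Rf K la y := hl.last (by simp)
  have hlbR : cR ≤ Rf K lb y' := hl'.last (by simp)
  have hBK : BdBy K B := fun z hz => hB z (ht.subset hε hz)
  have na : |cL - a.1| ≤ B ∧ |y - a.2| ≤ B :=
    near_of_mem hBK (mem_iff_Lf hK hc haM.2.1 hah haM.2.2.1.le)
  have nb : |cL - b.1| ≤ B ∧ |y' - b.2| ≤ B :=
    near_of_mem hBK (mem_iff_Lf hK hc hbM.2.1 hbh hbM.2.2.1.le)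
  have nla : |cR - la.1| ≤ B ∧ |y - la.2| ≤ B :=
    near_of_mem hBK (mem_iff_Lf hK hc hlaM.2.1 hlaM.2.2.2.1.le hlaR)
  have nlb : |cR - lb.1| ≤ B ∧ |y' - lb.2| ≤ B :=
    near_of_mem hBK (mem_iff_Lf hK hc hlbM.2.1 hlbM.2.2.2.1.le hlbR)
  have hyy1 : |y - y'| ≤ 1 := hyy.trans hε1
  have hB2 : 0 ≤ 60 * B ^ 2 := by positivity
  -- left wall
  have wl : |12 * a.2 * (a.1 - cL) - 12 * b.2 * (b.1 - cL) + wt Kp a b|
      ≤ 60 * B ^ 2 * ((D.filter (fun p => |cL - p.1| ≤ B)).card : ℝ) := by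
    by_cases hab : a = b
    · subst hab
      rw [wt_self]
      simp only [sub_self, add_zero, abs_zero]
      positivity
    · have h1 := wall_bound hB hB1 hyy1 na nb
      have h2 : 1 ≤ (D.filter (fun p => |cL - p.1| ≤ B)).card := by
        rw [Nat.one_le_iff_ne_zero, Finset.card_ne_zero]
        by_cases haB : a ∈ b :: A'
        · -- then `b` is not in the first chain
          refine ⟨b, ?_⟩
          rw [Finset.mem_filter, hD, Finset.mem_symmDiff]
          refine ⟨Or.inr ⟨(hl'.mem b).1 (by simp), ?_⟩, nb.1⟩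
          rw [← hl.mem b]
          intro hbA
          have hbA' : b ∈ A := by
            rcases List.mem_cons.1 hbA with h | h
            · exact absurd h.symm hab
            · exact h
          have haB' : a ∈ A' := by
            rcases List.mem_cons.1 haB with h | h
            · exact absurd h hab
            · exact h
          have q1 := ((List.pairwise_cons.1 hl.sorted).1 b hbA').1
          have q2 := ((List.pairwise_cons.1 hl'.sorted).1 a haB').1
          have q3 := (hH.cons a (by simp) haB b hbA (by simp)).1 q1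
          linarith
        · refine ⟨a, ?_⟩
          rw [Finset.mem_filter, hD, Finset.mem_symmDiff]
          exact ⟨Or.inl ⟨(hl.mem a).1 (by simp), fun h => haB ((hl'.mem a).2 h)⟩, na.1⟩
      have h3 : (1 : ℝ) ≤ ((D.filter (fun p => |cL - p.1| ≤ B)).card : ℝ) := by exact_mod_cast h2
      nlinarith
  -- right wall
  have wr : |12 * la.2 * (cR - la.1) - 12 * lb.2 * (cR - lb.1) - wt Kp la lb|
      ≤ 60 * B ^ 2 * ((D.filter (fun p => |cR - p.1| ≤ B)).card : ℝ) := by
    by_cases hab : la = lb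
    · rw [hab, wt_self]
      simp only [sub_self, abs_zero]
      positivity
    · have h1 := wall_bound' hB hB1 hyy1 nla nlb
      have h2 : 1 ≤ (D.filter (fun p => |cR - p.1| ≤ B)).card := by
        rw [Nat.one_le_iff_ne_zero, Finset.card_ne_zero]
        by_cases haB : la ∈ b :: A'
        · refine ⟨lb, ?_⟩
          rw [Finset.mem_filter, hD, Finset.mem_symmDiff]
          refine ⟨Or.inr ⟨(hl'.mem lb).1 (List.getLast_mem _), ?_⟩, nlb.1⟩
          rw [← hl.mem lb]
          intro hbA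
          -- `lb` is before `la` in the first chain, `la` before `lb` in the second
          have q1 : Lf K lb y < Lf K la y := by
            have hs := hl.sorted
            rw [← List.dropLast_append_getLast (l := a :: A) (by simp), List.pairwise_append] at hs
            have hm := hbA
            rw [← List.dropLast_append_getLast (l := a :: A) (by simp)] at hm
            rcases List.mem_append.1 hm with h | h
            · exact (hs.2.2 lb h _ (List.mem_singleton.2 rfl)).1
            · rw [List.mem_singleton] at h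
              exact absurd h.symm hab
          have q2 : Lf K la y' < Lf K lb y' := by
            have hs := hl'.sorted
            rw [← List.dropLast_append_getLast (l := b :: A') (by simp), List.pairwise_append] at hs
            have hm := haB
            rw [← List.dropLast_append_getLast (l := b :: A') (by simp)] at hm
            rcases List.mem_append.1 hm with h | h
            · exact (hs.2.2 la h _ (List.mem_singleton.2 rfl)).1
            · rw [List.mem_singleton] at h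
              exact absurd h hab
          have q3 := (hH.cons lb hbA (List.getLast_mem _) la (List.getLast_mem _) haB).1 q1
          linarith
        · refine ⟨la, ?_⟩
          rw [Finset.mem_filter, hD, Finset.mem_symmDiff]
          exact ⟨Or.inl ⟨(hl.mem la).1 (List.getLast_mem _), fun h => haB ((hl'.mem la).2 h)⟩,
            nla.1⟩
      have h3 : (1 : ℝ) ≤ ((D.filter (fun p => |cR - p.1| ≤ B)).card : ℝ) := by exact_mod_cast h2
      nlinarith
  have hsum : Om Kp cL cR (a :: A) - Om Kp cL cR (b :: A')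
      = (12 * a.2 * (a.1 - cL) - 12 * b.2 * (b.1 - cL) + wt Kp a b) + GG (wt Kp) a A b A'
        + (12 * la.2 * (cR - la.1) - 12 * lb.2 * (cR - lb.1) - wt Kp la lb) := by
    unfold Om GG
    have g1 : (a :: A).getLastD 0 = la := by
      rw [hla, List.getLastD_eq_getLast?, List.getLast?_eq_getLast_of_ne_nil (by simp)]; rfl
    have g2 : (b :: A').getLastD 0 = lb := by
      rw [hlb, List.getLastD_eq_getLast?, List.getLast?_eq_getLast_of_ne_nil (by simp)]; rfl
    rw [g1, g2]
    simp only [List.headD_cons]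
    ring
  rw [abs_sub_comm, hsum]
  refine (abs_add_le _ _).trans ?_
  have := abs_add_le (12 * a.2 * (a.1 - cL) - 12 * b.2 * (b.1 - cL) + wt Kp a b)
    (GG (wt Kp) a A b A')
  linarith

end Pool.Agent.Lib.MP_eb03ca_co
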