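import Mathlib
import Pool.Agent.Lib.MP_eb03ca_co.Sweep

/-!
Summation over the sweep (problem MP_eb03ca_co).
-/

set_option autoImplicit false

namespace Pool.Agent.Lib.MP_eb03ca_co

variable {K Kp : Set (ℝ × ℝ)}

theorem wt_estimate {B : ℝ} (hB : BdBy Kp B) (hB1 : 1 ≤ B) {a b : ℝ × ℝ} {x y : ℝ}
    (ha : |x - a.1| ≤ B ∧ |y - a.2| ≤ B) (hb : |x - b.1| ≤ B ∧ |y - b.2| ≤ B) :
    |wt Kp a b - 12 * y * (b.1 - a.1)| ≤ 60 * B ^ 2 := by
  have hm := abs_mu_le hB (by linarith) (b - a)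
  have e : wt Kp a b - 12 * y * (b.1 - a.1)
      = mu Kp (b - a) + 6 * (((a.2 - y) + (b.2 - y)) * (b.1 - a.1)) := by
    unfold wt; ring
  rw [e]
  have h1 : |(a.2 - y) + (b.2 - y)| ≤ 2 * B := by
    refine (abs_add_le _ _).trans ?_
    rw [abs_sub_comm a.2 y, abs_sub_comm b.2 y]
    linarith [ha.2, hb.2]
  have h2 : |b.1 - a.1| ≤ 2 * B := by
    have : b.1 - a.1 = (x - a.1) - (x - b.1) := by ring
    rw [this]
    refine (abs_sub _ _).trans ?_
    linarith [ha.1, hb.1]
  have h3 : |((a.2 - y) + (b.2 - y)) * (b.1 - a.1)| ≤ 2 * B * (2 * B) := by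
    rw [abs_mul]
    exact mul_le_mul h1 h2 (abs_nonneg _) (by linarith)
  refine (abs_add_le _ _).trans ?_
  rw [abs_mul 6]
  have : |(6 : ℝ)| = 6 := by norm_num
  rw [this]
  nlinarith

theorem wsum_estimate (hK : IsCompact K) (hc : Convex ℝ K) {B : ℝ} (hB : BdBy Kp B)
    (hBK : BdBy K B) (hB1 : 1 ≤ B) {y : ℝ} (A : List (ℝ × ℝ)) :
    ∀ a : ℝ × ℝ, (∀ p ∈ a :: A, Al K p y) →
      (a :: A).Pairwise (fun a b => Lf K a y < Lf K b y ∧ Rf K a y < Rf K b y) →
      (a :: A).IsChain (fun a b => Lf K b y ≤ Rf K a y) →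
      |wsum (wt Kp) (a :: A) - 12 * y * (((a :: A).getLast (by simp)).1 - a.1)|
        ≤ 60 * B ^ 2 * (A.length : ℝ) := by
  induction A with
  | nil =>
    intro a _ _ _
    simp [wsum]
  | cons b A ih =>
    intro a hal hs hch
    have hs' := List.pairwise_cons.1 hs
    have hab := hs'.1 b (by simp)
    have hch' : Lf K b y ≤ Rf K a y := by
      simp only [List.isChain_cons_cons] at hch; exact hch.1
    have ih' := ih b (fun p hp => hal p (List.mem_cons_of_mem _ hp)) hs'.2 hch.tail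
    have haa := hal a (by simp)
    have hbb := hal b (by simp)
    have n1 := near_of_mem hBK (mem_iff_Lf hK hc haa (x := Lf K b y) hab.1.le hch')
    have n2 := near_of_mem hBK (mem_iff_Lf hK hc hbb (x := Lf K b y) le_rfl (Lf_le_Rf hK hbb))
    have hw := wt_estimate hB hB1 n1 n2
    have e : wsum (wt Kp) (a :: b :: A)
        - 12 * y * (((a :: b :: A).getLast (by simp)).1 - a.1)
        = (wt Kp a b - 12 * y * (b.1 - a.1))
          + (wsum (wt Kp) (b :: A) - 12 * y * (((b :: A).getLast (by simp)).1 - b.1)) := by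
      rw [List.getLast_cons_cons]
      simp only [wsum]
      ring
    rw [e]
    refine (abs_add_le _ _).trans ?_
    simp only [List.length_cons]
    push_cast
    nlinarith

theorem Om_estimate (hK : IsCompact K) (hc : Convex ℝ K) {B : ℝ} (hB : BdBy Kp B)
    (hBK : BdBy K B) (hB1 : 1 ≤ B) {P : Finset (ℝ × ℝ)} {cL cR y : ℝ} {l : List (ℝ × ℝ)}
    (hl : IsChainAt K P cL cR y l) :
    |Om Kp cL cR l - 12 * y * (cR - cL)| ≤ 60 * B ^ 2 * ((Mx K P cL cR y).card : ℝ) := by
  classical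
  have hcard : (Mx K P cL cR y).card = l.length := by
    rw [← List.toFinset_card_of_nodup hl.nodup]
    congr 1
    ext x
    rw [List.mem_toFinset, hl.mem]
  obtain ⟨a, A, rfl⟩ : ∃ a A, l = a :: A := List.exists_cons_of_ne_nil hl.ne
  have h1 := wsum_estimate hK hc hB hBK hB1 A a
    (fun p hp => (mem_Mx.1 ((hl.mem p).1 hp)).2.1) hl.sorted hl.chain
  set la := (a :: A).getLast (by simp) with hla
  have haM := mem_Mx.1 ((hl.mem a).1 (by simp))
  have hlaM := mem_Mx.1 ((hl.mem la).1 (List.getLast_mem _))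
  have hah : Lf K a y ≤ cL := hl.head (by simp)
  have hlaR : cR ≤ Rf K la y := hl.last (by simp)
  have na : |cL - a.1| ≤ B ∧ |y - a.2| ≤ B :=
    near_of_mem hBK (mem_iff_Lf hK hc haM.2.1 hah haM.2.2.1.le)
  have nla : |cR - la.1| ≤ B ∧ |y - la.2| ≤ B :=
    near_of_mem hBK (mem_iff_Lf hK hc hlaM.2.1 hlaM.2.2.2.1.le hlaR)
  have g1 : (a :: A).getLastD 0 = la := by
    rw [hla, List.getLastD_eq_getLast?, List.getLast?_eq_getLast_of_ne_nil (by simp)]; rfl
  have e : Om Kp cL cR (a :: A) - 12 * y * (cR - cL)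
      = 12 * ((a.2 - y) * (a.1 - cL)) + (wsum (wt Kp) (a :: A) - 12 * y * (la.1 - a.1))
        + 12 * ((la.2 - y) * (cR - la.1)) := by
    unfold Om
    rw [g1]
    simp only [List.headD_cons]
    ring
  rw [e]
  have b1 : |12 * ((a.2 - y) * (a.1 - cL))| ≤ 12 * (B * B) := by
    rw [abs_mul 12, abs_mul]
    have : |(12 : ℝ)| = 12 := by norm_num
    rw [this]
    apply mul_le_mul_of_nonneg_left _ (by norm_num)
    rw [abs_sub_comm a.2 y, abs_sub_comm a.1 cL]
    exact mul_le_mul na.2 na.1 (abs_nonneg _) (by linarith)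
  have b2 : |12 * ((la.2 - y) * (cR - la.1))| ≤ 12 * (B * B) := by
    rw [abs_mul 12, abs_mul]
    have : |(12 : ℝ)| = 12 := by norm_num
    rw [this]
    apply mul_le_mul_of_nonneg_left _ (by norm_num)
    rw [abs_sub_comm la.2 y]
    exact mul_le_mul nla.2 nla.1 (abs_nonneg _) (by linarith)
  refine (abs_add_le _ _).trans ?_
  have b3 := abs_add_le (12 * ((a.2 - y) * (a.1 - cL)))
    (wsum (wt Kp) (a :: A) - 12 * y * (la.1 - a.1))
  rw [hcard]
  simp only [List.length_cons]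
  push_cast
  nlinarith

/-- An order-connected membership sequence changes at most twice. -/
theorem changes_le_two (n : ℕ) (p : ℕ → Prop) [DecidablePred p]
    (h : ∀ i j k, i ≤ j → j ≤ k → k ≤ n → p i → p k → p j) :
    ((Finset.range n).filter (fun i => ¬ (p i ↔ p (i + 1)))).card ≤ 2 := by
  have hsub : (Finset.range n).filter (fun i => ¬ (p i ↔ p (i + 1))) ⊆
      (Finset.range n).filter (fun i => p i ∧ ¬ p (i + 1)) ∪
      (Finset.range n).filter (fun i => ¬ p i ∧ p (i + 1)) := by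
    intro i hi
    simp only [Finset.mem_filter, Finset.mem_union] at hi ⊢
    tauto
  have h1 : ((Finset.range n).filter (fun i => p i ∧ ¬ p (i + 1))).card ≤ 1 := by
    rw [Finset.card_le_one]
    intro i hi j hj
    simp only [Finset.mem_filter, Finset.mem_range] at hi hj
    by_contra hne
    rcases lt_or_gt_of_ne hne with h' | h'
    · exact hi.2.2 (h i (i + 1) j (by omega) (by omega) (by omega) hi.2.1 hj.2.1)
    · exact hj.2.2 (h j (j + 1) i (by omega) (by omega) (by omega) hj.2.1 hi.2.1)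
  have h2 : ((Finset.range n).filter (fun i => ¬ p i ∧ p (i + 1))).card ≤ 1 := by
    rw [Finset.card_le_one]
    intro i hi j hj
    simp only [Finset.mem_filter, Finset.mem_range] at hi hj
    by_contra hne
    rcases lt_or_gt_of_ne hne with h' | h'
    · exact hj.2.1 (h (i + 1) j (j + 1) (by omega) (by omega) (by omega) hi.2.2 hj.2.2)
    · exact hi.2.1 (h (j + 1) i (i + 1) (by omega) (by omega) (by omega) hj.2.2 hi.2.2)
  calc _ ≤ _ := Finset.card_le_card hsub
    _ ≤ _ := Finset.card_union_le _ _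
    _ ≤ 2 := by omega

/-- Total number of changes of a family of order-connected memberships. -/
theorem sum_changes {α : Type*} [DecidableEq α] (n : ℕ) (S : ℕ → Finset α) (T : Finset α)
    (q : α → Prop) [DecidablePred q]
    (hsub : ∀ i ≤ n, ∀ x ∈ S i, q x → x ∈ T)
    (h : ∀ i j k, i ≤ j → j ≤ k → k ≤ n → ∀ x, x ∈ S i → x ∈ S k → x ∈ S j) :
    ∑ i ∈ Finset.range n, ((symmDiff (S i) (S (i + 1))).filter q).card ≤ 2 * T.card := by
  have h1 : ∀ i ∈ Finset.range n, ((symmDiff (S i) (S (i + 1))).filter q).card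
      ≤ ∑ x ∈ T, if ¬ (x ∈ S i ↔ x ∈ S (i + 1)) then 1 else 0 := by
    intro i hi
    rw [Finset.mem_range] at hi
    rw [← Finset.card_filter]
    apply Finset.card_le_card
    intro x hx
    rw [Finset.mem_filter, Finset.mem_symmDiff] at hx
    rw [Finset.mem_filter]
    refine ⟨?_, by tauto⟩
    rcases hx.1 with h' | h'
    · exact hsub i (by omega) x h'.1 hx.2
    · exact hsub (i + 1) (by omega) x h'.1 hx.2
  refine (Finset.sum_le_sum h1).trans ?_
  rw [Finset.sum_comm]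
  have h2 : ∀ x ∈ T, ∑ i ∈ Finset.range n, (if ¬ (x ∈ S i ↔ x ∈ S (i + 1)) then 1 else 0) ≤ 2 := by
    intro x _
    rw [← Finset.card_filter]
    exact changes_le_two n (fun i => x ∈ S i) (fun i j k hij hjk hk hi hk' =>
      h i j k hij hjk hk x hi hk')
  refine (Finset.sum_le_sum h2).trans ?_
  rw [Finset.sum_const, smul_eq_mul, mul_comm]

/-- The sweep-line inequality. -/
theorem sweep (hK : IsCompact K) (hc : Convex ℝ K) (hne : K.Nonempty) {ε R B : ℝ} (hε : 0 < ε)
    (hε1 : ε ≤ 1) (hR0 : 0 ≤ R)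
    (ht : Thick K Kp ε) (hR : RowBound Kp R) (hB : BdBy Kp B) (hB1 : 1 ≤ B)
    (P : Finset (ℝ × ℝ)) {cL cR yB yT : ℝ} (hlr : cL < cR) (hbt : yB ≤ yT)
    (hcov : ∀ x y, cL < x → x < cR → yB ≤ y → y ≤ yT → ∃ p ∈ P, ((x, y) : ℝ × ℝ) - p ∈ K) :
    12 * (cR - cL) * (yT - yB) ≤ 12 * R * (P.card : ℝ)
      + 120 * B ^ 2 * (((P.filter (fun p => |cL - p.1| ≤ B)).card : ℝ)
          + ((P.filter (fun p => |cR - p.1| ≤ B)).card : ℝ)
          + ((P.filter (fun p => |yB - p.2| ≤ B)).card : ℝ)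
          + ((P.filter (fun p => |yT - p.2| ≤ B)).card : ℝ)) := by
  classical
  obtain ⟨η, hη, hself⟩ := sec_close hK hc hne hε
  set m := min η ε with hm
  have hmpos : 0 < m := lt_min hη hε
  obtain ⟨n, hn⟩ := exists_nat_gt ((yT - yB) / m)
  have hn0 : 0 < n := by
    rcases Nat.eq_zero_or_pos n with h | h
    · subst h
      have : 0 ≤ (yT - yB) / m := div_nonneg (by linarith) hmpos.le
      simp only [Nat.cast_zero] at hn
      linarith
    · exact h
  have hnR : (0 : ℝ) < n := by exact_mod_cast hn0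
  set stp := (yT - yB) / n with hstp
  have hstp0 : 0 ≤ stp := div_nonneg (by linarith) hnR.le
  have hstpm : stp ≤ m := by
    rw [hstp, div_le_iff₀ hnR]
    rw [div_lt_iff₀ hmpos] at hn
    linarith
  set Y : ℕ → ℝ := fun i => yB + i * stp with hY
  have hYmono : ∀ i, Y i ≤ Y (i + 1) := by
    intro i
    simp only [hY]; push_cast; nlinarith
  have hYdiff : ∀ i, |Y i - Y (i + 1)| = stp := by
    intro i
    have : Y i - Y (i + 1) = -stp := by simp only [hY]; push_cast; ring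
    rw [this, abs_neg, abs_of_nonneg hstp0]
  have hYn : Y n = yT := by
    simp only [hY, hstp]; field_simp; ring
  have hY0 : Y 0 = yB := by simp [hY]
  have hYm : Monotone Y := monotone_nat_of_le_succ hYmono
  have hYB : ∀ i, yB ≤ Y i := fun i => hY0 ▸ hYm (Nat.zero_le i)
  have hYT : ∀ i, i ≤ n → Y i ≤ yT := fun i hi => hYn ▸ hYm hi
  have hex : ∀ i, i ≤ n → ∃ l, IsChainAt K P cL cR (Y i) l := fun i hi =>
    exists_chain hK hlr (fun x h1 h2 => hcov x (Y i) h1 h2 (hYB i) (hYT i hi))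
  choose! l hl using hex
  set S : ℕ → Finset (ℝ × ℝ) := fun i => Mx K P cL cR (Y i) with hS
  have hconn : ∀ i j k, i ≤ j → j ≤ k → k ≤ n → ∀ x, x ∈ S i → x ∈ S k → x ∈ S j :=
    fun i j k hij hjk _ x hi hk => Mx_conn hK hc (hYm hij) (hYm hjk) hi hk
  have hSP : ∀ i, ∀ x ∈ S i, x ∈ P := fun i x hx => (mem_Mx.1 hx).1
  have hBK : BdBy K B := fun z hz => hB z (ht.subset hε.le hz)
  -- step estimate
  have hstep : ∀ i ∈ Finset.range n, Om Kp cL cR (l (i + 1)) - Om Kp cL cR (l i) ≤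
      6 * R * (((symmDiff (S i) (S (i + 1))).filter (fun _ => True)).card : ℝ)
      + 60 * B ^ 2 * (((symmDiff (S i) (S (i + 1))).filter (fun p => |cL - p.1| ≤ B)).card : ℝ)
      + 60 * B ^ 2 * (((symmDiff (S i) (S (i + 1))).filter
          (fun p => |cR - p.1| ≤ B)).card : ℝ) := by
    intro i hi
    rw [Finset.mem_range] at hi
    have h1 := Om_compare hK hc hε.le hε1 hR0 ht hR hB hB1 (hYmono i)
      (by rw [hYdiff]; exact hstpm.trans (min_le_right _ _))
      (fun s s' hs hs' hss => hself s s' hs hs' (by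
        rw [hYdiff] at hss
        exact hss.trans (hstpm.trans (min_le_left _ _))))
      (hl i (by omega)) (hl (i + 1) (by omega))
    rw [Finset.filter_true]
    exact (le_abs_self _).trans h1
  have htel : Om Kp cL cR (l n) - Om Kp cL cR (l 0)
      = ∑ i ∈ Finset.range n, (Om Kp cL cR (l (i + 1)) - Om Kp cL cR (l i)) :=
    (Finset.sum_range_sub (fun i => Om Kp cL cR (l i)) n).symm
  have hsum := Finset.sum_le_sum hstep
  rw [← htel, Finset.sum_add_distrib, Finset.sum_add_distrib, ← Finset.mul_sum, ← Finset.mul_sum,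
    ← Finset.mul_sum] at hsum
  have c1 := sum_changes n S P (fun _ => True) (fun i _ x hx _ => hSP i x hx) hconn
  have c2 := sum_changes n S (P.filter (fun p => |cL - p.1| ≤ B)) (fun p => |cL - p.1| ≤ B)
    (fun i _ x hx hq => Finset.mem_filter.2 ⟨hSP i x hx, hq⟩) hconn
  have c3 := sum_changes n S (P.filter (fun p => |cR - p.1| ≤ B)) (fun p => |cR - p.1| ≤ B)
    (fun i _ x hx hq => Finset.mem_filter.2 ⟨hSP i x hx, hq⟩) hconn
  have c1' : (∑ i ∈ Finset.range n,
      (((symmDiff (S i) (S (i + 1))).filter (fun _ => True)).card : ℝ)) ≤ 2 * (P.card : ℝ) := by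
    exact_mod_cast c1
  have c2' : (∑ i ∈ Finset.range n,
      (((symmDiff (S i) (S (i + 1))).filter (fun p => |cL - p.1| ≤ B)).card : ℝ))
      ≤ 2 * ((P.filter (fun p => |cL - p.1| ≤ B)).card : ℝ) := by
    exact_mod_cast c2
  have c3' : (∑ i ∈ Finset.range n,
      (((symmDiff (S i) (S (i + 1))).filter (fun p => |cR - p.1| ≤ B)).card : ℝ))
      ≤ 2 * ((P.filter (fun p => |cR - p.1| ≤ B)).card : ℝ) := by
    exact_mod_cast c3
  -- ends
  have e0 := Om_estimate hK hc hB hBK hB1 (hl 0 (Nat.zero_le n))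
  have en := Om_estimate hK hc hB hBK hB1 (hl n le_rfl)
  rw [hY0] at e0
  rw [hYn] at en
  have k0 : (Mx K P cL cR yB).card ≤ (P.filter (fun p => |yB - p.2| ≤ B)).card := by
    apply Finset.card_le_card
    intro p hp
    have hp' := mem_Mx.1 hp
    obtain ⟨x, hx⟩ := hp'.2.1
    exact Finset.mem_filter.2 ⟨hp'.1, (hBK _ hx).2⟩
  have kn : (Mx K P cL cR yT).card ≤ (P.filter (fun p => |yT - p.2| ≤ B)).card := by
    apply Finset.card_le_card
    intro p hp
    have hp' := mem_Mx.1 hp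
    obtain ⟨x, hx⟩ := hp'.2.1
    exact Finset.mem_filter.2 ⟨hp'.1, (hBK _ hx).2⟩
  have k0' : ((Mx K P cL cR yB).card : ℝ) ≤ ((P.filter (fun p => |yB - p.2| ≤ B)).card : ℝ) := by
    exact_mod_cast k0
  have kn' : ((Mx K P cL cR yT).card : ℝ) ≤ ((P.filter (fun p => |yT - p.2| ≤ B)).card : ℝ) := by
    exact_mod_cast kn
  have hB2 : 0 ≤ B ^ 2 := by positivity
  have f0 := (abs_le.1 e0).2
  have fn := (abs_le.1 en).1
  have g1 := mul_le_mul_of_nonneg_left c1' (by linarith : 0 ≤ 6 * R)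
  have g2 := mul_le_mul_of_nonneg_left c2' (by linarith : 0 ≤ 60 * B ^ 2)
  have g3 := mul_le_mul_of_nonneg_left c3' (by linarith : 0 ≤ 60 * B ^ 2)
  have g4 := mul_le_mul_of_nonneg_left k0' (by linarith : 0 ≤ 60 * B ^ 2)
  have g5 := mul_le_mul_of_nonneg_left kn' (by linarith : 0 ≤ 60 * B ^ 2)
  have p0 : (0 : ℝ) ≤ ((P.filter (fun p => |yB - p.2| ≤ B)).card : ℝ) := by positivity
  have pn : (0 : ℝ) ≤ ((P.filter (fun p => |yT - p.2| ≤ B)).card : ℝ) := by positivity
  have q0 := mul_nonneg hB2 p0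
  have qn := mul_nonneg hB2 pn
  nlinarith

end Pool.Agent.Lib.MP_eb03ca_co
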