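import Mathlib
import Pool.Agent.Lib.MP_eb03ca_co.SweepSum

/-!
A unit square covered by `N` translates of `K` has area at most `N R` (problem MP_eb03ca_co).
-/

set_option autoImplicit false

namespace Pool.Agent.Lib.MP_eb03ca_co

variable {K : Set (ℝ × ℝ)}

/-- The homothetic copy of `K` with centre `z0` and ratio `lam`. -/
def homo (K : Set (ℝ × ℝ)) (z0 : ℝ × ℝ) (lam : ℝ) : Set (ℝ × ℝ) :=
  {z | z0 + lam⁻¹ • (z - z0) ∈ K}

theorem homo_rowBound {R lam : ℝ} (h : RowBound K R) (z0 : ℝ × ℝ) (hlam : 0 < lam) :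
    RowBound (homo K z0 lam) (lam ^ 2 * R) := by
  intro p q d s t hp hq hpd hqd hs ht
  have hne : lam ≠ 0 := hlam.ne'
  have key := h (z0 + lam⁻¹ • (p - z0)) (z0 + lam⁻¹ • (q - z0)) (lam⁻¹ • d)
    (z0 + lam⁻¹ • (s - z0)) (z0 + lam⁻¹ • (t - z0)) hp hq
    (by
      have : z0 + lam⁻¹ • (p - z0) + lam⁻¹ • d = z0 + lam⁻¹ • (p + d - z0) := by
        rw [add_assoc, ← smul_add]; congr 2; abel
      rw [this]; exact hpd)
    (by
      have : z0 + lam⁻¹ • (q - z0) + lam⁻¹ • d = z0 + lam⁻¹ • (q + d - z0) := by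
        rw [add_assoc, ← smul_add]; congr 2; abel
      rw [this]; exact hqd)
    hs ht
  have e : 4 * det (lam⁻¹ • d) (z0 + lam⁻¹ • (p - z0) - (z0 + lam⁻¹ • (q - z0)))
      + det (lam⁻¹ • d) (z0 + lam⁻¹ • (s - z0) - (z0 + lam⁻¹ • (t - z0)))
      = lam⁻¹ ^ 2 * (4 * det d (p - q) + det d (s - t)) := by
    simp only [det, Prod.fst_sub, Prod.snd_sub, Prod.fst_add, Prod.snd_add, Prod.smul_fst,
      Prod.smul_snd, smul_eq_mul]
    ring
  rw [e] at key
  have h2 : 0 < lam ^ 2 := by positivity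
  have h3 := mul_le_mul_of_nonneg_left key h2.le
  have h4 : lam ^ 2 * (lam⁻¹ ^ 2 * (4 * det d (p - q) + det d (s - t)))
      = 4 * det d (p - q) + det d (s - t) := by
    field_simp
  rw [h4] at h3
  linarith

theorem homo_thick (hc : Convex ℝ K) {z0 : ℝ × ℝ} {r δ : ℝ} (hδ : 0 < δ)
    (hr : ∀ u : ℝ × ℝ, |u.1| ≤ r → |u.2| ≤ r → z0 + u ∈ K) :
    Thick K (homo K z0 (1 + δ)) (δ * r) := by
  intro z hz u h1 h2
  have hmem : z0 + δ⁻¹ • u ∈ K := by
    apply hr
    · rw [Prod.smul_fst, smul_eq_mul, abs_mul, abs_of_pos (inv_pos.2 hδ)]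
      rw [inv_mul_le_iff₀ hδ]; exact h1
    · rw [Prod.smul_snd, smul_eq_mul, abs_mul, abs_of_pos (inv_pos.2 hδ)]
      rw [inv_mul_le_iff₀ hδ]; exact h2
  have := hc hz hmem (a := (1 + δ)⁻¹) (b := δ * (1 + δ)⁻¹) (by positivity) (by positivity)
    (by field_simp)
  change z0 + (1 + δ)⁻¹ • (z + u - z0) ∈ K
  convert this using 1
  ext
  · simp only [Prod.fst_add, Prod.smul_fst, Prod.fst_sub, smul_eq_mul]
    field_simp; ring
  · simp only [Prod.snd_add, Prod.smul_snd, Prod.snd_sub, smul_eq_mul]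
    field_simp; ring

theorem homo_bdBy {B : ℝ} (hB : BdBy K B) {z0 : ℝ × ℝ} (hz0 : z0 ∈ K) {lam : ℝ}
    (hlam : 0 < lam) (hlam2 : lam ≤ 2) : BdBy (homo K z0 lam) (5 * B) := by
  intro z hz
  have h1 := hB _ hz
  have h0 := hB _ hz0
  simp only [Prod.fst_add, Prod.smul_fst, Prod.fst_sub, Prod.snd_add, Prod.smul_snd,
    Prod.snd_sub, smul_eq_mul] at h1
  have key : ∀ a b : ℝ, |a| ≤ B → |a + lam⁻¹ * (b - a)| ≤ B → |b| ≤ 5 * B := by
    intro a b ha hb
    have e : b = a + lam * ((a + lam⁻¹ * (b - a)) - a) := by field_simp; ring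
    rw [e]
    have hB0 : 0 ≤ B := (abs_nonneg _).trans ha
    refine (abs_add_le _ _).trans ?_
    rw [abs_mul, abs_of_pos hlam]
    have h2 : |a + lam⁻¹ * (b - a) - a| ≤ 2 * B := (abs_sub _ _).trans (by linarith)
    have h3 : lam * |a + lam⁻¹ * (b - a) - a| ≤ 2 * (2 * B) :=
      mul_le_mul hlam2 h2 (abs_nonneg _) (by norm_num)
    linarith
  exact ⟨key _ _ h0.1 h1.1, key _ _ h0.2 h1.2⟩

theorem card_near (M : ℕ) (c C : ℝ) (hC : 0 ≤ C) :
    (((Finset.range M).filter (fun j : ℕ => |c - j| ≤ C)).card : ℝ) ≤ 2 * C + 1 := by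
  have hsub : ((Finset.range M).filter (fun j : ℕ => |c - j| ≤ C)).image (fun j : ℕ => (j : ℤ))
      ⊆ Finset.Icc ⌈c - C⌉ ⌊c + C⌋ := by
    intro z hz
    rw [Finset.mem_image] at hz
    obtain ⟨j, hj, rfl⟩ := hz
    rw [Finset.mem_filter] at hj
    have := abs_le.1 hj.2
    rw [Finset.mem_Icc, Int.ceil_le, Int.le_floor]
    push_cast
    constructor <;> linarith
  have h1 := Finset.card_le_card hsub
  rw [Finset.card_image_of_injective _ Nat.cast_injective, Int.card_Icc] at h1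
  have h2 : (((Finset.range M).filter (fun j : ℕ => |c - j| ≤ C)).card : ℝ)
      ≤ ((⌊c + C⌋ + 1 - ⌈c - C⌉).toNat : ℝ) := by exact_mod_cast h1
  refine h2.trans ?_
  rcases le_or_gt 0 (⌊c + C⌋ + 1 - ⌈c - C⌉) with h | h
  · have h3 : ((⌊c + C⌋ + 1 - ⌈c - C⌉).toNat : ℤ) = ⌊c + C⌋ + 1 - ⌈c - C⌉ := Int.toNat_of_nonneg h
    have h4 : ((⌊c + C⌋ + 1 - ⌈c - C⌉).toNat : ℝ) = ((⌊c + C⌋ + 1 - ⌈c - C⌉ : ℤ) : ℝ) := by
      rw [← h3]; norm_cast
    rw [h4]
    push_cast
    have := Int.floor_le (c + C)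
    have := Int.le_ceil (c - C)
    linarith
  · rw [Int.toNat_of_nonpos h.le]
    simp only [Nat.cast_zero]
    linarith

open Classical in
/-- The centres of `M × M` shifted copies of a covering. -/
noncomputable def grid {N : ℕ} (x : Fin N → ℝ × ℝ) (M : ℕ) : Finset (ℝ × ℝ) :=
  ((Finset.univ : Finset (Fin N)) ×ˢ (Finset.range M ×ˢ Finset.range M)).image
    (fun t => x t.1 + ((t.2.1 : ℝ), (t.2.2 : ℝ)))

theorem grid_card {N : ℕ} (x : Fin N → ℝ × ℝ) (M : ℕ) :
    ((grid x M).card : ℝ) ≤ N * M ^ 2 := by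
  classical
  have h : (grid x M).card ≤ N * (M * M) := by
    unfold grid
    refine Finset.card_image_le.trans ?_
    rw [Finset.card_product, Finset.card_product]
    simp
  have h' : ((grid x M).card : ℝ) ≤ ((N * (M * M) : ℕ) : ℝ) := by exact_mod_cast h
  refine h'.trans (le_of_eq ?_)
  push_cast; ring

theorem grid_near1 {N : ℕ} (x : Fin N → ℝ × ℝ) (M : ℕ) (c C : ℝ) (hC : 0 ≤ C) :
    (((grid x M).filter (fun p => |c - p.1| ≤ C)).card : ℝ) ≤ N * M * (2 * C + 1) := by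
  classical
  have h1 : ((grid x M).filter (fun p => |c - p.1| ≤ C)).card ≤
      (((Finset.univ : Finset (Fin N)) ×ˢ (Finset.range M ×ˢ Finset.range M)).filter
        (fun t => |(c - (x t.1).1) - (t.2.1 : ℝ)| ≤ C)).card := by
    unfold grid
    rw [Finset.filter_image]
    refine Finset.card_image_le.trans (le_of_eq ?_)
    congr 1
    ext t
    simp only [Finset.mem_filter, Prod.fst_add]
    rw [sub_sub]
  have h2 : (((Finset.univ : Finset (Fin N)) ×ˢ (Finset.range M ×ˢ Finset.range M)).filter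
        (fun t => |(c - (x t.1).1) - (t.2.1 : ℝ)| ≤ C)).card
      = ∑ i : Fin N, ∑ k ∈ Finset.range M,
        ((Finset.range M).filter (fun j : ℕ => |(c - (x i).1) - (j : ℝ)| ≤ C)).card := by
    rw [Finset.card_filter, Finset.sum_product]
    apply Finset.sum_congr rfl
    intro i _
    rw [Finset.sum_product, Finset.sum_comm]
    apply Finset.sum_congr rfl
    intro k _
    rw [Finset.card_filter]
  have h3 : (((grid x M).filter (fun p => |c - p.1| ≤ C)).card : ℝ) ≤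
      ∑ i : Fin N, ∑ k ∈ Finset.range M,
        (((Finset.range M).filter (fun j : ℕ => |(c - (x i).1) - (j : ℝ)| ≤ C)).card : ℝ) := by
    rw [h2] at h1
    exact_mod_cast h1
  refine h3.trans ?_
  have h4 : ∀ i ∈ (Finset.univ : Finset (Fin N)), ∑ k ∈ Finset.range M,
        (((Finset.range M).filter (fun j : ℕ => |(c - (x i).1) - (j : ℝ)| ≤ C)).card : ℝ)
        ≤ M * (2 * C + 1) := by
    intro i _
    rw [Finset.sum_const, Finset.card_range, nsmul_eq_mul]
    exact mul_le_mul_of_nonneg_left (card_near M _ C hC) (by positivity)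
  refine (Finset.sum_le_sum h4).trans (le_of_eq ?_)
  rw [Finset.sum_const, Finset.card_univ, Fintype.card_fin, nsmul_eq_mul]
  ring

theorem grid_near2 {N : ℕ} (x : Fin N → ℝ × ℝ) (M : ℕ) (c C : ℝ) (hC : 0 ≤ C) :
    (((grid x M).filter (fun p => |c - p.2| ≤ C)).card : ℝ) ≤ N * M * (2 * C + 1) := by
  classical
  have h1 : ((grid x M).filter (fun p => |c - p.2| ≤ C)).card ≤
      (((Finset.univ : Finset (Fin N)) ×ˢ (Finset.range M ×ˢ Finset.range M)).filter
        (fun t => |(c - (x t.1).2) - (t.2.2 : ℝ)| ≤ C)).card := by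
    unfold grid
    rw [Finset.filter_image]
    refine Finset.card_image_le.trans (le_of_eq ?_)
    congr 1
    ext t
    simp only [Finset.mem_filter, Prod.snd_add]
    rw [sub_sub]
  have h2 : (((Finset.univ : Finset (Fin N)) ×ˢ (Finset.range M ×ˢ Finset.range M)).filter
        (fun t => |(c - (x t.1).2) - (t.2.2 : ℝ)| ≤ C)).card
      = ∑ i : Fin N, ∑ k ∈ Finset.range M,
        ((Finset.range M).filter (fun j : ℕ => |(c - (x i).2) - (j : ℝ)| ≤ C)).card := by
    rw [Finset.card_filter, Finset.sum_product]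
    apply Finset.sum_congr rfl
    intro i _
    rw [Finset.sum_product]
    apply Finset.sum_congr rfl
    intro k _
    rw [Finset.card_filter]
  have h3 : (((grid x M).filter (fun p => |c - p.2| ≤ C)).card : ℝ) ≤
      ∑ i : Fin N, ∑ k ∈ Finset.range M,
        (((Finset.range M).filter (fun j : ℕ => |(c - (x i).2) - (j : ℝ)| ≤ C)).card : ℝ) := by
    rw [h2] at h1
    exact_mod_cast h1
  refine h3.trans ?_
  have h4 : ∀ i ∈ (Finset.univ : Finset (Fin N)), ∑ k ∈ Finset.range M,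
        (((Finset.range M).filter (fun j : ℕ => |(c - (x i).2) - (j : ℝ)| ≤ C)).card : ℝ)
        ≤ M * (2 * C + 1) := by
    intro i _
    rw [Finset.sum_const, Finset.card_range, nsmul_eq_mul]
    exact mul_le_mul_of_nonneg_left (card_near M _ C hC) (by positivity)
  refine (Finset.sum_le_sum h4).trans (le_of_eq ?_)
  rw [Finset.sum_const, Finset.card_univ, Fintype.card_fin, nsmul_eq_mul]
  ring

theorem exists_cell {M : ℕ} (hM : 0 < M) {x : ℝ} (h0 : 0 ≤ x) (h1 : x ≤ M) :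
    ∃ j < M, 0 ≤ x - (j : ℝ) ∧ x - (j : ℝ) ≤ 1 := by
  rcases lt_or_eq_of_le h1 with h | h
  · refine ⟨⌊x⌋₊, ?_, ?_, ?_⟩
    · exact (Nat.floor_lt h0).2 h
    · linarith [Nat.floor_le h0]
    · linarith [Nat.lt_floor_add_one x]
  · refine ⟨M - 1, by omega, ?_, ?_⟩
    · rw [Nat.cast_sub (by omega), h]; simp
    · rw [Nat.cast_sub (by omega), h]; simp

theorem grid_cover {N : ℕ} {x : Fin N → ℝ × ℝ}
    (hcov : ∀ p : ℝ × ℝ, 0 ≤ p.1 → p.1 ≤ 1 → 0 ≤ p.2 → p.2 ≤ 1 → ∃ i, p - x i ∈ K)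
    {M : ℕ} (hM : 0 < M) {a b : ℝ} (ha0 : 0 ≤ a) (ha1 : a ≤ M) (hb0 : 0 ≤ b) (hb1 : b ≤ M) :
    ∃ p ∈ grid x M, ((a, b) : ℝ × ℝ) - p ∈ K := by
  classical
  obtain ⟨j, hj, j1, j2⟩ := exists_cell hM ha0 ha1
  obtain ⟨k, hk, k1, k2⟩ := exists_cell hM hb0 hb1
  obtain ⟨i, hi⟩ := hcov (a - j, b - k) j1 j2 k1 k2
  refine ⟨x i + ((j : ℝ), (k : ℝ)), ?_, ?_⟩
  · unfold grid
    rw [Finset.mem_image]
    exact ⟨(i, (j, k)), by simp [hj, hk], rfl⟩
  · convert hi using 1
    ext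
    · simp only [Prod.fst_sub, Prod.fst_add]; ring
    · simp only [Prod.snd_sub, Prod.snd_add]; ring

/-- **Main covering inequality** for the unit square. -/
theorem square_bound (hK : IsCompact K) (hc : Convex ℝ K) (hint : (interior K).Nonempty)
    {R : ℝ} (hR : RowBound K R) {N : ℕ} {x : Fin N → ℝ × ℝ}
    (hcov : ∀ p : ℝ × ℝ, 0 ≤ p.1 → p.1 ≤ 1 → 0 ≤ p.2 → p.2 ≤ 1 → ∃ i, p - x i ∈ K) :
    1 ≤ N * R := by
  obtain ⟨z0, hz0⟩ := hint
  have hz0K : z0 ∈ K := interior_subset hz0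
  -- a box inside `K`
  obtain ⟨r, hr0, hr⟩ : ∃ r > 0, ∀ u : ℝ × ℝ, |u.1| ≤ r → |u.2| ≤ r → z0 + u ∈ K := by
    rw [mem_interior_iff_mem_nhds, Metric.mem_nhds_iff] at hz0
    obtain ⟨r, hr0, hr⟩ := hz0
    refine ⟨r / 2, by linarith, fun u h1 h2 => hr ?_⟩
    rw [Metric.mem_ball, dist_eq_norm]
    have : z0 + u - z0 = u := by abel
    rw [this, Prod.norm_def]
    exact max_lt (by rw [Real.norm_eq_abs]; linarith) (by rw [Real.norm_eq_abs]; linarith)
  -- a bound for `K`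
  obtain ⟨B0, hB0⟩ : ∃ B0, BdBy K B0 := by
    obtain ⟨C, hC⟩ := hK.isBounded.exists_norm_le
    refine ⟨C, fun z hz => ?_⟩
    have := hC z hz
    exact ⟨(norm_fst_le z).trans this, (norm_snd_le z).trans this⟩
  have hB00 : 0 ≤ B0 := (abs_nonneg _).trans (hB0 _ hz0K).1
  have hR0 : 0 ≤ R := by
    have := hR z0 z0 0 z0 z0 hz0K hz0K (by simpa using hz0K) (by simpa using hz0K) hz0K hz0K
    simp only [det, sub_self, Prod.fst_zero, Prod.snd_zero, zero_mul, mul_zero] at this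
    linarith
  have main : ∀ δ : ℝ, 0 < δ → δ ≤ 1 → 1 ≤ (1 + δ) ^ 2 * R * N := by
    intro δ hδ hδ1
    set Kp := homo K z0 (1 + δ) with hKp
    set ε := min (δ * r) 1 with hε
    have hε0 : 0 < ε := lt_min (by positivity) one_pos
    have hthick : Thick K Kp ε := by
      intro z hz u h1 h2
      exact homo_thick hc hδ hr z hz u (h1.trans (min_le_left _ _)) (h2.trans (min_le_left _ _))
    have hRp : RowBound Kp ((1 + δ) ^ 2 * R) := homo_rowBound hR z0 (by linarith)
    set B := 5 * B0 + 1 with hB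
    have hBp : BdBy Kp B := by
      intro z hz
      have := homo_bdBy hB0 hz0K (lam := 1 + δ) (by linarith) (by linarith) z hz
      exact ⟨this.1.trans (by linarith), this.2.trans (by linarith)⟩
    have hB1 : 1 ≤ B := by linarith
    by_contra hcon
    push Not at hcon
    set gap := 12 - 12 * ((1 + δ) ^ 2 * R * N) with hgap
    have hgap0 : 0 < gap := by linarith
    set C := 120 * B ^ 2 * (4 * (N * (2 * B + 1))) with hC
    obtain ⟨M, hM⟩ := exists_nat_gt (C / gap)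
    have hC0 : 0 ≤ C := by positivity
    have hM0 : 0 < M := by
      rcases Nat.eq_zero_or_pos M with h | h
      · subst h
        have : 0 ≤ C / gap := div_nonneg hC0 hgap0.le
        simp only [Nat.cast_zero] at hM
        linarith
      · exact h
    have hMR : (0 : ℝ) < M := by exact_mod_cast hM0
    have hsw := sweep hK hc ⟨z0, hz0K⟩ hε0 (min_le_right _ _) (by positivity) hthick hRp hBp hB1
      (grid x M) (cL := 0) (cR := M) (yB := 0) (yT := M) hMR hMR.le
      (fun a b h1 h2 h3 h4 => grid_cover hcov hM0 h1.le h2.le h3 h4)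
    have n1 := grid_near1 x M 0 B (by linarith)
    have n2 := grid_near1 x M M B (by linarith)
    have n3 := grid_near2 x M 0 B (by linarith)
    have n4 := grid_near2 x M M B (by linarith)
    have n5 := grid_card x M
    have hsum : 12 * (M - 0) * ((M : ℝ) - 0) ≤ 12 * ((1 + δ) ^ 2 * R) * (N * M ^ 2)
        + 120 * B ^ 2 * (N * M * (2 * B + 1) + N * M * (2 * B + 1) + N * M * (2 * B + 1)
          + N * M * (2 * B + 1)) := by
      refine hsw.trans (add_le_add ?_ ?_)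
      · exact mul_le_mul_of_nonneg_left n5 (by positivity)
      · exact mul_le_mul_of_nonneg_left (by linarith) (by positivity)
    have h1 : M * (gap * M - C) ≤ 0 := by
      have e : M * (gap * M - C) = 12 * (M - 0) * ((M : ℝ) - 0)
          - (12 * ((1 + δ) ^ 2 * R) * (N * M ^ 2)
        + 120 * B ^ 2 * (N * M * (2 * B + 1) + N * M * (2 * B + 1) + N * M * (2 * B + 1)
          + N * M * (2 * B + 1))) := by
        rw [hgap, hC]; ring
      rw [e]; linarith
    have h2 : 0 < gap * M - C := by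
      rw [div_lt_iff₀ hgap0] at hM
      linarith
    have h3 := mul_pos hMR h2
    linarith
  -- let `δ → 0`
  by_contra hcon
  push Not at hcon
  have hNR : 0 ≤ N * R := by positivity
  set g := 1 - N * R with hg
  have hg0 : 0 < g := by linarith
  have hg1 : g ≤ 1 := by linarith
  have hm := main (g / 4) (by linarith) (by linarith)
  have e1 : (1 + g / 4) ^ 2 ≤ 1 + g := by nlinarith
  have e2 : (1 + g / 4) ^ 2 * R * N = (1 + g / 4) ^ 2 * (N * R) := by ring
  have e3 : (1 + g / 4) ^ 2 * (N * R) ≤ (1 + g) * (N * R) :=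
    mul_le_mul_of_nonneg_right e1 hNR
  have e4 : (1 + g) * (N * R) = 1 - g * g := by rw [hg]; ring
  have e5 : 0 < g * g := mul_pos hg0 hg0
  linarith

end Pool.Agent.Lib.MP_eb03ca_co
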