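import Mathlib
import Pool.Agent.Lib.MP_eb03ca_co.Square

/-!
Parallelograms covered by finitely many translates of `K` (problem MP_eb03ca_co).
-/

set_option autoImplicit false

namespace Pool.Agent.Lib.MP_eb03ca_co

variable {K : Set (ℝ × ℝ)}

/-- The parallelogram with corner `p` and sides `f`, `e` is covered by the translates of `K`
with centres in `S`. -/
def CovBy (K : Set (ℝ × ℝ)) (S : Finset (ℝ × ℝ)) (p f e : ℝ × ℝ) : Prop :=
  ∀ σ τ : ℝ, 0 ≤ σ → σ ≤ 1 → 0 ≤ τ → τ ≤ 1 → ∃ c ∈ S, p + σ • f + τ • e - c ∈ K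

/-- `u` bounds the parametric value of every covered parallelogram. -/
def ParaBound (K : Set (ℝ × ℝ)) (θ u : ℝ) : Prop :=
  ∀ (S : Finset (ℝ × ℝ)) (p f e s t : ℝ × ℝ), CovBy K S p f e → s ∈ K → t ∈ K →
    det f e + θ * det f (s - t) ≤ u * S.card

/-- The coordinates with respect to `f`, `e`. -/
noncomputable def coords (f e v : ℝ × ℝ) : ℝ × ℝ := (det v e / det f e, det f v / det f e)

theorem coords_spec {f e : ℝ × ℝ} (h : det f e ≠ 0) (v : ℝ × ℝ) :
    (coords f e v).1 • f + (coords f e v).2 • e = v := by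
  unfold coords
  ext
  · simp only [Prod.fst_add, Prod.smul_fst, smul_eq_mul]
    field_simp
    simp only [det]; ring
  · simp only [Prod.snd_add, Prod.smul_snd, smul_eq_mul]
    field_simp
    simp only [det]; ring

theorem coords_lin {f e : ℝ × ℝ} (h : det f e ≠ 0) (a b : ℝ) :
    coords f e (a • f + b • e) = (a, b) := by
  unfold coords
  ext
  · change det (a • f + b • e) e / det f e = a
    rw [div_eq_iff h]
    simp only [det, Prod.fst_add, Prod.smul_fst, smul_eq_mul, Prod.snd_add, Prod.smul_snd]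
    ring
  · change det f (a • f + b • e) / det f e = b
    rw [div_eq_iff h]
    simp only [det, Prod.fst_add, Prod.smul_fst, smul_eq_mul, Prod.snd_add, Prod.smul_snd]
    ring

theorem coords_sub (f e v w : ℝ × ℝ) : coords f e (v - w) = coords f e v - coords f e w := by
  unfold coords
  ext
  · simp only [det, Prod.fst_sub, Prod.snd_sub]; ring
  · simp only [det, Prod.fst_sub, Prod.snd_sub]; ring

/-- The set `K` in the coordinates with respect to `f`, `e`. -/
def pull (K : Set (ℝ × ℝ)) (f e : ℝ × ℝ) : Set (ℝ × ℝ) := {z | z.1 • f + z.2 • e ∈ K}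

theorem pull_eq_image {f e : ℝ × ℝ} (h : det f e ≠ 0) : pull K f e = coords f e '' K := by
  ext z
  constructor
  · intro hz
    exact ⟨_, hz, by rw [coords_lin h]⟩
  · rintro ⟨w, hw, rfl⟩
    change (coords f e w).1 • f + (coords f e w).2 • e ∈ K
    rw [coords_spec h]; exact hw

theorem continuous_coords (f e : ℝ × ℝ) : Continuous (coords f e) := by
  unfold coords det
  fun_prop

theorem pull_compact (hK : IsCompact K) {f e : ℝ × ℝ} (h : det f e ≠ 0) :
    IsCompact (pull K f e) := by
  rw [pull_eq_image h]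
  exact hK.image (continuous_coords f e)

theorem pull_convex (hc : Convex ℝ K) (f e : ℝ × ℝ) : Convex ℝ (pull K f e) := by
  intro z hz w hw a b ha hb hab
  have := hc hz hw ha hb hab
  change (a • z + b • w).1 • f + (a • z + b • w).2 • e ∈ K
  convert this using 1
  ext
  · simp only [Prod.fst_add, Prod.smul_fst, Prod.snd_add, Prod.smul_snd, smul_eq_mul]; ring
  · simp only [Prod.fst_add, Prod.smul_fst, Prod.snd_add, Prod.smul_snd, smul_eq_mul]; ring

theorem pull_interior (hint : (interior K).Nonempty) {f e : ℝ × ℝ} (h : det f e ≠ 0) :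
    (interior (pull K f e)).Nonempty := by
  obtain ⟨z0, hz0⟩ := hint
  have hcont : Continuous (fun z : ℝ × ℝ => z.1 • f + z.2 • e) := by fun_prop
  have hopen : IsOpen ((fun z : ℝ × ℝ => z.1 • f + z.2 • e) ⁻¹' (interior K)) :=
    isOpen_interior.preimage hcont
  refine ⟨coords f e z0, ?_⟩
  refine mem_interior.2 ⟨_, ?_, hopen, ?_⟩
  · intro z hz
    exact interior_subset (s := K) hz
  · change (coords f e z0).1 • f + (coords f e z0).2 • e ∈ interior K
    rw [coords_spec h]; exact hz0

theorem pull_rowBound {R : ℝ} (h : RowBound K R) {f e : ℝ × ℝ} (hD : 0 < det f e) :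
    RowBound (pull K f e) (R / det f e) := by
  intro p q d s t hp hq hpd hqd hs ht
  have key := h (p.1 • f + p.2 • e) (q.1 • f + q.2 • e) (d.1 • f + d.2 • e)
    (s.1 • f + s.2 • e) (t.1 • f + t.2 • e) hp hq
    (by
      have : p.1 • f + p.2 • e + (d.1 • f + d.2 • e) = (p + d).1 • f + (p + d).2 • e := by
        simp only [Prod.fst_add, Prod.snd_add, add_smul]; abel
      rw [this]; exact hpd)
    (by
      have : q.1 • f + q.2 • e + (d.1 • f + d.2 • e) = (q + d).1 • f + (q + d).2 • e := by
        simp only [Prod.fst_add, Prod.snd_add, add_smul]; abel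
      rw [this]; exact hqd)
    hs ht
  have e1 : 4 * det (d.1 • f + d.2 • e) (p.1 • f + p.2 • e - (q.1 • f + q.2 • e))
      + det (d.1 • f + d.2 • e) (s.1 • f + s.2 • e - (t.1 • f + t.2 • e))
      = det f e * (4 * det d (p - q) + det d (s - t)) := by
    simp only [det, Prod.fst_sub, Prod.snd_sub, Prod.fst_add, Prod.snd_add, Prod.smul_fst,
      Prod.smul_snd, smul_eq_mul]
    ring
  rw [e1] at key
  rw [show 4 * (R / det f e) = (4 * R) / det f e by ring, le_div_iff₀ hD]
  linarith

theorem rowBound_nonneg {R : ℝ} (h : RowBound K R) (hne : K.Nonempty) : 0 ≤ R := by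
  obtain ⟨z0, hz0⟩ := hne
  have := h z0 z0 0 z0 z0 hz0 hz0 (by simpa using hz0) (by simpa using hz0) hz0 hz0
  simp only [det, sub_self, Prod.fst_zero, Prod.snd_zero, mul_zero] at this
  linarith

theorem para_bound (hK : IsCompact K) (hc : Convex ℝ K) (hint : (interior K).Nonempty)
    {R : ℝ} (hR : RowBound K R) {S : Finset (ℝ × ℝ)} {p f e : ℝ × ℝ} (hcov : CovBy K S p f e) :
    det f e ≤ R * S.card := by
  have hR0 : 0 ≤ R := rowBound_nonneg hR (hint.mono interior_subset)
  rcases le_or_gt (det f e) 0 with hD | hD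
  · exact hD.trans (by positivity)
  have hD' : det f e ≠ 0 := hD.ne'
  have key := square_bound (pull_compact hK hD') (pull_convex hc f e) (pull_interior hint hD')
    (pull_rowBound hR hD) (N := S.card)
    (x := fun i => coords f e ((S.equivFin.symm i : ℝ × ℝ) - p))
    (by
      intro z h1 h2 h3 h4
      obtain ⟨c, hcS, hc⟩ := hcov z.1 z.2 h1 h2 h3 h4
      refine ⟨S.equivFin ⟨c, hcS⟩, ?_⟩
      change (z - coords f e (((S.equivFin.symm (S.equivFin ⟨c, hcS⟩)) : ℝ × ℝ) - p)).1 • f
        + (z - coords f e (((S.equivFin.symm (S.equivFin ⟨c, hcS⟩)) : ℝ × ℝ) - p)).2 • e ∈ K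
      rw [Equiv.symm_apply_apply]
      have e1 := coords_spec hD' (c - p)
      have e2 : (z - coords f e (c - p)).1 • f + (z - coords f e (c - p)).2 • e
          = p + z.1 • f + z.2 • e - c := by
        rw [Prod.fst_sub, Prod.snd_sub, sub_smul, sub_smul]
        calc z.1 • f - (coords f e (c - p)).1 • f + (z.2 • e - (coords f e (c - p)).2 • e)
            = z.1 • f + z.2 • e - ((coords f e (c - p)).1 • f + (coords f e (c - p)).2 • e) := by
              abel
          _ = z.1 • f + z.2 • e - (c - p) := by rw [e1]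
          _ = p + z.1 • f + z.2 • e - c := by abel
      rw [e2]
      exact hc)
  rw [← mul_div_assoc, le_div_iff₀ hD] at key
  linarith

end Pool.Agent.Lib.MP_eb03ca_co
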