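import Mathlib
import Pool.Agent.Lib.MP_eb03ca_co.Defs
import Pool.Agent.Lib.MP_eb03ca_co.Para

/-!
Areas of parallelograms (problem MP_eb03ca_co).
-/

set_option autoImplicit false

open scoped Pointwise
open MeasureTheory

namespace Pool.Agent.Lib.MP_eb03ca_co

/-- A sheared box. -/
def shBox (m X0 X1 Y0 Y1 : ℝ) : Set (ℝ × ℝ) :=
  {z | X0 ≤ z.1 ∧ z.1 ≤ X1 ∧ Y0 ≤ z.2 - m * z.1 ∧ z.2 - m * z.1 ≤ Y1}

theorem isClosed_shBox (m X0 X1 Y0 Y1 : ℝ) : IsClosed (shBox m X0 X1 Y0 Y1) := by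
  have h1 : IsClosed {z : ℝ × ℝ | X0 ≤ z.1} := isClosed_le continuous_const continuous_fst
  have h2 : IsClosed {z : ℝ × ℝ | z.1 ≤ X1} := isClosed_le continuous_fst continuous_const
  have h3 : IsClosed {z : ℝ × ℝ | Y0 ≤ z.2 - m * z.1} :=
    isClosed_le continuous_const (by fun_prop)
  have h4 : IsClosed {z : ℝ × ℝ | z.2 - m * z.1 ≤ Y1} :=
    isClosed_le (by fun_prop) continuous_const
  exact h1.inter (h2.inter (h3.inter h4))

theorem volume_shBox (m X0 X1 Y0 Y1 : ℝ) :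
    volume (shBox m X0 X1 Y0 Y1) = ENNReal.ofReal (X1 - X0) * ENNReal.ofReal (Y1 - Y0) := by
  rw [Measure.volume_eq_prod, Measure.prod_apply (isClosed_shBox m X0 X1 Y0 Y1).measurableSet]
  have h : ∀ x : ℝ, volume (Prod.mk x ⁻¹' shBox m X0 X1 Y0 Y1)
      = (Set.Icc X0 X1).indicator (fun _ => ENNReal.ofReal (Y1 - Y0)) x := by
    intro x
    by_cases hx : x ∈ Set.Icc X0 X1
    · rw [Set.indicator_of_mem hx]
      have : Prod.mk x ⁻¹' shBox m X0 X1 Y0 Y1 = Set.Icc (Y0 + m * x) (Y1 + m * x) := by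
        ext y
        simp only [Set.mem_preimage, shBox, Set.mem_ofPred_eq, Set.mem_Icc]
        constructor
        · rintro ⟨_, _, h3, h4⟩; exact ⟨by linarith, by linarith⟩
        · rintro ⟨h3, h4⟩; exact ⟨hx.1, hx.2, by linarith, by linarith⟩
      rw [this, Real.volume_Icc]
      congr 1; ring
    · rw [Set.indicator_of_notMem hx]
      have : Prod.mk x ⁻¹' shBox m X0 X1 Y0 Y1 = ∅ := by
        ext y
        simp only [Set.mem_preimage, shBox, Set.mem_ofPred_eq, Set.mem_empty_iff_false, iff_false]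
        rintro ⟨h1, h2, _, _⟩
        exact hx ⟨h1, h2⟩
      rw [this, measure_empty]
  simp_rw [h]
  rw [lintegral_indicator measurableSet_Icc, lintegral_const, Measure.restrict_apply_univ,
    Real.volume_Icc, mul_comm]

/-- The linear map sending the standard basis to `a`, `b`. -/
noncomputable def lmap (a b : ℝ × ℝ) : (ℝ × ℝ) →ₗ[ℝ] (ℝ × ℝ) :=
  Matrix.toLin (Module.Basis.finTwoProd ℝ) (Module.Basis.finTwoProd ℝ) !![a.1, b.1; a.2, b.2]

theorem lmap_apply (a b z : ℝ × ℝ) : lmap a b z = z.1 • a + z.2 • b := by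
  unfold lmap
  rw [Matrix.toLin_finTwoProd_apply]
  ext
  · simp only [Prod.fst_add, Prod.smul_fst, smul_eq_mul]; ring
  · simp only [Prod.snd_add, Prod.smul_snd, smul_eq_mul]; ring

theorem det_lmap (a b : ℝ × ℝ) : LinearMap.det (lmap a b) = det a b := by
  unfold lmap
  rw [LinearMap.det_toLin, Matrix.det_fin_two_of]
  unfold det; ring

/-- The parallelogram with corner `p` and sides `a`, `b`. -/
def para (p a b : ℝ × ℝ) : Set (ℝ × ℝ) :=
  {z | ∃ σ τ : ℝ, 0 ≤ σ ∧ σ ≤ 1 ∧ 0 ≤ τ ∧ τ ≤ 1 ∧ z = p + σ • a + τ • b}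

theorem para_eq (p a b : ℝ × ℝ) :
    para p a b = (fun z => p + z) '' (lmap a b '' (Set.Icc (0 : ℝ) 1 ×ˢ Set.Icc (0 : ℝ) 1)) := by
  ext z
  constructor
  · rintro ⟨σ, τ, h1, h2, h3, h4, rfl⟩
    refine ⟨_, ⟨(σ, τ), ⟨⟨h1, h2⟩, ⟨h3, h4⟩⟩, rfl⟩, ?_⟩
    change p + lmap a b (σ, τ) = _
    rw [lmap_apply, add_assoc]
  · rintro ⟨_, ⟨⟨σ, τ⟩, ⟨⟨h1, h2⟩, ⟨h3, h4⟩⟩, rfl⟩, rfl⟩
    refine ⟨σ, τ, h1, h2, h3, h4, ?_⟩
    change p + lmap a b (σ, τ) = _
    rw [lmap_apply, add_assoc]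

theorem volume_para (p a b : ℝ × ℝ) : volume (para p a b) = ENNReal.ofReal |det a b| := by
  rw [para_eq, Set.image_add_left, measure_preimage_add, Measure.addHaar_image_linearMap, det_lmap,
    Measure.volume_eq_prod, Measure.prod_prod, Real.volume_Icc]
  simp

theorem isCompact_para (p a b : ℝ × ℝ) : IsCompact (para p a b) := by
  rw [para_eq]
  refine IsCompact.image (IsCompact.image (isCompact_Icc.prod isCompact_Icc) ?_) (by fun_prop)
  exact (lmap a b).continuous_of_finiteDimensional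

theorem convex_para (p a b : ℝ × ℝ) : Convex ℝ (para p a b) := by
  rw [para_eq]
  refine Convex.translate ?_ p
  exact ((convex_Icc 0 1).prod (convex_Icc 0 1)).linear_image _

theorem volume_smul (r : ℝ) (A : Set (ℝ × ℝ)) :
    volume (r • A) = ENNReal.ofReal (r ^ 2) * volume A := by
  have h : Module.finrank ℝ (ℝ × ℝ) = 2 := by simp
  rw [Measure.addHaar_smul, h, abs_of_nonneg (sq_nonneg r)]

theorem volume_translate (p : ℝ × ℝ) (A : Set (ℝ × ℝ)) :
    volume ((fun z => p + z) '' A) = volume A := by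
  rw [Set.image_add_left, measure_preimage_add]

end Pool.Agent.Lib.MP_eb03ca_co
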