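import Mathlib
import Pool.Agent.Lib.MP_eb03ca_co.Vol

/-!
Basic facts on `maxArea` and the lower bound by periodic rows (problem MP_eb03ca_co).
-/

set_option autoImplicit false

open scoped Pointwise
open MeasureTheory

namespace Pool.Agent.Lib.MP_eb03ca_co

variable {K : Set (ℝ × ℝ)}

theorem IsCovered.of_finset {n : ℕ} {D : Set (ℝ × ℝ)} (hD : IsCompact D) (hDc : Convex ℝ D)
    {S : Finset (ℝ × ℝ)} (hS : S.card ≤ n) (hcov : ∀ z ∈ D, ∃ c ∈ S, z - c ∈ K) :
    IsCovered K n D := by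
  refine ⟨hD, hDc, fun i => if h : (i : ℕ) < S.card then (S.equivFin.symm ⟨i, h⟩ : ℝ × ℝ) else 0,
    ?_⟩
  intro z hz
  obtain ⟨c, hcS, hc⟩ := hcov z hz
  rw [Set.mem_iUnion]
  have hlt := (S.equivFin ⟨c, hcS⟩).2
  refine ⟨⟨S.equivFin ⟨c, hcS⟩, hlt.trans_le hS⟩, z - c, hc, ?_⟩
  simp

theorem IsCovered.to_finset {n : ℕ} {D : Set (ℝ × ℝ)} (h : IsCovered K n D) :
    ∃ S : Finset (ℝ × ℝ), S.card ≤ n ∧ ∀ z ∈ D, ∃ c ∈ S, z - c ∈ K := by
  classical
  obtain ⟨_, _, c, hc⟩ := h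
  refine ⟨Finset.univ.image c, ?_, ?_⟩
  · exact Finset.card_image_le.trans (by simp)
  · intro z hz
    obtain ⟨i, w, hw, hwz⟩ := Set.mem_iUnion.1 (hc hz)
    refine ⟨c i, Finset.mem_image_of_mem _ (Finset.mem_univ _), ?_⟩
    have : z - c i = w := by rw [← hwz]; simp
    rw [this]; exact hw

theorem isCompact_par (hK : IsCompact K) {D : Set (ℝ × ℝ)} (hD : IsCompact D) (θ : ℝ) :
    IsCompact (D + θ • K) :=
  hD.add (hK.smul θ)

theorem area_par_le (hK : IsCompact K) (θ : ℝ) {D : Set (ℝ × ℝ)}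
    {S : Finset (ℝ × ℝ)} (hcov : ∀ z ∈ D, ∃ c ∈ S, z - c ∈ K) :
    area (D + θ • K) ≤ S.card * area (K + θ • K) := by
  have hsub : D + θ • K ⊆ ⋃ c ∈ S, (fun z => c + z) '' (K + θ • K) := by
    rintro _ ⟨z, hz, w, hw, rfl⟩
    obtain ⟨c, hcS, hc⟩ := hcov z hz
    refine Set.mem_biUnion hcS ⟨(z - c) + w, ⟨z - c, hc, w, hw, rfl⟩, ?_⟩
    change c + (z - c + w) = z + w
    abel
  have hfin : volume (K + θ • K) ≠ ⊤ := (isCompact_par hK hK θ).measure_ne_top
  have h1 : volume (D + θ • K) ≤ S.card * volume (K + θ • K) := by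
    refine (measure_mono hsub).trans ((measure_biUnion_finset_le _ _).trans ?_)
    simp_rw [volume_translate]
    rw [Finset.sum_const, nsmul_eq_mul]
  unfold area
  have h2 := ENNReal.toReal_mono (ENNReal.mul_ne_top (ENNReal.natCast_ne_top _) hfin) h1
  rw [ENNReal.toReal_mul, ENNReal.toReal_natCast] at h2
  exact h2

theorem area_nonneg (A : Set (ℝ × ℝ)) : 0 ≤ area A := ENNReal.toReal_nonneg

theorem isCovered_empty (n : ℕ) : IsCovered K n ∅ :=
  ⟨isCompact_empty, convex_empty, fun _ => 0, Set.empty_subset _⟩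

theorem bddAbove_areas (hK : IsCompact K) (θ : ℝ) (n : ℕ) :
    BddAbove {a : ℝ | ∃ D : Set (ℝ × ℝ), IsCovered K n D ∧ a = area (D + θ • K)} := by
  refine ⟨n * area (K + θ • K), ?_⟩
  rintro _ ⟨D, hD, rfl⟩
  obtain ⟨S, hSn, hS⟩ := hD.to_finset
  refine (area_par_le hK θ hS).trans ?_
  exact mul_le_mul_of_nonneg_right (by exact_mod_cast hSn) (area_nonneg _)

theorem le_maxArea (hK : IsCompact K) (θ : ℝ) {n : ℕ} {D : Set (ℝ × ℝ)} (hD : IsCovered K n D) :
    area (D + θ • K) ≤ maxArea K θ n :=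
  le_csSup (bddAbove_areas hK θ n) ⟨D, hD, rfl⟩

theorem maxArea_le (θ : ℝ) {n : ℕ} {b : ℝ}
    (h : ∀ D, IsCovered K n D → area (D + θ • K) ≤ b) : maxArea K θ n ≤ b := by
  apply csSup_le
  · exact ⟨_, ∅, isCovered_empty n, rfl⟩
  · rintro _ ⟨D, hD, rfl⟩
    exact h D hD

theorem maxArea_nonneg (hK : IsCompact K) (θ : ℝ) (n : ℕ) : 0 ≤ maxArea K θ n :=
  (area_nonneg _).trans (le_maxArea hK θ (isCovered_empty n))

theorem IsCovered.mono {m n : ℕ} (hmn : m ≤ n) {D : Set (ℝ × ℝ)} (hD : IsCovered K m D) :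
    IsCovered K n D := by
  obtain ⟨S, hSn, hS⟩ := hD.to_finset
  exact IsCovered.of_finset hD.1 hD.2.1 (hSn.trans hmn) hS

theorem maxArea_mono (hK : IsCompact K) (θ : ℝ) {m n : ℕ} (hmn : m ≤ n) :
    maxArea K θ m ≤ maxArea K θ n :=
  maxArea_le θ fun _ hD => le_maxArea hK θ (hD.mono hmn)

theorem CovBy.nonempty {S : Finset (ℝ × ℝ)} {p f e : ℝ × ℝ} (h : CovBy K S p f e) :
    S.Nonempty := by
  obtain ⟨c, hc, _⟩ := h 0 0 le_rfl zero_le_one le_rfl zero_le_one
  exact ⟨c, hc⟩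

theorem rows_lower (hK : IsCompact K) (hc : Convex ℝ K) (θ : ℝ)
    {S : Finset (ℝ × ℝ)} {p f e s t : ℝ × ℝ} (hcov : CovBy K S p f e) (hs : s ∈ K) (ht : t ∈ K)
    (k : ℕ) : k * (det f e + θ * det f (s - t)) ≤ maxArea K θ (k * S.card) := by
  classical
  rcases Nat.eq_zero_or_pos k with hk | hk
  · subst hk
    simp only [Nat.cast_zero, zero_mul]
    exact maxArea_nonneg hK θ _
  have hkR : (0 : ℝ) < k := by exact_mod_cast hk
  have hD : IsCovered K (k * S.card) (para p ((k : ℝ) • f) e) := by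
    refine IsCovered.of_finset (S := (S ×ˢ Finset.range k).image
      (fun q : (ℝ × ℝ) × ℕ => q.1 + (q.2 : ℝ) • f)) (isCompact_para _ _ _) (convex_para _ _ _)
      ?_ ?_
    · refine Finset.card_image_le.trans (le_of_eq ?_)
      rw [Finset.card_product, Finset.card_range, mul_comm]
    · rintro z ⟨σ, τ, h1, h2, h3, h4, rfl⟩
      obtain ⟨j, hj, j1, j2⟩ := exists_cell hk (x := σ * k) (by positivity) (by nlinarith)
      obtain ⟨c, hcS, hc⟩ := hcov (σ * k - j) τ j1 j2 h3 h4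
      refine ⟨c + (j : ℝ) • f, ?_, ?_⟩
      · rw [Finset.mem_image]
        exact ⟨(c, j), by simp [hcS, hj], rfl⟩
      · convert hc using 1
        ext
        · simp only [Prod.fst_sub, Prod.fst_add, Prod.smul_fst, smul_eq_mul]; ring
        · simp only [Prod.snd_sub, Prod.snd_add, Prod.smul_snd, smul_eq_mul]; ring
  refine le_trans ?_ (le_maxArea hK θ hD)
  have hsub : para (p + θ • t) ((k : ℝ) • f) (e + θ • (s - t)) ⊆
      para p ((k : ℝ) • f) e + θ • K := by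
    rintro z ⟨σ, τ, h1, h2, h3, h4, rfl⟩
    refine ⟨p + σ • ((k : ℝ) • f) + τ • e, ⟨σ, τ, h1, h2, h3, h4, rfl⟩,
      θ • (τ • s + (1 - τ) • t), ?_, ?_⟩
    · exact Set.smul_mem_smul_set (hc hs ht h3 (by linarith) (by ring))
    · ext
      · simp only [Prod.fst_add, Prod.smul_fst, smul_eq_mul, Prod.fst_sub]; ring
      · simp only [Prod.snd_add, Prod.smul_snd, smul_eq_mul, Prod.snd_sub]; ring
  have hfin : volume (para p ((k : ℝ) • f) e + θ • K) ≠ ⊤ :=
    (isCompact_par hK (isCompact_para _ _ _) θ).measure_ne_top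
  have h1 := ENNReal.toReal_mono hfin (measure_mono hsub)
  rw [volume_para, ENNReal.toReal_ofReal (abs_nonneg _)] at h1
  refine le_trans ?_ h1
  refine le_trans (le_of_eq ?_) (le_abs_self _)
  simp only [det, Prod.fst_add, Prod.snd_add, Prod.smul_fst, Prod.smul_snd, smul_eq_mul,
    Prod.fst_sub, Prod.snd_sub]
  ring

/-- The value of a covered parallelogram is a lower bound for the growth rate. -/
theorem rows_lower' (hK : IsCompact K) (hc : Convex ℝ K) (θ : ℝ)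
    {S : Finset (ℝ × ℝ)} {p f e s t : ℝ × ℝ} (hcov : CovBy K S p f e) (hs : s ∈ K) (ht : t ∈ K)
    {r : ℝ} (hr0 : 0 ≤ r) (hr : r * S.card ≤ det f e + θ * det f (s - t)) (n : ℕ) :
    r * (n - S.card) ≤ maxArea K θ n := by
  have hpos : 0 < S.card := hcov.nonempty.card_pos
  have h1 := rows_lower hK hc θ hcov hs ht (n / S.card)
  have h2 := maxArea_mono hK θ (Nat.div_mul_le_self n S.card)
  refine le_trans ?_ (h1.trans h2)
  have h3 : ((n / S.card : ℕ) : ℝ) * (r * S.card)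
      ≤ ((n / S.card : ℕ) : ℝ) * (det f e + θ * det f (s - t)) :=
    mul_le_mul_of_nonneg_left hr (Nat.cast_nonneg _)
  refine le_trans ?_ h3
  have h4 : (n : ℝ) - S.card ≤ ((n / S.card : ℕ) : ℝ) * S.card := by
    have h5 : n < (n / S.card) * S.card + S.card := Nat.lt_div_mul_add hpos
    have h6 : (n : ℝ) < ((n / S.card : ℕ) : ℝ) * S.card + S.card := by exact_mod_cast h5
    linarith
  calc r * (n - S.card) ≤ r * (((n / S.card : ℕ) : ℝ) * S.card) :=
        mul_le_mul_of_nonneg_left h4 hr0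
    _ = ((n / S.card : ℕ) : ℝ) * (r * S.card) := by ring

end Pool.Agent.Lib.MP_eb03ca_co
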