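import Mathlib
import Pool.Agent.Lib.MP_eb03ca_co.Basic

/-!
Upper bound for the area of `D + θ K` when `D` is long in the first coordinate direction
(problem MP_eb03ca_co).
-/

set_option autoImplicit false

open scoped Pointwise
open MeasureTheory

namespace Pool.Agent.Lib.MP_eb03ca_co

variable {K : Set (ℝ × ℝ)}

/-- Inner segments: on the vertical line `z.1 = x`, the points which stay in `D` after adding
`g`. -/
theorem exists_inner {D : Set (ℝ × ℝ)} (hD : IsCompact D) {q g : ℝ × ℝ} (hq : q ∈ D)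
    (hqg : q + g ∈ D) :
    ∃ a b : ℝ, a ≤ b ∧ (q.1, a) ∈ D ∧ (q.1, a) + g ∈ D ∧ (q.1, b) ∈ D ∧ (q.1, b) + g ∈ D ∧
      ∀ y : ℝ, (q.1, y) ∈ D → (q.1, y) + g ∈ D → a ≤ y ∧ y ≤ b := by
  set I : Set ℝ := {y | ((q.1, y) : ℝ × ℝ) ∈ D ∧ ((q.1, y) : ℝ × ℝ) + g ∈ D} with hI
  have hclosed : IsClosed I := by
    have c1 : Continuous (fun y : ℝ => ((q.1, y) : ℝ × ℝ)) := by fun_prop
    have c2 : Continuous (fun y : ℝ => ((q.1, y) : ℝ × ℝ) + g) := by fun_prop
    exact (hD.isClosed.preimage c1).inter (hD.isClosed.preimage c2)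
  have hsub : I ⊆ Prod.snd '' D := fun y hy => ⟨_, hy.1, rfl⟩
  have hcomp : IsCompact I := (hD.image continuous_snd).of_isClosed_subset hclosed hsub
  have hne : I.Nonempty := ⟨q.2, hq, hqg⟩
  obtain ⟨a, ha⟩ := hcomp.exists_isLeast hne
  obtain ⟨b, hb⟩ := hcomp.exists_isGreatest hne
  exact ⟨a, b, ha.2 hb.1, ha.1.1, ha.1.2, hb.1.1, hb.1.2,
    fun y h1 h2 => ⟨ha.2 ⟨h1, h2⟩, hb.2 ⟨h1, h2⟩⟩⟩

/-- The main estimate with slabs. -/
theorem slab_bound (hK : IsCompact K) (hne : K.Nonempty) (hc : Convex ℝ K)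
    {θ u : ℝ} (hθ : 0 ≤ θ) (hu : ParaBound K θ u)
    {D : Set (ℝ × ℝ)} (hD : IsCompact D) (hDc : Convex ℝ D) {S : Finset (ℝ × ℝ)}
    (hcov : ∀ z ∈ D, ∃ c ∈ S, z - c ∈ K) {P0 P1 : ℝ × ℝ} (hP0 : P0 ∈ D) (hP1 : P1 ∈ D)
    (hP : ∀ z ∈ D, P0.1 ≤ z.1 ∧ z.1 ≤ P1.1) {k0 k1 κ : ℝ} (hk : ∀ z ∈ K, k0 ≤ z.1 ∧ z.1 ≤ k1)
    (hκ : k1 - k0 < κ) {J : ℕ} (hJ : 2 ≤ J) {ℓ : ℝ} (hℓ : P1.1 - P0.1 = J * ℓ) (hℓκ : κ < ℓ) :
    (1 - 2 / (J : ℝ)) ^ 2 * (ℓ - κ) * area (D + θ • K) ≤ (ℓ + θ * κ) * (u * S.card) := by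
  classical
  obtain ⟨z0, hz0⟩ := hne
  have hk01 : k0 ≤ k1 := (hk z0 hz0).1.trans (hk z0 hz0).2
  have hκ0 : 0 < κ := by linarith
  have hℓ0 : 0 < ℓ := by linarith
  have hJ0 : (0 : ℝ) < J := by exact_mod_cast (by omega : 0 < J)
  set F := P1 - P0 with hF
  have hF1 : F.1 = J * ℓ := by rw [hF, Prod.fst_sub, hℓ]
  set g : ℝ × ℝ := (J : ℝ)⁻¹ • F with hg
  have hg1 : g.1 = ℓ := by
    rw [hg, Prod.smul_fst, hF1, smul_eq_mul]; field_simp
  set m : ℝ := g.2 / ℓ with hm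
  have hg2 : g.2 = m * ℓ := by rw [hm]; field_simp
  -- points of the chord
  have hchord : ∀ r : ℝ, 0 ≤ r → r ≤ J → P0 + r • g ∈ D := by
    intro r hr0 hr1
    have := hDc hP0 hP1 (a := 1 - r / J) (b := r / J) (by
      rw [sub_nonneg, div_le_one hJ0]; exact hr1) (by positivity) (by ring)
    convert this using 1
    ext
    · simp only [hg, hF, Prod.fst_add, Prod.smul_fst, smul_eq_mul, Prod.fst_sub]
      field_simp; ring
    · simp only [hg, hF, Prod.snd_add, Prod.smul_snd, smul_eq_mul, Prod.snd_sub]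
      field_simp; ring
  -- sheared extent of `K`
  have hcont : Continuous (fun z : ℝ × ℝ => z.2 - m * z.1) := by fun_prop
  obtain ⟨s, hs, hsmax⟩ := hK.exists_isMaxOn ⟨z0, hz0⟩ hcont.continuousOn
  obtain ⟨t, ht, htmin⟩ := hK.exists_isMinOn ⟨z0, hz0⟩ hcont.continuousOn
  have hsmax' : ∀ z ∈ K, z.2 - m * z.1 ≤ s.2 - m * s.1 := fun z hz => hsmax hz
  have htmin' : ∀ z ∈ K, t.2 - m * t.1 ≤ z.2 - m * z.1 := fun z hz => htmin hz
  set w : ℝ := (s.2 - m * s.1) - (t.2 - m * t.1) with hw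
  have hw0 : 0 ≤ w := by
    have := hsmax' t ht
    rw [hw]; linarith
  -- inner segments
  have hin : ∀ j : ℕ, ∃ a b : ℝ, j < J → (a ≤ b ∧ (P0.1 + j * ℓ, a) ∈ D ∧
      (P0.1 + j * ℓ, a) + g ∈ D ∧ (P0.1 + j * ℓ, b) ∈ D ∧ (P0.1 + j * ℓ, b) + g ∈ D ∧
      ∀ y : ℝ, (P0.1 + j * ℓ, y) ∈ D → (P0.1 + j * ℓ, y) + g ∈ D → a ≤ y ∧ y ≤ b) := by
    intro j
    by_cases hj : j < J
    · have hjR : (j : ℝ) + 1 ≤ J := by exact_mod_cast hj
      have h1 := hchord j (Nat.cast_nonneg _) (by linarith)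
      have h2 := hchord (j + 1) (by positivity) hjR
      have e : P0 + ((j : ℝ) + 1) • g = P0 + (j : ℝ) • g + g := by
        rw [add_smul, one_smul, add_assoc]
      rw [e] at h2
      obtain ⟨a, b, h⟩ := exists_inner hD h1 h2
      have e2 : (P0 + (j : ℝ) • g).1 = P0.1 + j * ℓ := by
        rw [Prod.fst_add, Prod.smul_fst, smul_eq_mul, hg1]
      rw [e2] at h
      exact ⟨a, b, fun _ => h⟩
    · exact ⟨0, 0, fun h => absurd h hj⟩
  choose a b hab using hin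
  -- inner boxes lie in `D`
  have hbox : ∀ j < J, ∀ σ τ : ℝ, 0 ≤ σ → σ ≤ 1 → 0 ≤ τ → τ ≤ 1 →
      (P0.1 + j * ℓ, a j) + σ • g + τ • ((0, b j - a j) : ℝ × ℝ) ∈ D := by
    intro j hj σ τ h1 h2 h3 h4
    obtain ⟨_, d1, d2, d3, d4, _⟩ := hab j hj
    have e1 := hDc d1 d3 (a := 1 - τ) (b := τ) (by linarith) h3 (by ring)
    have e2 := hDc d2 d4 (a := 1 - τ) (b := τ) (by linarith) h3 (by ring)
    have e3 := hDc e1 e2 (a := 1 - σ) (b := σ) (by linarith) h1 (by ring)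
    convert e3 using 1
    ext
    · simp only [Prod.fst_add, Prod.smul_fst, smul_eq_mul]; ring
    · simp only [Prod.snd_add, Prod.smul_snd, smul_eq_mul]; ring
  -- shrunken boxes
  set lam : ℝ := (ℓ - κ) / ℓ with hlam
  have hlam0 : 0 < lam := div_pos (by linarith) hℓ0
  have hlam1 : lam ≤ 1 := by rw [hlam, div_le_one hℓ0]; linarith
  have hlamℓ : lam * ℓ = ℓ - κ := by rw [hlam]; field_simp
  set T : ℕ → Finset (ℝ × ℝ) := fun j => S.filter (fun c => ∃ σ τ : ℝ, 0 ≤ σ ∧ σ ≤ 1 ∧ 0 ≤ τ ∧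
    τ ≤ 1 ∧ (P0.1 + j * ℓ, a j) + σ • (lam • g) + τ • ((0, b j - a j) : ℝ × ℝ) - c ∈ K) with hT
  have hTcov : ∀ j < J, CovBy K (T j) (P0.1 + j * ℓ, a j) (lam • g) (0, b j - a j) := by
    intro j hj σ τ h1 h2 h3 h4
    have hmem := hbox j hj (σ * lam) τ (by positivity) (by nlinarith) h3 h4
    rw [mul_smul] at hmem
    obtain ⟨c, hcS, hc⟩ := hcov _ hmem
    exact ⟨c, Finset.mem_filter.2 ⟨hcS, σ, τ, h1, h2, h3, h4, hc⟩, hc⟩
  have hTval : ∀ j < J, (ℓ - κ) * (b j - a j + θ * w) ≤ u * (T j).card := by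
    intro j hj
    have := hu (T j) _ _ _ s t (hTcov j hj) hs ht
    refine le_trans (le_of_eq ?_) this
    simp only [det, Prod.smul_fst, Prod.smul_snd, smul_eq_mul, hg1, hg2, Prod.fst_sub,
      Prod.snd_sub]
    rw [hw, ← hlamℓ]; ring
  have hTdisj : ∀ j ∈ Finset.range J, ∀ k ∈ Finset.range J, j ≠ k → Disjoint (T j) (T k) := by
    have key : ∀ j k : ℕ, j < k → Disjoint (T j) (T k) := by
      intro j k hjk
      rw [Finset.disjoint_left]
      intro c hcj hck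
      obtain ⟨_, σ, τ, h1, h2, h3, h4, h5⟩ := Finset.mem_filter.1 hcj
      obtain ⟨_, σ', τ', h1', h2', h3', h4', h5'⟩ := Finset.mem_filter.1 hck
      have k1 := (hk _ h5).1
      have k2 := (hk _ h5').2
      simp only [Prod.fst_sub, Prod.fst_add, Prod.smul_fst, smul_eq_mul, mul_zero, hg1] at k1 k2
      have hjk' : (j : ℝ) + 1 ≤ k := by exact_mod_cast hjk
      have e1 : σ * (lam * ℓ) ≤ ℓ - κ := by
        rw [hlamℓ]
        have := mul_le_mul_of_nonneg_right h2 (by linarith : 0 ≤ ℓ - κ)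
        linarith
      have e2 : 0 ≤ σ' * (lam * ℓ) := by positivity
      have e3 := mul_le_mul_of_nonneg_right hjk' hℓ0.le
      linarith
    intro j _ k _ hjk
    rcases lt_or_gt_of_ne hjk with h | h
    · exact key j k h
    · exact (key k j h).symm
  have hTsum : ∑ j ∈ Finset.range J, (T j).card ≤ S.card := by
    rw [← Finset.card_biUnion hTdisj]
    apply Finset.card_le_card
    intro c hc
    rw [Finset.mem_biUnion] at hc
    obtain ⟨j, _, hj⟩ := hc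
    exact (Finset.mem_filter.1 hj).1
  have hinner : (ℓ - κ) * ∑ j ∈ Finset.range J, (b j - a j + θ * w) ≤ u * S.card := by
    have hu0 : 0 ≤ u := by
      have h0 : CovBy K {(0 : ℝ × ℝ)} z0 0 0 := by
        intro σ τ _ _ _ _
        exact ⟨0, Finset.mem_singleton_self _, by simpa using hz0⟩
      have := hu _ _ _ _ z0 z0 h0 hz0 hz0
      simpa [det] using this
    rw [Finset.mul_sum]
    calc ∑ j ∈ Finset.range J, (ℓ - κ) * (b j - a j + θ * w)
        ≤ ∑ j ∈ Finset.range J, u * ((T j).card : ℝ) :=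
          Finset.sum_le_sum fun j hj => hTval j (Finset.mem_range.1 hj)
      _ = u * ((∑ j ∈ Finset.range J, (T j).card : ℕ) : ℝ) := by
          rw [← Finset.mul_sum]; push_cast; rfl
      _ ≤ u * S.card := mul_le_mul_of_nonneg_left (by exact_mod_cast hTsum) hu0
  -- outer estimate
  set δ : ℝ := 2 / J with hδ
  have hδ0 : 0 < δ := by positivity
  have hδ1 : δ ≤ 1 := by
    rw [hδ, div_le_one hJ0]; exact_mod_cast hJ
  have hδJ : δ * J = 2 := by rw [hδ]; field_simp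
  have houter : ∀ z ∈ D, ∃ j < J,
      P0.1 + j * ℓ ≤ ((1 - δ) • z + (δ / 2) • (P0 + P1)).1 ∧
      ((1 - δ) • z + (δ / 2) • (P0 + P1)).1 ≤ P0.1 + j * ℓ + ℓ ∧
      a j - m * (P0.1 + j * ℓ) ≤ ((1 - δ) • z + (δ / 2) • (P0 + P1)).2
        - m * ((1 - δ) • z + (δ / 2) • (P0 + P1)).1 ∧
      ((1 - δ) • z + (δ / 2) • (P0 + P1)).2
        - m * ((1 - δ) • z + (δ / 2) • (P0 + P1)).1 ≤ b j - m * (P0.1 + j * ℓ) := by
    intro z hz
    set z' := (1 - δ) • z + (δ / 2) • (P0 + P1) with hz'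
    have hzP := hP z hz
    have e1 : z'.1 = (1 - δ) * z.1 + δ / 2 * (P0.1 + P1.1) := by
      simp only [hz', Prod.fst_add, Prod.smul_fst, smul_eq_mul]
    have h1δ : (0 : ℝ) ≤ 1 - δ := by linarith
    have m1 := mul_nonneg h1δ (sub_nonneg.2 hzP.1)
    have m2 := mul_nonneg h1δ (sub_nonneg.2 hzP.2)
    have m3 := mul_nonneg hδ0.le (sub_nonneg.2 (hzP.1.trans hzP.2))
    have hlow : P0.1 ≤ z'.1 := by
      have : z'.1 - P0.1 = (1 - δ) * (z.1 - P0.1) + δ * (P1.1 - P0.1) / 2 := by rw [e1]; ring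
      linarith
    have hup : z'.1 ≤ P1.1 := by
      have : P1.1 - z'.1 = (1 - δ) * (P1.1 - z.1) + δ * (P1.1 - P0.1) / 2 := by rw [e1]; ring
      linarith
    obtain ⟨j, hj, j1, j2⟩ := exists_cell (M := J) (by omega) (x := (z'.1 - P0.1) / ℓ)
      (div_nonneg (by linarith) hℓ0.le) (by rw [div_le_iff₀ hℓ0]; linarith)
    set α : ℝ := (z'.1 - P0.1) / ℓ - j with hα
    have hα' : z'.1 = P0.1 + j * ℓ + α * ℓ := by rw [hα]; field_simp; ring
    have m4 : 0 ≤ α * ℓ := mul_nonneg j1 hℓ0.le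
    have m5 : α * ℓ ≤ ℓ := by
      have := mul_le_mul_of_nonneg_right j2 hℓ0.le
      rw [one_mul] at this
      exact this
    refine ⟨j, hj, by linarith, by linarith, ?_⟩
    -- the two points on the vertical lines
    have hq : ∀ r : ℝ, -1 ≤ r → r ≤ 1 → z' + r • g ∈ D := by
      intro r hr0 hr1
      have m6 := mul_nonneg (by linarith : (0 : ℝ) ≤ 1 + r) hJ0.le
      have m7 := mul_nonneg (by linarith : (0 : ℝ) ≤ 1 - r) hJ0.le
      have hch := hchord (J / 2 + r * (J / 2)) (by linarith) (by linarith)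
      have := hDc hz hch (a := 1 - δ) (b := δ) (by linarith) hδ0.le (by ring)
      convert this using 1
      have hP1e : P1 = P0 + (J : ℝ) • g := by
        rw [hg, smul_smul, mul_inv_cancel₀ hJ0.ne', one_smul, hF]; abel
      have e3 : δ * (J / 2 + r * (J / 2)) = 1 + r := by
        rw [hδ]; field_simp
      rw [hz', hP1e]
      ext
      · simp only [Prod.fst_add, Prod.smul_fst, smul_eq_mul]
        linear_combination (1 / 2 * g.1) * hδJ - g.1 * e3
      · simp only [Prod.snd_add, Prod.smul_snd, smul_eq_mul]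
        linear_combination (1 / 2 * g.2) * hδJ - g.2 * e3
    have q1 := hq (-α) (by linarith) (by linarith)
    have q2 := hq (1 - α) (by linarith) (by linarith)
    have e4 : z' + (-α) • g = (P0.1 + j * ℓ, z'.2 - α * g.2) := by
      ext
      · simp only [Prod.fst_add, Prod.smul_fst, smul_eq_mul, hg1]; linarith
      · simp only [Prod.snd_add, Prod.smul_snd, smul_eq_mul]; ring
    have e5 : z' + (1 - α) • g = (P0.1 + j * ℓ, z'.2 - α * g.2) + g := by
      rw [← e4]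
      module
    rw [e4] at q1
    rw [e5] at q2
    obtain ⟨_, _, _, _, _, hlast⟩ := hab j hj
    obtain ⟨r1, r2⟩ := hlast _ q1 q2
    have e7 : α * g.2 = m * (α * ℓ) := by rw [hg2]; ring
    rw [e7] at r1 r2
    rw [hα', mul_add]
    constructor <;> linarith
  -- volume comparison
  have hvol : ENNReal.ofReal ((1 - δ) ^ 2) * volume (D + θ • K) ≤
      ∑ j ∈ Finset.range J, ENNReal.ofReal ((ℓ + θ * (k1 - k0)) * (b j - a j + θ * w)) := by
    rw [← volume_smul, ← volume_translate ((δ / 2) • (P0 + P1) + (θ * δ) • z0)]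
    have hsub : (fun z => (δ / 2) • (P0 + P1) + (θ * δ) • z0 + z) '' ((1 - δ) • (D + θ • K)) ⊆
        ⋃ j ∈ Finset.range J, shBox m (P0.1 + j * ℓ + θ * k0) (P0.1 + j * ℓ + ℓ + θ * k1)
          (a j - m * (P0.1 + j * ℓ) + θ * (t.2 - m * t.1))
          (b j - m * (P0.1 + j * ℓ) + θ * (s.2 - m * s.1)) := by
      rintro _ ⟨_, ⟨_, ⟨z, hz, _, ⟨v, hv, rfl⟩, rfl⟩, rfl⟩, rfl⟩
      obtain ⟨j, hj, c1, c2, c3, c4⟩ := houter z hz
      refine Set.mem_biUnion (Finset.mem_coe.2 (Finset.mem_range.2 hj)) ?_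
      set z' := (1 - δ) • z + (δ / 2) • (P0 + P1) with hz'
      have hv' : (1 - δ) • v + δ • z0 ∈ K := hc hv hz0 (by linarith) hδ0.le (by ring)
      set v' := (1 - δ) • v + δ • z0 with hv'def
      have e6 : (δ / 2) • (P0 + P1) + (θ * δ) • z0 + (1 - δ) • (z + θ • v) = z' + θ • v' := by
        rw [hz', hv'def]
        ext
        · simp only [Prod.fst_add, Prod.smul_fst, smul_eq_mul]; ring
        · simp only [Prod.snd_add, Prod.smul_snd, smul_eq_mul]; ring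
      change (δ / 2) • (P0 + P1) + (θ * δ) • z0 + (1 - δ) • (z + θ • v) ∈ _
      rw [e6]
      have k1' := hk v' hv'
      have k2' := hsmax' v' hv'
      have k3' := htmin' v' hv'
      have f1 : (z' + θ • v').1 = z'.1 + θ * v'.1 := by
        simp only [Prod.fst_add, Prod.smul_fst, smul_eq_mul]
      have f2 : (z' + θ • v').2 = z'.2 + θ * v'.2 := by
        simp only [Prod.snd_add, Prod.smul_snd, smul_eq_mul]
      have g1 := mul_le_mul_of_nonneg_left k1'.1 hθ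
      have g2 := mul_le_mul_of_nonneg_left k1'.2 hθ
      have g3 := mul_le_mul_of_nonneg_left k2' hθ
      have g4 := mul_le_mul_of_nonneg_left k3' hθ
      refine ⟨?_, ?_, ?_, ?_⟩
      · rw [f1]; linarith
      · rw [f1]; linarith
      · rw [f1, f2]
        have e8 : z'.2 + θ * v'.2 - m * (z'.1 + θ * v'.1)
            = (z'.2 - m * z'.1) + θ * (v'.2 - m * v'.1) := by ring
        rw [e8]; linarith
      · rw [f1, f2]
        have e8 : z'.2 + θ * v'.2 - m * (z'.1 + θ * v'.1)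
            = (z'.2 - m * z'.1) + θ * (v'.2 - m * v'.1) := by ring
        rw [e8]; linarith
    refine (measure_mono hsub).trans ((measure_biUnion_finset_le _ _).trans ?_)
    apply Finset.sum_le_sum
    intro j hj
    obtain ⟨hab0, _⟩ := hab j (Finset.mem_range.1 hj)
    rw [volume_shBox, ← ENNReal.ofReal_mul (by nlinarith [mul_nonneg hθ (sub_nonneg.2 hk01)])]
    apply ENNReal.ofReal_le_ofReal
    apply le_of_eq
    rw [hw]; ring
  have hsumnn : ∀ j ∈ Finset.range J, 0 ≤ (ℓ + θ * (k1 - k0)) * (b j - a j + θ * w) := by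
    intro j hj
    obtain ⟨hab0, _⟩ := hab j (Finset.mem_range.1 hj)
    have : 0 ≤ θ * (k1 - k0) := mul_nonneg hθ (by linarith)
    have : 0 ≤ θ * w := mul_nonneg hθ hw0
    apply mul_nonneg <;> linarith
  rw [← ENNReal.ofReal_sum_of_nonneg hsumnn] at hvol
  have hareaeq : (1 - δ) ^ 2 * area (D + θ • K) ≤
      ∑ j ∈ Finset.range J, (ℓ + θ * (k1 - k0)) * (b j - a j + θ * w) := by
    have h1 := ENNReal.toReal_mono ENNReal.ofReal_ne_top hvol
    rw [ENNReal.toReal_mul, ENNReal.toReal_ofReal (by positivity),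
      ENNReal.toReal_ofReal (Finset.sum_nonneg hsumnn)] at h1
    exact h1
  rw [← Finset.mul_sum] at hareaeq
  set Sm := ∑ j ∈ Finset.range J, (b j - a j + θ * w) with hSm
  have hSm0 : 0 ≤ Sm := by
    apply Finset.sum_nonneg
    intro j hj
    obtain ⟨hab0, _⟩ := hab j (Finset.mem_range.1 hj)
    have : 0 ≤ θ * w := mul_nonneg hθ hw0
    linarith
  have hfac : 0 ≤ ℓ - κ := by linarith
  have hθκ : θ * (k1 - k0) ≤ θ * κ := mul_le_mul_of_nonneg_left hκ.le hθ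
  have hθκ0 : 0 ≤ θ * κ := by positivity
  calc (1 - δ) ^ 2 * (ℓ - κ) * area (D + θ • K)
      = (ℓ - κ) * ((1 - δ) ^ 2 * area (D + θ • K)) := by ring
    _ ≤ (ℓ - κ) * ((ℓ + θ * (k1 - k0)) * Sm) := mul_le_mul_of_nonneg_left hareaeq hfac
    _ ≤ (ℓ - κ) * ((ℓ + θ * κ) * Sm) := by
        apply mul_le_mul_of_nonneg_left _ hfac
        apply mul_le_mul_of_nonneg_right _ hSm0
        linarith
    _ = (ℓ + θ * κ) * ((ℓ - κ) * Sm) := by ring
    _ ≤ (ℓ + θ * κ) * (u * S.card) := mul_le_mul_of_nonneg_left hinner (by linarith)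

end Pool.Agent.Lib.MP_eb03ca_co
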