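import Mathlib
import Pool.Agent.Lib.MP_eb03ca_co.Slab

/-!
Upper bound for `maxArea` from a bound on covered parallelograms (problem MP_eb03ca_co).
-/

set_option autoImplicit false

open scoped Pointwise
open MeasureTheory

namespace Pool.Agent.Lib.MP_eb03ca_co

variable {K : Set (ℝ × ℝ)}

theorem paraBound_nonneg {θ u : ℝ} (hu : ParaBound K θ u) (hne : K.Nonempty) : 0 ≤ u := by
  obtain ⟨z0, hz0⟩ := hne
  have h0 : CovBy K {(0 : ℝ × ℝ)} z0 0 0 := by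
    intro σ τ _ _ _ _
    exact ⟨0, Finset.mem_singleton_self _, by simpa using hz0⟩
  have := hu _ _ _ _ z0 z0 h0 hz0 hz0
  simpa [det] using this

theorem big_x (hK : IsCompact K) (hne : K.Nonempty) (hc : Convex ℝ K) {B : ℝ} (hB : BdBy K B)
    {θ u : ℝ} (hθ : 0 ≤ θ) (hu : ParaBound K θ u) {ε : ℝ} (hε0 : 0 < ε) (hε1 : ε < 1) :
    ∃ ρ : ℝ, 0 < ρ ∧ ∀ (D : Set (ℝ × ℝ)) (S : Finset (ℝ × ℝ)), IsCompact D → Convex ℝ D →
      (∀ z ∈ D, ∃ c ∈ S, z - c ∈ K) → (∃ z ∈ D, ∃ z' ∈ D, ρ ≤ z'.1 - z.1) →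
      (1 - ε) ^ 3 * area (D + θ • K) ≤ (1 + ε) * (u * S.card) := by
  have hu0 := paraBound_nonneg hu hne
  have hB0 : 0 ≤ B := by
    obtain ⟨z0, hz0⟩ := hne
    exact (abs_nonneg _).trans (hB z0 hz0).1
  obtain ⟨J0, hJ0⟩ := exists_nat_gt (2 / ε)
  set J := J0 + 2 with hJ
  have hJR : (0 : ℝ) < J := by positivity
  have hJε : 2 / (J : ℝ) ≤ ε := by
    rw [div_le_iff₀ hJR]
    rw [div_lt_iff₀ hε0] at hJ0
    have : (J0 : ℝ) ≤ J := by exact_mod_cast (by omega : J0 ≤ J)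
    nlinarith
  set κ := 2 * B + 1 with hκ
  have hκ0 : 0 < κ := by linarith
  set ℓ0 := (κ + θ * κ) / ε with hℓ0
  have hℓ00 : 0 < ℓ0 := by positivity
  refine ⟨J * ℓ0, by positivity, ?_⟩
  intro D S hD hDc hcov ⟨z, hz, z', hz', hzz⟩
  obtain ⟨P0, hP0, hP0min⟩ := hD.exists_isMinOn ⟨z, hz⟩ continuous_fst.continuousOn
  obtain ⟨P1, hP1, hP1max⟩ := hD.exists_isMaxOn ⟨z, hz⟩ continuous_fst.continuousOn
  have hmin : ∀ w ∈ D, P0.1 ≤ w.1 := fun w hw => hP0min hw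
  have hmax : ∀ w ∈ D, w.1 ≤ P1.1 := fun w hw => hP1max hw
  set ℓ := (P1.1 - P0.1) / J with hℓ
  have hℓ1 : P1.1 - P0.1 = J * ℓ := by rw [hℓ]; field_simp
  have hℓ2 : ℓ0 ≤ ℓ := by
    rw [hℓ, le_div_iff₀ hJR]
    have := hmin z hz
    have := hmax z' hz'
    linarith
  have hℓ3 : κ + θ * κ ≤ ε * ℓ := by
    have h1 : κ + θ * κ = ε * ℓ0 := by rw [hℓ0]; field_simp
    rw [h1]
    exact mul_le_mul_of_nonneg_left hℓ2 hε0.le
  have hθκ : 0 ≤ θ * κ := by positivity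
  have hℓ4 : 0 < ℓ := hℓ00.trans_le hℓ2
  have hκℓ : κ < ℓ := by
    have : ε * ℓ < 1 * ℓ := mul_lt_mul_of_pos_right hε1 hℓ4
    linarith
  have key := slab_bound hK hne hc hθ hu hD hDc hcov hP0 hP1 (fun w hw => ⟨hmin w hw, hmax w hw⟩)
    (k0 := -B) (k1 := B) (κ := κ) (fun w hw => abs_le.1 (hB w hw).1) (by rw [hκ]; linarith)
    (J := J) (by omega) hℓ1 hκℓ
  have ha := area_nonneg (D + θ • K)
  have h1 : (1 - ε) ^ 2 ≤ (1 - 2 / (J : ℝ)) ^ 2 := by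
    apply pow_le_pow_left₀ (by linarith)
    linarith
  have h2 : (1 - ε) * ℓ ≤ ℓ - κ := by
    have : (1 - ε) * ℓ = ℓ - ε * ℓ := by ring
    rw [this]; linarith
  have h3 : (1 - ε) ^ 2 * ((1 - ε) * ℓ) ≤ (1 - 2 / (J : ℝ)) ^ 2 * (ℓ - κ) :=
    mul_le_mul h1 h2 (mul_nonneg (by linarith) hℓ4.le) (by positivity)
  have h4 : (1 - ε) ^ 2 * ((1 - ε) * ℓ) * area (D + θ • K) ≤
      (1 - 2 / (J : ℝ)) ^ 2 * (ℓ - κ) * area (D + θ • K) :=
    mul_le_mul_of_nonneg_right h3 ha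
  have hus : 0 ≤ u * (S.card : ℝ) := mul_nonneg hu0 (Nat.cast_nonneg _)
  have h5' : ℓ + θ * κ ≤ (1 + ε) * ℓ := by linarith
  have h5 : (ℓ + θ * κ) * (u * S.card) ≤ ((1 + ε) * ℓ) * (u * S.card) :=
    mul_le_mul_of_nonneg_right h5' hus
  have h6 : ℓ * ((1 - ε) ^ 3 * area (D + θ • K)) ≤ ℓ * ((1 + ε) * (u * S.card)) := by
    calc ℓ * ((1 - ε) ^ 3 * area (D + θ • K))
        = (1 - ε) ^ 2 * ((1 - ε) * ℓ) * area (D + θ • K) := by ring
      _ ≤ ((1 + ε) * ℓ) * (u * S.card) := h4.trans (key.trans h5)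
      _ = ℓ * ((1 + ε) * (u * S.card)) := by ring
  exact le_of_mul_le_mul_left h6 hℓ4

/-- The reflection in the diagonal. -/
def sw (A : Set (ℝ × ℝ)) : Set (ℝ × ℝ) := Prod.swap ⁻¹' A

theorem volume_sw (A : Set (ℝ × ℝ)) : volume (sw A) = volume A := by
  unfold sw
  have h : MeasurePreserving (MeasurableEquiv.prodComm : (ℝ × ℝ) ≃ᵐ (ℝ × ℝ)) volume volume := by
    have := Measure.measurePreserving_swap (μ := (volume : Measure ℝ)) (ν := (volume : Measure ℝ))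
    exact this
  exact h.measure_preimage_equiv A

theorem sw_add_smul (D K : Set (ℝ × ℝ)) (θ : ℝ) : sw (D + θ • K) = sw D + θ • sw K := by
  ext z
  constructor
  · rintro ⟨d, hd, _, ⟨k, hk, rfl⟩, h⟩
    refine ⟨d.swap, hd, θ • k.swap, ⟨k.swap, hk, rfl⟩, ?_⟩
    have h1 : d + θ • k = z.swap := h
    have : z = (d + θ • k).swap := by rw [h1, Prod.swap_swap]
    rw [this]
    ext <;> simp
  · rintro ⟨d, hd, _, ⟨k, hk, rfl⟩, rfl⟩
    refine ⟨d.swap, hd, θ • k.swap, ⟨k.swap, hk, rfl⟩, ?_⟩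
    ext <;> simp

theorem sw_compact {A : Set (ℝ × ℝ)} (hA : IsCompact A) : IsCompact (sw A) := by
  have : sw A = Prod.swap '' A := by
    unfold sw
    rw [Set.image_swap_eq_preimage_swap]
  rw [this]
  exact hA.image continuous_swap

theorem sw_convex {A : Set (ℝ × ℝ)} (hA : Convex ℝ A) : Convex ℝ (sw A) := by
  intro z hz w hw a b ha hb hab
  exact hA hz hw ha hb hab

theorem sw_bdBy {B : ℝ} (hB : BdBy K B) : BdBy (sw K) B := by
  intro z hz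
  have := hB _ hz
  exact ⟨this.2, this.1⟩

theorem sw_paraBound {θ u : ℝ} (hu : ParaBound K θ u) : ParaBound (sw K) θ u := by
  classical
  intro S p f e s t hcov hs ht
  have hcov' : CovBy K (S.image Prod.swap) (p + e).swap f.swap (-e).swap := by
    intro σ τ h1 h2 h3 h4
    obtain ⟨c, hcS, hc⟩ := hcov σ (1 - τ) h1 h2 (by linarith) (by linarith)
    refine ⟨c.swap, Finset.mem_image_of_mem _ hcS, ?_⟩
    have hc' : (p + σ • f + (1 - τ) • e - c).swap ∈ K := hc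
    convert hc' using 1
    ext
    · simp only [Prod.fst_sub, Prod.fst_add, Prod.fst_swap, Prod.smul_fst, smul_eq_mul,
        Prod.snd_neg, Prod.snd_sub, Prod.snd_add, Prod.smul_snd]; ring
    · simp only [Prod.fst_sub, Prod.fst_add, Prod.snd_swap, Prod.smul_fst, smul_eq_mul,
        Prod.fst_neg, Prod.snd_sub, Prod.snd_add, Prod.smul_snd]; ring
  have := hu _ _ _ _ t.swap s.swap hcov' ht hs
  have hcard : (S.image Prod.swap).card = S.card :=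
    Finset.card_image_of_injective _ Prod.swap_injective
  rw [hcard] at this
  refine le_trans (le_of_eq ?_) this
  simp only [det, Prod.fst_sub, Prod.snd_sub, Prod.fst_swap, Prod.snd_swap, Prod.fst_neg,
    Prod.snd_neg]
  ring

theorem big_y (hK : IsCompact K) (hne : K.Nonempty) (hc : Convex ℝ K) {B : ℝ} (hB : BdBy K B)
    {θ u : ℝ} (hθ : 0 ≤ θ) (hu : ParaBound K θ u) {ε : ℝ} (hε0 : 0 < ε) (hε1 : ε < 1) :
    ∃ ρ : ℝ, 0 < ρ ∧ ∀ (D : Set (ℝ × ℝ)) (S : Finset (ℝ × ℝ)), IsCompact D → Convex ℝ D →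
      (∀ z ∈ D, ∃ c ∈ S, z - c ∈ K) → (∃ z ∈ D, ∃ z' ∈ D, ρ ≤ z'.2 - z.2) →
      (1 - ε) ^ 3 * area (D + θ • K) ≤ (1 + ε) * (u * S.card) := by
  classical
  have hne' : (sw K).Nonempty := by
    obtain ⟨z, hz⟩ := hne
    exact ⟨z.swap, hz⟩
  obtain ⟨ρ, hρ0, hρ⟩ := big_x (sw_compact hK) hne' (sw_convex hc) (sw_bdBy hB) hθ
    (sw_paraBound hu) hε0 hε1
  refine ⟨ρ, hρ0, ?_⟩
  intro D S hD hDc hcov ⟨z, hz, z', hz', hzz⟩
  have := hρ (sw D) (S.image Prod.swap) (sw_compact hD) (sw_convex hDc) (by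
    intro w hw
    obtain ⟨c, hcS, hc⟩ := hcov _ hw
    refine ⟨c.swap, Finset.mem_image_of_mem _ hcS, ?_⟩
    change (w - c.swap).swap ∈ K
    convert hc using 1
    ext
    · simp only [Prod.fst_sub, Prod.snd_sub, Prod.fst_swap, Prod.snd_swap]
    · simp only [Prod.fst_sub, Prod.snd_sub, Prod.fst_swap, Prod.snd_swap])
    ⟨z.swap, hz, z'.swap, hz', hzz⟩
  have hcard : (S.image Prod.swap).card = S.card :=
    Finset.card_image_of_injective _ Prod.swap_injective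
  rw [hcard] at this
  have harea : area (sw D + θ • sw K) = area (D + θ • K) := by
    unfold area
    rw [← sw_add_smul, volume_sw]
  rwa [harea] at this

theorem small_area {B : ℝ} (hB : BdBy K B) {θ : ℝ} (hθ : 0 ≤ θ)
    {ρ : ℝ} {D : Set (ℝ × ℝ)} {z0 : ℝ × ℝ} (hB0 : 0 ≤ B) (hρ : 0 ≤ ρ)
    (h : ∀ z ∈ D, |z.1 - z0.1| ≤ ρ ∧ |z.2 - z0.2| ≤ ρ) :
    area (D + θ • K) ≤ (2 * (ρ + θ * B)) ^ 2 := by
  have hsub : D + θ • K ⊆ shBox 0 (z0.1 - (ρ + θ * B)) (z0.1 + (ρ + θ * B))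
      (z0.2 - (ρ + θ * B)) (z0.2 + (ρ + θ * B)) := by
    rintro _ ⟨z, hz, _, ⟨v, hv, rfl⟩, rfl⟩
    have h1 := abs_le.1 (h z hz).1
    have h2 := abs_le.1 (h z hz).2
    have h3 := abs_le.1 (hB v hv).1
    have h4 := abs_le.1 (hB v hv).2
    have g1 := mul_le_mul_of_nonneg_left h3.1 hθ
    have g2 := mul_le_mul_of_nonneg_left h3.2 hθ
    have g3 := mul_le_mul_of_nonneg_left h4.1 hθ
    have g4 := mul_le_mul_of_nonneg_left h4.2 hθ
    refine ⟨?_, ?_, ?_, ?_⟩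
    · change z0.1 - (ρ + θ * B) ≤ z.1 + θ * v.1
      linarith
    · change z.1 + θ * v.1 ≤ z0.1 + (ρ + θ * B)
      linarith
    · change z0.2 - (ρ + θ * B) ≤ z.2 + θ * v.2 - 0 * (z.1 + θ * v.1)
      linarith
    · change z.2 + θ * v.2 - 0 * (z.1 + θ * v.1) ≤ z0.2 + (ρ + θ * B)
      linarith
  have hnn : 0 ≤ 2 * (ρ + θ * B) := by positivity
  have h1 := measure_mono (μ := volume) hsub
  rw [volume_shBox, ← ENNReal.ofReal_mul (by linarith)] at h1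
  have h2 := ENNReal.toReal_mono ENNReal.ofReal_ne_top h1
  rw [ENNReal.toReal_ofReal (by nlinarith)] at h2
  refine h2.trans (le_of_eq ?_)
  ring

theorem maxArea_upper (hK : IsCompact K) (hne : K.Nonempty) (hc : Convex ℝ K)
    {θ u : ℝ} (hθ : 0 ≤ θ) (hu : ParaBound K θ u) {ε : ℝ} (hε0 : 0 < ε) (hε1 : ε < 1) :
    ∃ C : ℝ, 0 ≤ C ∧ ∀ n : ℕ, (1 - ε) ^ 3 * maxArea K θ n ≤ (1 + ε) * (u * n) + C := by
  obtain ⟨B, hB⟩ : ∃ B, BdBy K B := by
    obtain ⟨C, hC⟩ := hK.isBounded.exists_norm_le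
    refine ⟨C, fun z hz => ?_⟩
    have := hC z hz
    exact ⟨(norm_fst_le z).trans this, (norm_snd_le z).trans this⟩
  have hB0 : 0 ≤ B := by
    obtain ⟨z0, hz0⟩ := hne
    exact (abs_nonneg _).trans (hB z0 hz0).1
  have hu0 := paraBound_nonneg hu hne
  obtain ⟨ρ1, hρ1, h1⟩ := big_x hK hne hc hB hθ hu hε0 hε1
  obtain ⟨ρ2, hρ2, h2⟩ := big_y hK hne hc hB hθ hu hε0 hε1
  set ρ := max ρ1 ρ2 with hρ
  have hρ0 : 0 ≤ ρ := hρ1.le.trans (le_max_left _ _)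
  set C := (2 * (ρ + θ * B)) ^ 2 with hC
  have hC0 : 0 ≤ C := by positivity
  refine ⟨C, hC0, ?_⟩
  intro n
  have h3 : (0 : ℝ) < (1 - ε) ^ 3 := by
    have : 0 < 1 - ε := by linarith
    positivity
  have h31 : (1 - ε) ^ 3 ≤ 1 := pow_le_one₀ (by linarith) (by linarith)
  rw [← le_div_iff₀' h3]
  apply maxArea_le
  intro D hD
  rw [le_div_iff₀' h3]
  obtain ⟨S, hSn, hS⟩ := hD.to_finset
  have hSn' : (S.card : ℝ) ≤ n := by exact_mod_cast hSn
  have hmono : (1 + ε) * (u * S.card) ≤ (1 + ε) * (u * n) + C := by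
    have : (1 + ε) * (u * S.card) ≤ (1 + ε) * (u * n) := by
      apply mul_le_mul_of_nonneg_left _ (by linarith)
      exact mul_le_mul_of_nonneg_left hSn' hu0
    linarith
  by_cases hx : ∃ z ∈ D, ∃ z' ∈ D, ρ1 ≤ z'.1 - z.1
  · exact (h1 D S hD.1 hD.2.1 hS hx).trans hmono
  by_cases hy : ∃ z ∈ D, ∃ z' ∈ D, ρ2 ≤ z'.2 - z.2
  · exact (h2 D S hD.1 hD.2.1 hS hy).trans hmono
  push Not at hx hy
  have hsm : area (D + θ • K) ≤ C := by
    rcases D.eq_empty_or_nonempty with hE | ⟨z0, hz0⟩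
    · rw [hE, Set.empty_add]
      unfold area
      rw [measure_empty]
      exact hC0
    · apply small_area hB hθ (z0 := z0) hB0 hρ0
      intro z hz
      have a1 := hx z hz z0 hz0
      have a2 := hx z0 hz0 z hz
      have a3 := hy z hz z0 hz0
      have a4 := hy z0 hz0 z hz
      have b1 : ρ1 ≤ ρ := le_max_left _ _
      have b2 : ρ2 ≤ ρ := le_max_right _ _
      constructor <;> rw [abs_le] <;> constructor <;> linarith
  have ha := area_nonneg (D + θ • K)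
  have h5 : (1 - ε) ^ 3 * area (D + θ • K) ≤ C := by
    calc (1 - ε) ^ 3 * area (D + θ • K) ≤ 1 * area (D + θ • K) :=
          mul_le_mul_of_nonneg_right h31 ha
      _ ≤ C := by rw [one_mul]; exact hsm
  have h6 : 0 ≤ (1 + ε) * (u * n) := by positivity
  linarith

end Pool.Agent.Lib.MP_eb03ca_co
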