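import Mathlib
import Pool.Agent.Lib.MP_eb03ca_co.Upper

/-!
The parametric covering density exists and equals the supremum of the values of covered
parallelograms (problem MP_eb03ca_co).
-/

set_option autoImplicit false

open scoped Pointwise Topology
open MeasureTheory Filter

namespace Pool.Agent.Lib.MP_eb03ca_co

variable {K : Set (ℝ × ℝ)}

/-- The values of covered parallelograms. -/
def vals (K : Set (ℝ × ℝ)) (θ : ℝ) : Set ℝ :=
  {r | ∃ (S : Finset (ℝ × ℝ)) (p f e s t : ℝ × ℝ), CovBy K S p f e ∧ s ∈ K ∧ t ∈ K ∧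
    r = (det f e + θ * det f (s - t)) / S.card}

/-- The supremum of the values of covered parallelograms. -/
noncomputable def Uv (K : Set (ℝ × ℝ)) (θ : ℝ) : ℝ := sSup (vals K θ)

theorem vals_nonempty (hne : K.Nonempty) (θ : ℝ) : (vals K θ).Nonempty := by
  obtain ⟨z0, hz0⟩ := hne
  have h0 : CovBy K {(0 : ℝ × ℝ)} z0 0 0 := by
    intro σ τ _ _ _ _
    exact ⟨0, Finset.mem_singleton_self _, by simpa using hz0⟩
  exact ⟨_, _, _, _, _, z0, z0, h0, hz0, hz0, rfl⟩

theorem vals_bdd (hK : IsCompact K) (hc : Convex ℝ K) (θ : ℝ) : BddAbove (vals K θ) := by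
  refine ⟨area (K + θ • K), ?_⟩
  rintro _ ⟨S, p, f, e, s, t, hcov, hs, ht, rfl⟩
  have hpos : (0 : ℝ) < S.card := by exact_mod_cast hcov.nonempty.card_pos
  rw [div_le_iff₀ hpos]
  have h1 := rows_lower hK hc θ hcov hs ht 1
  rw [Nat.cast_one, one_mul, one_mul] at h1
  refine h1.trans (maxArea_le θ ?_)
  intro D hD
  obtain ⟨T, hTn, hT⟩ := hD.to_finset
  refine (area_par_le hK θ hT).trans ?_
  rw [mul_comm]
  exact mul_le_mul_of_nonneg_left (by exact_mod_cast hTn) (area_nonneg _)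

theorem paraBound_Uv (hK : IsCompact K) (hc : Convex ℝ K) (θ : ℝ) :
    ParaBound K θ (Uv K θ) := by
  intro S p f e s t hcov hs ht
  have hpos : (0 : ℝ) < S.card := by exact_mod_cast hcov.nonempty.card_pos
  rw [← div_le_iff₀ hpos]
  exact le_csSup (vals_bdd hK hc θ) ⟨S, p, f, e, s, t, hcov, hs, ht, rfl⟩

theorem Uv_le (hne : K.Nonempty) {θ u : ℝ} (hu : ParaBound K θ u) : Uv K θ ≤ u := by
  apply csSup_le (vals_nonempty hne θ)
  rintro _ ⟨S, p, f, e, s, t, hcov, hs, ht, rfl⟩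
  have hpos : (0 : ℝ) < S.card := by exact_mod_cast hcov.nonempty.card_pos
  rw [div_le_iff₀ hpos]
  exact hu S p f e s t hcov hs ht

theorem Uv_nonneg (hK : IsCompact K) (hc : Convex ℝ K) (hne : K.Nonempty) (θ : ℝ) :
    0 ≤ Uv K θ :=
  paraBound_nonneg (paraBound_Uv hK hc θ) hne

theorem tendsto_maxArea (hK : IsCompact K) (hc : Convex ℝ K) (hne : K.Nonempty) {θ : ℝ}
    (hθ : 0 ≤ θ) : Tendsto (fun n : ℕ => maxArea K θ n / n) atTop (𝓝 (Uv K θ)) := by
  rw [tendsto_order]
  constructor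
  · intro a ha
    rcases lt_or_ge a 0 with ha0 | ha0
    · exact Eventually.of_forall fun n =>
        ha0.trans_le (div_nonneg (maxArea_nonneg hK θ n) (Nat.cast_nonneg _))
    obtain ⟨r, hr, har⟩ := exists_lt_of_lt_csSup (vals_nonempty hne θ) ha
    obtain ⟨S, p, f, e, s, t, hcov, hs, ht, hreq⟩ := hr
    have hpos : (0 : ℝ) < S.card := by exact_mod_cast hcov.nonempty.card_pos
    have hr1 : r * S.card ≤ det f e + θ * det f (s - t) := by
      rw [hreq]; field_simp; exact le_rfl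
    have hra : 0 < r - a := by linarith
    obtain ⟨n0, hn0⟩ := exists_nat_gt (r * S.card / (r - a))
    filter_upwards [eventually_ge_atTop (max n0 1)] with n hn
    have hn1 : n0 ≤ n := (le_max_left _ _).trans hn
    have hn2 : 1 ≤ n := (le_max_right _ _).trans hn
    have hnR : (0 : ℝ) < n := by exact_mod_cast hn2
    have h1 := rows_lower' hK hc θ hcov hs ht (ha0.trans har.le) hr1 n
    rw [lt_div_iff₀ hnR]
    rw [div_lt_iff₀ hra] at hn0
    have h2 : (n0 : ℝ) ≤ n := by exact_mod_cast hn1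
    have h3 := mul_le_mul_of_nonneg_right h2 hra.le
    linarith
  · intro a ha
    have hu0 := Uv_nonneg hK hc hne θ
    set u := Uv K θ with hu
    have ha0 : 0 < a := hu0.trans_lt ha
    set ε := (a - u) / (2 * (u + 3 * a)) with hε
    have hden : 0 < 2 * (u + 3 * a) := by linarith
    have hε0 : 0 < ε := div_pos (by linarith) hden
    have hεeq : ε * (u + 3 * a) = (a - u) / 2 := by rw [hε]; field_simp
    have hε1 : ε < 1 := by
      rw [hε, div_lt_one hden]; linarith
    have hε3 : 1 - 3 * ε ≤ (1 - ε) ^ 3 := by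
      have : (1 - ε) ^ 3 - (1 - 3 * ε) = ε ^ 2 * (3 - ε) := by ring
      have h2 : 0 ≤ ε ^ 2 * (3 - ε) := mul_nonneg (by positivity) (by linarith)
      linarith
    obtain ⟨C, hC0, hC⟩ := maxArea_upper hK hne hc hθ (paraBound_Uv hK hc θ) hε0 hε1
    obtain ⟨n0, hn0⟩ := exists_nat_gt (C / ((a - u) / 2))
    filter_upwards [eventually_ge_atTop (max n0 1)] with n hn
    have hn1 : n0 ≤ n := (le_max_left _ _).trans hn
    have hn2 : 1 ≤ n := (le_max_right _ _).trans hn
    have hnR : (0 : ℝ) < n := by exact_mod_cast hn2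
    rw [div_lt_iff₀ hnR]
    have h3 : (0 : ℝ) < (1 - ε) ^ 3 := by
      have : 0 < 1 - ε := by linarith
      positivity
    have h4 := hC n
    rw [← hu] at h4
    rw [div_lt_iff₀ (by linarith)] at hn0
    have h2 : (n0 : ℝ) ≤ n := by exact_mod_cast hn1
    have h5 : C < (a - u) / 2 * n := by
      have := mul_le_mul_of_nonneg_right h2 (by linarith : 0 ≤ (a - u) / 2)
      linarith
    have h6 : (1 + ε) * (u * n) + C < (1 - ε) ^ 3 * (a * n) := by
      have h7 : (1 - 3 * ε) * (a * n) ≤ (1 - ε) ^ 3 * (a * n) :=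
        mul_le_mul_of_nonneg_right hε3 (by positivity)
      have h8 : (1 - 3 * ε) * (a * n) - (1 + ε) * (u * n)
          = (a - u) * n - (ε * (u + 3 * a)) * n := by ring
      rw [hεeq] at h8
      linarith
    exact lt_of_mul_lt_mul_left (h4.trans_lt h6) h3.le

theorem Theta_eq (hK : IsConvexDomain K) {θ : ℝ} (hθ : 0 ≤ θ) : Theta K θ = Uv K θ :=
  (tendsto_maxArea hK.1 hK.2.1 (hK.2.2.mono interior_subset) hθ).limUnder_eq

theorem tendsto_Theta (hK : IsConvexDomain K) {θ : ℝ} (hθ : 0 ≤ θ) :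
    Tendsto (fun n : ℕ => maxArea K θ n / n) atTop (𝓝 (Theta K θ)) := by
  rw [Theta_eq hK hθ]
  exact tendsto_maxArea hK.1 hK.2.1 (hK.2.2.mono interior_subset) hθ

/-! ### Dependence on the parameter -/

theorem Uv_mono (hK : IsCompact K) (hc : Convex ℝ K) (hne : K.Nonempty) {θ θ' : ℝ}
    (hθ : 0 ≤ θ) (h : θ ≤ θ') : Uv K θ ≤ Uv K θ' := by
  apply Uv_le hne
  intro S p f e s t hcov hs ht
  rcases le_total 0 (det f (s - t)) with hd | hd
  · have h1 := paraBound_Uv hK hc θ' S p f e s t hcov hs ht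
    have h2 := mul_le_mul_of_nonneg_right h hd
    linarith
  · have h1 := paraBound_Uv hK hc θ' S p f e t s hcov ht hs
    have h2 : det f (t - s) = - det f (s - t) := by
      simp only [det, Prod.fst_sub, Prod.snd_sub]; ring
    rw [h2] at h1
    have h3 : 0 ≤ θ' * (- det f (s - t)) := mul_nonneg (hθ.trans h) (by linarith)
    have h4 : θ * det f (s - t) ≤ 0 := mul_nonpos_of_nonneg_of_nonpos hθ hd
    linarith

theorem Uv_lip (hK : IsCompact K) (hc : Convex ℝ K) (hne : K.Nonempty) {θ θ' : ℝ}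
    (h : θ ≤ θ') : Uv K θ' ≤ Uv K θ + (θ' - θ) * Uv K 1 := by
  apply Uv_le hne
  intro S p f e s t hcov hs ht
  have hcov0 : CovBy K S p f 0 := by
    intro σ τ h1 h2 _ _
    obtain ⟨c, hcS, hc⟩ := hcov σ 0 h1 h2 le_rfl zero_le_one
    refine ⟨c, hcS, ?_⟩
    simpa using hc
  have h1 := paraBound_Uv hK hc θ S p f e s t hcov hs ht
  have h2 := paraBound_Uv hK hc 1 S p f 0 s t hcov0 hs ht
  have h3 : det f 0 = 0 := by simp [det]
  rw [h3, zero_add, one_mul] at h2
  have h4 := mul_le_mul_of_nonneg_left h2 (sub_nonneg.2 h)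
  have h5 : θ' * det f (s - t) = θ * det f (s - t) + (θ' - θ) * det f (s - t) := by ring
  rw [h5, add_mul]
  linarith

end Pool.Agent.Lib.MP_eb03ca_co
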