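import Mathlib
import Pool.Agent.Lib.MP_eb03ca_co.Limit

/-!
The hexagon and its lattice covering (problem MP_eb03ca_co).
-/

set_option autoImplicit false

namespace Pool.Agent.Lib.MP_eb03ca_co

/-- An affine regular hexagon. -/
def hexa : Set (ℝ × ℝ) := {z | |z.1| ≤ 1 ∧ |z.2| ≤ 1 ∧ |z.1 - z.2| ≤ 1}

theorem mem_hexa {z : ℝ × ℝ} : z ∈ hexa ↔ (-1 ≤ z.1 ∧ z.1 ≤ 1) ∧ (-1 ≤ z.2 ∧ z.2 ≤ 1) ∧
    (-1 ≤ z.1 - z.2 ∧ z.1 - z.2 ≤ 1) := by
  unfold hexa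
  simp only [Set.mem_ofPred_eq, abs_le]

theorem hexa_convex : Convex ℝ hexa := by
  intro z hz w hw a b ha hb hab
  rw [mem_hexa] at hz hw ⊢
  obtain ⟨⟨z1, z2⟩, ⟨z3, z4⟩, ⟨z5, z6⟩⟩ := hz
  obtain ⟨⟨w1, w2⟩, ⟨w3, w4⟩, ⟨w5, w6⟩⟩ := hw
  simp only [Prod.fst_add, Prod.smul_fst, smul_eq_mul, Prod.snd_add, Prod.smul_snd]
  have key : ∀ u v : ℝ, u ≤ 1 → v ≤ 1 → a * u + b * v ≤ 1 := by
    intro u v hu hv
    have h1 := mul_le_mul_of_nonneg_left hu ha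
    have h2 := mul_le_mul_of_nonneg_left hv hb
    linarith
  have key' : ∀ u v : ℝ, -1 ≤ u → -1 ≤ v → -1 ≤ a * u + b * v := by
    intro u v hu hv
    have h1 := mul_le_mul_of_nonneg_left hu ha
    have h2 := mul_le_mul_of_nonneg_left hv hb
    linarith
  refine ⟨⟨key' _ _ z1 w1, key _ _ z2 w2⟩, ⟨key' _ _ z3 w3, key _ _ z4 w4⟩, ?_, ?_⟩
  · have := key' _ _ z5 w5
    linarith
  · have := key _ _ z6 w6
    linarith

theorem hexa_compact : IsCompact hexa := by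
  have hclosed : IsClosed hexa := by
    have h1 : IsClosed {z : ℝ × ℝ | |z.1| ≤ 1} := isClosed_le (by fun_prop) continuous_const
    have h2 : IsClosed {z : ℝ × ℝ | |z.2| ≤ 1} := isClosed_le (by fun_prop) continuous_const
    have h3 : IsClosed {z : ℝ × ℝ | |z.1 - z.2| ≤ 1} := isClosed_le (by fun_prop) continuous_const
    exact h1.inter (h2.inter h3)
  have hsub : hexa ⊆ Set.Icc (-1 : ℝ) 1 ×ˢ Set.Icc (-1 : ℝ) 1 := by
    intro z hz
    rw [mem_hexa] at hz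
    exact ⟨hz.1, hz.2.1⟩
  exact (isCompact_Icc.prod isCompact_Icc).of_isClosed_subset hclosed hsub

theorem zero_mem_hexa : (0 : ℝ × ℝ) ∈ hexa := by
  rw [mem_hexa]; norm_num

theorem hexa_interior : (interior hexa).Nonempty := by
  refine ⟨0, mem_interior.2 ⟨{z | |z.1| < 1 / 2} ∩ {z | |z.2| < 1 / 2}, ?_, ?_, ?_⟩⟩
  · rintro z ⟨h1, h2⟩
    have h1' := abs_lt.1 (show |z.1| < 1 / 2 from h1)
    have h2' := abs_lt.1 (show |z.2| < 1 / 2 from h2)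
    rw [mem_hexa]
    refine ⟨⟨?_, ?_⟩, ⟨?_, ?_⟩, ?_, ?_⟩ <;> linarith [h1'.1, h1'.2, h2'.1, h2'.2]
  · exact (isOpen_lt (by fun_prop) continuous_const).inter
      (isOpen_lt (by fun_prop) continuous_const)
  · constructor <;> simp

theorem hexa_domain : IsConvexDomain hexa := ⟨hexa_compact, hexa_convex, hexa_interior⟩

theorem hexa_cell {σ τ : ℝ} (h1 : 0 ≤ σ) (h2 : σ ≤ 1) (h3 : 0 ≤ τ) (h4 : τ ≤ 1) :
    ∃ i j : ℕ, i ≤ 1 ∧ j ≤ 1 ∧
      ((2 * (σ - i) + (τ - j), (σ - i) + 2 * (τ - j)) : ℝ × ℝ) ∈ hexa := by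
  by_cases a1 : 2 * σ + τ ≤ 1 ∧ σ + 2 * τ ≤ 1
  · refine ⟨0, 0, by norm_num, by norm_num, ?_⟩
    rw [mem_hexa]
    push_cast
    refine ⟨⟨?_, ?_⟩, ⟨?_, ?_⟩, ?_, ?_⟩ <;> linarith [a1.1, a1.2]
  by_cases a2 : 2 ≤ 2 * σ + τ ∧ 2 ≤ σ + 2 * τ
  · refine ⟨1, 1, by norm_num, by norm_num, ?_⟩
    rw [mem_hexa]
    push_cast
    refine ⟨⟨?_, ?_⟩, ⟨?_, ?_⟩, ?_, ?_⟩ <;> linarith [a2.1, a2.2]
  rcases le_total τ σ with h | h
  · refine ⟨1, 0, by norm_num, by norm_num, ?_⟩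
    have b1 : 1 ≤ 2 * σ + τ := by
      by_contra hcon
      push Not at hcon
      exact a1 ⟨by linarith, by linarith⟩
    have b2 : σ + 2 * τ ≤ 2 := by
      by_contra hcon
      push Not at hcon
      exact a2 ⟨by linarith, by linarith⟩
    rw [mem_hexa]
    push_cast
    refine ⟨⟨?_, ?_⟩, ⟨?_, ?_⟩, ?_, ?_⟩ <;> linarith
  · refine ⟨0, 1, by norm_num, by norm_num, ?_⟩
    have b1 : 1 ≤ σ + 2 * τ := by
      by_contra hcon
      push Not at hcon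
      exact a1 ⟨by linarith, by linarith⟩
    have b2 : 2 * σ + τ ≤ 2 := by
      by_contra hcon
      push Not at hcon
      exact a2 ⟨by linarith, by linarith⟩
    rw [mem_hexa]
    push_cast
    refine ⟨⟨?_, ?_⟩, ⟨?_, ?_⟩, ?_, ?_⟩ <;> linarith

open Classical in
/-- Lattice points. -/
noncomputable def latt (k : ℕ) : Finset (ℝ × ℝ) :=
  (Finset.range (k + 1) ×ˢ Finset.range (k + 1)).image
    (fun q : ℕ × ℕ => ((2 * (q.1 : ℝ) + q.2, (q.1 : ℝ) + 2 * q.2) : ℝ × ℝ))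

theorem latt_cov {k : ℕ} (hk : 0 < k) :
    CovBy hexa (latt k) 0 ((k : ℝ) • ((2, 1) : ℝ × ℝ)) ((k : ℝ) • ((1, 2) : ℝ × ℝ)) := by
  intro σ τ h1 h2 h3 h4
  have hkR : (0 : ℝ) ≤ k := Nat.cast_nonneg k
  obtain ⟨i, hi, i1, i2⟩ := exists_cell hk (x := σ * k) (by positivity) (by nlinarith)
  obtain ⟨j, hj, j1, j2⟩ := exists_cell hk (x := τ * k) (by positivity) (by nlinarith)
  obtain ⟨a, b, ha, hb, hab⟩ := hexa_cell i1 i2 j1 j2
  refine ⟨(2 * ((i + a : ℕ) : ℝ) + ((j + b : ℕ) : ℝ), ((i + a : ℕ) : ℝ) + 2 * ((j + b : ℕ) : ℝ)),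
    ?_, ?_⟩
  · unfold latt
    rw [Finset.mem_image]
    refine ⟨(i + a, j + b), ?_, rfl⟩
    simp only [Finset.mem_product, Finset.mem_range]
    omega
  · convert hab using 1
    ext
    · simp only [Prod.fst_sub, Prod.fst_add, Prod.smul_fst, smul_eq_mul, Prod.fst_zero]
      push_cast; ring
    · simp only [Prod.snd_sub, Prod.snd_add, Prod.smul_snd, smul_eq_mul, Prod.snd_zero]
      push_cast; ring

theorem three_le_Uv : 3 ≤ Uv hexa 0 := by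
  by_contra hcon
  push Not at hcon
  have hU := paraBound_Uv hexa_compact hexa_convex 0
  have hU0 := paraBound_nonneg hU ⟨0, zero_mem_hexa⟩
  set u := Uv hexa 0 with hu
  obtain ⟨n, hn⟩ := exists_nat_gt (9 / (3 - u))
  set k := n + 1 with hk
  have hkR : (1 : ℝ) ≤ k := by rw [hk]; push_cast; linarith [(Nat.cast_nonneg n : (0 : ℝ) ≤ n)]
  have h1 := hU _ _ _ _ 0 0 (latt_cov (k := k) (by omega)) zero_mem_hexa zero_mem_hexa
  have hcard : ((latt k).card : ℝ) ≤ (k + 1) ^ 2 := by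
    have : (latt k).card ≤ (k + 1) * (k + 1) := by
      unfold latt
      refine Finset.card_image_le.trans (le_of_eq ?_)
      rw [Finset.card_product, Finset.card_range]
    have h2 : ((latt k).card : ℝ) ≤ ((k + 1) * (k + 1) : ℕ) := by exact_mod_cast this
    refine h2.trans (le_of_eq ?_)
    push_cast; ring
  have h2 : det ((k : ℝ) • ((2, 1) : ℝ × ℝ)) ((k : ℝ) • ((1, 2) : ℝ × ℝ)) = 3 * k ^ 2 := by
    simp only [det, Prod.smul_fst, Prod.smul_snd, smul_eq_mul]; ring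
  rw [h2, zero_mul, add_zero] at h1
  have h3 : 3 * (k : ℝ) ^ 2 ≤ u * (k + 1) ^ 2 := h1.trans (mul_le_mul_of_nonneg_left hcard hU0)
  rw [div_lt_iff₀ (by linarith)] at hn
  have hnk : (n : ℝ) ≤ k := by rw [hk]; push_cast; linarith
  have h4 : 9 < k * (3 - u) := hn.trans_le (mul_le_mul_of_nonneg_right hnk (by linarith))
  have h5 : 9 * (k : ℝ) < k * (k * (3 - u)) := by nlinarith
  have h6 : u * (2 * k + 1) ≤ 3 * (2 * k + 1) :=
    mul_le_mul_of_nonneg_right hcon.le (by linarith)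
  nlinarith

end Pool.Agent.Lib.MP_eb03ca_co
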