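import Mathlib
import Pool.Agent.Lib.MP_eb03ca_co.HexBasic

/-!
Chords of the hexagon in a direction `(1, m)` with `0 ≤ m ≤ 1` (problem MP_eb03ca_co).
-/

set_option autoImplicit false

open MeasureTheory

namespace Pool.Agent.Lib.MP_eb03ca_co

/-- The truncated linear function `min 1 (δ / m)`. -/
noncomputable def AA (m δ : ℝ) : ℝ := if δ < m then δ / m else 1

theorem AA_nonneg {m δ : ℝ} (hm : 0 ≤ m) (hδ : 0 ≤ δ) : 0 ≤ AA m δ := by
  unfold AA
  split_ifs
  · positivity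
  · norm_num

theorem AA_le_one {m δ : ℝ} (hm : 0 ≤ m) : AA m δ ≤ 1 := by
  unfold AA
  split_ifs with h
  · rcases hm.eq_or_lt with h0 | h0
    · rw [← h0, div_zero]; norm_num
    · rw [div_le_one h0]; exact h.le
  · exact le_rfl

theorem mul_AA_le {m δ : ℝ} (hδ : 0 ≤ δ) : m * AA m δ ≤ δ := by
  unfold AA
  split_ifs with h
  · have h0 : 0 < m := hδ.trans_lt h
    rw [mul_div_cancel₀ _ h0.ne']
  · push Not at h
    linarith

/-- Lower characterization. -/
theorem le_AA {m δ x : ℝ} (hδ : 0 ≤ δ) (h1 : x ≤ 1) (h2 : m * x ≤ δ) : x ≤ AA m δ := by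
  unfold AA
  split_ifs with h
  · have h0 : 0 < m := hδ.trans_lt h
    rw [le_div_iff₀ h0]; linarith
  · exact h1

theorem AA_measurable (m : ℝ) : Measurable (AA m) := by
  unfold AA
  exact Measurable.ite (measurableSet_lt measurable_id measurable_const)
    (by fun_prop) measurable_const

/-- The bound for the chord at level `ν`. -/
noncomputable def gg (m ν : ℝ) : ℝ :=
  if |ν| ≤ 1 then AA m (1 - |ν|) + AA (1 - m) (1 - |ν|) else 0

theorem gg_measurable (m : ℝ) : Measurable (gg m) := by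
  unfold gg
  refine Measurable.ite (measurableSet_le (by fun_prop) measurable_const) ?_ measurable_const
  exact ((AA_measurable m).comp (by fun_prop)).add ((AA_measurable (1 - m)).comp (by fun_prop))

theorem gg_nonneg {m ν : ℝ} (h0 : 0 ≤ m) (h1 : m ≤ 1) : 0 ≤ gg m ν := by
  unfold gg
  split_ifs with h
  · exact add_nonneg (AA_nonneg h0 (by linarith)) (AA_nonneg (by linarith) (by linarith))
  · exact le_rfl

theorem gg_le_two {m ν : ℝ} (h0 : 0 ≤ m) (h1 : m ≤ 1) : gg m ν ≤ 2 := by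
  unfold gg
  split_ifs with h
  · have a := AA_le_one (δ := 1 - |ν|) h0
    have b := AA_le_one (m := 1 - m) (δ := 1 - |ν|) (by linarith)
    linarith
  · norm_num

theorem gg_eq_zero {m ν : ℝ} (h : 1 < |ν|) : gg m ν = 0 := by
  unfold gg
  rw [if_neg (not_le.2 h)]

theorem gg_neg (m ν : ℝ) : gg m (-ν) = gg m ν := by
  unfold gg
  rw [abs_neg]

/-- The level of a point with respect to the direction `(1, m)`. -/
def lev (m : ℝ) (z : ℝ × ℝ) : ℝ := z.2 - m * z.1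

theorem abs_lev_le {m : ℝ} (h0 : 0 ≤ m) (h1 : m ≤ 1) {z : ℝ × ℝ} (hz : z ∈ hexa) :
    |lev m z| ≤ 1 := by
  rw [mem_hexa] at hz
  obtain ⟨⟨a1, a2⟩, ⟨a3, a4⟩, a5, a6⟩ := hz
  have e : lev m z = (1 - m) * z.2 - m * (z.1 - z.2) := by unfold lev; ring
  have hm : 0 ≤ 1 - m := by linarith
  have b1 := mul_le_mul_of_nonneg_left a3 hm
  have b2 := mul_le_mul_of_nonneg_left a4 hm
  have b3 := mul_le_mul_of_nonneg_left a5 h0
  have b4 := mul_le_mul_of_nonneg_left a6 h0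
  rw [e, abs_le]
  constructor <;> linarith

theorem chord_le {m : ℝ} (h0 : 0 ≤ m) (h1 : m ≤ 1) {z z' : ℝ × ℝ} (hz : z ∈ hexa)
    (hz' : z' ∈ hexa) (h : lev m z = lev m z') : z'.1 - z.1 ≤ gg m (lev m z) := by
  have habs := abs_lev_le h0 h1 hz
  unfold gg
  rw [if_pos habs]
  have hm : 0 ≤ 1 - m := by linarith
  rw [mem_hexa] at hz hz'
  obtain ⟨⟨a1, a2⟩, ⟨a3, a4⟩, a5, a6⟩ := hz
  obtain ⟨⟨b1, b2⟩, ⟨b3, b4⟩, b5, b6⟩ := hz'
  have hδ : 0 ≤ 1 - |lev m z| := by linarith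
  rcases le_total 0 (lev m z) with hs | hs
  · rw [abs_of_nonneg hs] at hδ ⊢
    have c1 : z'.1 ≤ AA m (1 - lev m z) := by
      apply le_AA hδ b2
      rw [h]; unfold lev; linarith
    have c2 : -z.1 ≤ AA (1 - m) (1 - lev m z) := by
      apply le_AA hδ (by linarith)
      unfold lev; linarith
    linarith
  · rw [abs_of_nonpos hs] at hδ ⊢
    have c1 : z'.1 ≤ AA (1 - m) (1 - -lev m z) := by
      apply le_AA hδ b2
      rw [h]; unfold lev; linarith
    have c2 : -z.1 ≤ AA m (1 - -lev m z) := by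
      apply le_AA hδ (by linarith)
      unfold lev; linarith
    linarith

/-- Covering of a unit segment by sets of bounded diameter. -/
theorem seg_cover {ι : Type*} (S : Finset ι) (P : ι → ℝ → Prop) (L : ι → ℝ)
    (hL : ∀ c ∈ S, 0 ≤ L c)
    (hd : ∀ c ∈ S, ∀ σ σ' : ℝ, P c σ → P c σ' → σ' - σ ≤ L c)
    (hcov : ∀ σ : ℝ, 0 ≤ σ → σ ≤ 1 → ∃ c ∈ S, P c σ) : 1 ≤ ∑ c ∈ S, L c := by
  have hsub : Set.Icc (0 : ℝ) 1 ⊆ ⋃ c ∈ S, {σ | P c σ} := by
    intro σ hσ
    obtain ⟨c, hcS, hc⟩ := hcov σ hσ.1 hσ.2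
    exact Set.mem_biUnion hcS hc
  have h1 : volume (Set.Icc (0 : ℝ) 1) ≤ ∑ c ∈ S, ENNReal.ofReal (L c) := by
    refine (measure_mono hsub).trans ((measure_biUnion_finset_le _ _).trans ?_)
    apply Finset.sum_le_sum
    intro c hc
    refine (Real.volume_le_diam _).trans ?_
    apply Metric.ediam_le
    intro x hx y hy
    rw [edist_dist, Real.dist_eq]
    apply ENNReal.ofReal_le_ofReal
    rw [abs_le]
    have e1 := hd c hc x y hx hy
    have e2 := hd c hc y x hy hx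
    constructor <;> linarith
  rw [Real.volume_Icc, ← ENNReal.ofReal_sum_of_nonneg hL, sub_zero] at h1
  exact (ENNReal.ofReal_le_ofReal_iff (Finset.sum_nonneg hL)).1 h1

/-- Each level line of a covered parallelogram is covered by chords. -/
theorem level_cover {m : ℝ} (h0 : 0 ≤ m) (h1 : m ≤ 1) {ℓ : ℝ} (hℓ : 0 < ℓ)
    {S : Finset (ℝ × ℝ)} {q : ℝ × ℝ}
    (hcov : ∀ σ : ℝ, 0 ≤ σ → σ ≤ 1 → ∃ c ∈ S, q + σ • ((ℓ, m * ℓ) : ℝ × ℝ) - c ∈ hexa) :
    ℓ ≤ ∑ c ∈ S, gg m (lev m q - lev m c) := by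
  have key := seg_cover S (fun c σ => q + σ • ((ℓ, m * ℓ) : ℝ × ℝ) - c ∈ hexa)
    (fun c => gg m (lev m q - lev m c) / ℓ)
    (fun c _ => div_nonneg (gg_nonneg h0 h1) hℓ.le)
    (by
      intro c _ σ σ' hσ hσ'
      have e : ∀ r : ℝ, lev m (q + r • ((ℓ, m * ℓ) : ℝ × ℝ) - c) = lev m q - lev m c := by
        intro r
        simp only [lev, Prod.fst_sub, Prod.fst_add, Prod.smul_fst, smul_eq_mul, Prod.snd_sub,
          Prod.snd_add, Prod.smul_snd]
        ring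
      have h := chord_le h0 h1 hσ hσ' (by rw [e, e])
      rw [e] at h
      simp only [Prod.fst_sub, Prod.fst_add, Prod.smul_fst, smul_eq_mul] at h
      rw [le_div_iff₀ hℓ]
      linarith)
    hcov
  rw [← Finset.sum_div, le_div_iff₀ hℓ] at key
  linarith

end Pool.Agent.Lib.MP_eb03ca_co
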