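import Mathlib
import Pool.Agent.Lib.MP_eb03ca_co.HexChord

/-!
Weighted chord estimates for the hexagon (problem MP_eb03ca_co).
-/

set_option autoImplicit false

open MeasureTheory

namespace Pool.Agent.Lib.MP_eb03ca_co

theorem ab_bound {m α β δ : ℝ} (a0 : 0 ≤ α) (a1 : α ≤ 1)
    (b0 : 0 ≤ β) (b1 : β ≤ 1) (d0 : 0 ≤ δ) (d1 : δ ≤ 1 / 2) (ha : m * α ≤ δ)
    (hb : (1 - m) * β ≤ δ) : (α + β) * (1 - δ) ≤ 1 := by
  rcases le_or_gt m δ with h | h
  · have e1 : (1 - δ) * β ≤ (1 - m) * β := mul_le_mul_of_nonneg_right (by linarith) b0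
    have e2 : (1 - δ) * α ≤ (1 - δ) * 1 := mul_le_mul_of_nonneg_left a1 (by linarith)
    linarith
  rcases le_or_gt (1 - m) δ with h' | h'
  · have e1 : (1 - δ) * α ≤ m * α := mul_le_mul_of_nonneg_right (by linarith) a0
    have e2 : (1 - δ) * β ≤ (1 - δ) * 1 := mul_le_mul_of_nonneg_left b1 (by linarith)
    linarith
  · have hm0 : 0 < m := d0.trans_lt h
    have hm1 : 0 < 1 - m := d0.trans_lt h'
    have e1 : m * (1 - m) * (α + β) ≤ δ := by
      have f1 := mul_le_mul_of_nonneg_left ha hm1.le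
      have f2 := mul_le_mul_of_nonneg_left hb hm0.le
      nlinarith
    have e2 : δ * (1 - δ) ≤ m * (1 - m) := by
      nlinarith [mul_nonneg (sub_nonneg.2 h.le) (sub_nonneg.2 h'.le)]
    have e3 : δ * (1 - δ) * (α + β) ≤ m * (1 - m) * (α + β) :=
      mul_le_mul_of_nonneg_right e2 (by linarith)
    rcases d0.eq_or_lt with hz | hz
    · rw [← hz] at e1
      have hmm : 0 < m * (1 - m) := mul_pos hm0 hm1
      have : α + β ≤ 0 := by
        by_contra hcon
        push Not at hcon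
        have := mul_pos hmm hcon
        linarith
      nlinarith
    · have e4 : δ * ((α + β) * (1 - δ)) ≤ δ * 1 := by
        calc δ * ((α + β) * (1 - δ)) = δ * (1 - δ) * (α + β) := by ring
          _ ≤ δ := e3.trans e1
          _ = δ * 1 := by ring
      exact le_of_mul_le_mul_left e4 hz

/-- Low parallelograms. -/
theorem bracket_small {m : ℝ} (h0 : 0 ≤ m) (h1 : m ≤ 1) {t : ℝ} (ht0 : 0 ≤ t) (ht2 : t ≤ 2)
    (ν : ℝ) : (t / 2 + 1 / 4) * (gg m ν + gg m (ν + t)) ≤ 3 := by
  have hm : 0 ≤ 1 - m := by linarith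
  by_cases hsmall : t ≤ 1
  · have e1 := gg_le_two (ν := ν) h0 h1
    have e2 := gg_le_two (ν := ν + t) h0 h1
    have e3 : (t / 2 + 1 / 4) * (gg m ν + gg m (ν + t)) ≤ (t / 2 + 1 / 4) * 4 :=
      mul_le_mul_of_nonneg_left (by linarith) (by linarith)
    linarith
  push Not at hsmall
  by_cases ha : |ν| ≤ 1
  swap
  · rw [gg_eq_zero (not_le.1 ha), zero_add]
    have e2 := gg_le_two (ν := ν + t) h0 h1
    have e3 : (t / 2 + 1 / 4) * gg m (ν + t) ≤ (t / 2 + 1 / 4) * 2 :=
      mul_le_mul_of_nonneg_left e2 (by linarith)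
    linarith
  by_cases hb : |ν + t| ≤ 1
  swap
  · rw [gg_eq_zero (not_le.1 hb), add_zero]
    have e2 := gg_le_two (ν := ν) h0 h1
    have e3 : (t / 2 + 1 / 4) * gg m ν ≤ (t / 2 + 1 / 4) * 2 :=
      mul_le_mul_of_nonneg_left e2 (by linarith)
    linarith
  unfold gg
  rw [if_pos ha, if_pos hb]
  have hab : t ≤ |ν| + |ν + t| := by
    have h1 := le_abs_self (ν + t)
    have h2 := neg_abs_le ν
    linarith
  set a := |ν|
  set b := |ν + t|
  have p1 := AA_nonneg h0 (by linarith : 0 ≤ 1 - a)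
  have p2 := AA_nonneg h0 (by linarith : 0 ≤ 1 - b)
  have p3 := AA_nonneg hm (by linarith : 0 ≤ 1 - a)
  have p4 := AA_nonneg hm (by linarith : 0 ≤ 1 - b)
  have q1 := AA_le_one (δ := 1 - a) h0
  have q2 := AA_le_one (δ := 1 - b) h0
  have q3 := AA_le_one (δ := 1 - a) hm
  have q4 := AA_le_one (δ := 1 - b) hm
  have r1 := mul_AA_le (m := m) (by linarith : 0 ≤ 1 - a)
  have r2 := mul_AA_le (m := m) (by linarith : 0 ≤ 1 - b)
  have r3 := mul_AA_le (m := 1 - m) (by linarith : 0 ≤ 1 - a)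
  have r4 := mul_AA_le (m := 1 - m) (by linarith : 0 ≤ 1 - b)
  set α := (AA m (1 - a) + AA m (1 - b)) / 2 with hα
  set β := (AA (1 - m) (1 - a) + AA (1 - m) (1 - b)) / 2 with hβ
  have key := ab_bound (m := m) (α := α) (β := β) (δ := 1 - t / 2) (by linarith)
    (by linarith) (by linarith) (by linarith) (by linarith) (by linarith)
    (by rw [hα]; linarith) (by rw [hβ]; linarith)
  have e5 : AA m (1 - a) + AA (1 - m) (1 - a) + (AA m (1 - b) + AA (1 - m) (1 - b))
      = 2 * (α + β) := by rw [hα, hβ]; ring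
  rw [e5]
  have e6 : (t + 1 / 2) * (α + β) ≤ 3 * (1 - (1 - t / 2)) * (α + β) :=
    mul_le_mul_of_nonneg_right (by linarith) (by linarith)
  linarith

/-- The integral of the truncated linear function. -/
noncomputable def BB (m ζ : ℝ) : ℝ := if ζ < m then ζ ^ 2 / (2 * m) else ζ - m / 2

theorem BB_nonneg {m ζ : ℝ} (hζ : 0 ≤ ζ) : 0 ≤ BB m ζ := by
  unfold BB
  split_ifs with h
  · have : 0 < m := hζ.trans_lt h
    positivity
  · push Not at h
    linarith

theorem BB_one {m : ℝ} (hm : m ≤ 1) : BB m 1 = 1 - m / 2 := by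
  unfold BB
  rw [if_neg (not_lt.2 hm)]

theorem lint_le {a b : ℝ} (hab : a ≤ b) {F f : ℝ → ℝ} (hf : Continuous f)
    (hnn : ∀ x, a ≤ x → x ≤ b → 0 ≤ f x) (hle : ∀ x, a ≤ x → x ≤ b → F x ≤ f x) :
    ∫⁻ x in Set.Icc a b, ENNReal.ofReal (F x) ≤ ENNReal.ofReal (∫ x in a..b, f x) := by
  have h1 : ∫⁻ x in Set.Icc a b, ENNReal.ofReal (F x) ≤
      ∫⁻ x in Set.Icc a b, ENNReal.ofReal (f x) := by
    apply setLIntegral_mono' measurableSet_Icc
    intro x hx
    exact ENNReal.ofReal_le_ofReal (hle x hx.1 hx.2)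
  refine h1.trans (le_of_eq ?_)
  rw [intervalIntegral.integral_of_le hab, ← integral_Icc_eq_integral_Ioc]
  rw [ofReal_integral_eq_lintegral_ofReal]
  · exact hf.continuousOn.integrableOn_Icc
  · rw [Filter.EventuallyLE, ae_restrict_iff' measurableSet_Icc]
    exact Filter.Eventually.of_forall fun x hx => hnn x hx.1 hx.2

theorem AA_le_div {m δ : ℝ} (hm : 0 < m) (hδ : 0 ≤ δ) : AA m δ ≤ δ / m := by
  rw [le_div_iff₀ hm, mul_comm]
  exact mul_AA_le hδ

theorem lint_AA {m ζ : ℝ} (hm : 0 ≤ m) (hζ : 0 ≤ ζ) :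
    ∫⁻ δ in Set.Icc 0 ζ, ENNReal.ofReal (AA m δ) ≤ ENNReal.ofReal (BB m ζ) := by
  rcases hm.eq_or_lt with h0 | h0
  · refine (lint_le hζ (f := fun _ => 1) continuous_const (fun _ _ _ => zero_le_one)
      (fun x _ _ => AA_le_one hm)).trans ?_
    apply ENNReal.ofReal_le_ofReal
    rw [← h0]
    unfold BB
    rw [if_neg (not_lt.2 hζ), intervalIntegral.integral_const]
    simp
  by_cases h : ζ < m
  · refine (lint_le hζ (f := fun x => x / m) (by fun_prop) (fun x hx _ => by positivity)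
      (fun x hx _ => AA_le_div h0 hx)).trans ?_
    apply ENNReal.ofReal_le_ofReal
    unfold BB
    rw [if_pos h, intervalIntegral.integral_div, integral_id]
    apply le_of_eq
    field_simp
    ring
  · push Not at h
    have hsub : Set.Icc 0 ζ ⊆ Set.Icc 0 m ∪ Set.Icc m ζ := by
      intro x hx
      rcases le_total x m with hxm | hxm
      · exact Or.inl ⟨hx.1, hxm⟩
      · exact Or.inr ⟨hxm, hx.2⟩
    refine (lintegral_mono_set hsub).trans ((lintegral_union_le _ _ _).trans ?_)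
    have e1 := lint_le h0.le (F := AA m) (f := fun x => x / m) (by fun_prop)
      (fun x hx _ => by positivity) (fun x hx _ => AA_le_div h0 hx)
    have e2 := lint_le h (F := AA m) (f := fun _ => 1) continuous_const
      (fun _ _ _ => zero_le_one) (fun x _ _ => AA_le_one hm)
    refine (add_le_add e1 e2).trans ?_
    rw [intervalIntegral.integral_div, integral_id, intervalIntegral.integral_const,
      ← ENNReal.ofReal_add]
    · apply ENNReal.ofReal_le_ofReal
      unfold BB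
      rw [if_neg (not_lt.2 h)]
      apply le_of_eq
      simp only [smul_eq_mul, mul_one]
      field_simp
      ring
    · have : 0 ≤ (m ^ 2 - 0 ^ 2) / 2 := by
        have := sq_nonneg m
        linarith
      exact div_nonneg this h0.le
    · simp only [smul_eq_mul, mul_one]; linarith

/-- The sum of both truncated linear functions. -/
noncomputable def HH (m δ : ℝ) : ENNReal := ENNReal.ofReal (AA m δ) + ENNReal.ofReal (AA (1 - m) δ)

theorem lint_HH {m ζ : ℝ} (h0 : 0 ≤ m) (h1 : m ≤ 1) (hζ : 0 ≤ ζ) :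
    ∫⁻ δ, (Set.Icc 0 ζ).indicator (HH m) δ ≤ ENNReal.ofReal (BB m ζ + BB (1 - m) ζ) := by
  rw [lintegral_indicator measurableSet_Icc]
  have hmeas : Measurable (fun δ => ENNReal.ofReal (AA m δ)) :=
    ENNReal.measurable_ofReal.comp (AA_measurable m)
  unfold HH
  rw [lintegral_add_left hmeas]
  rw [ENNReal.ofReal_add (BB_nonneg hζ) (BB_nonneg hζ)]
  exact add_le_add (lint_AA h0 hζ) (lint_AA (by linarith) hζ)

/-- The integral over the inner levels. -/
noncomputable def Jint (m ν t : ℝ) : ENNReal :=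
  ∫⁻ η, (Set.Icc 1 (t - 1)).indicator (fun η => ENNReal.ofReal (gg m (ν + η))) η

theorem Jint_symm (m ν t : ℝ) : Jint m ν t = Jint m (-ν - t) t := by
  unfold Jint
  rw [← lintegral_sub_left_eq_self _ t]
  congr 1
  ext η
  by_cases h : η ∈ Set.Icc 1 (t - 1)
  · have h' : t - η ∈ Set.Icc 1 (t - 1) := ⟨by linarith [h.2], by linarith [h.1]⟩
    rw [Set.indicator_of_mem h', Set.indicator_of_mem h, ← gg_neg]
    congr 2; ring
  · have h' : t - η ∉ Set.Icc 1 (t - 1) := fun h' => h ⟨by linarith [h'.2], by linarith [h'.1]⟩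
    rw [Set.indicator_of_notMem h', Set.indicator_of_notMem h]

theorem ofReal_gg_le {m : ℝ} (h0 : 0 ≤ m) (h1 : m ≤ 1) {ν : ℝ} (h : |ν| ≤ 1) :
    ENNReal.ofReal (gg m ν) ≤ HH m (1 - |ν|) := by
  unfold gg HH
  rw [if_pos h, ENNReal.ofReal_add (AA_nonneg h0 (by linarith))
    (AA_nonneg (by linarith) (by linarith))]

theorem Jint_left {m : ℝ} (h0 : 0 ≤ m) (h1 : m ≤ 1) {ν t : ℝ} (hν0 : -1 ≤ ν) (hν1 : ν ≤ 0) :
    Jint m ν t ≤ ENNReal.ofReal (BB m (-ν) + BB (1 - m) (-ν)) := by
  refine le_trans ?_ (lint_HH h0 h1 (by linarith))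
  rw [← lintegral_sub_left_eq_self _ (1 - ν)]
  unfold Jint
  apply lintegral_mono
  intro η
  by_cases h : η ∈ Set.Icc 1 (t - 1)
  · rw [Set.indicator_of_mem h]
    by_cases hle : ν + η ≤ 1
    · have hnn : 0 ≤ ν + η := by linarith [h.1]
      have habs : |ν + η| = ν + η := abs_of_nonneg hnn
      have hmem : 1 - ν - η ∈ Set.Icc 0 (-ν) := by constructor <;> linarith [h.1]
      change _ ≤ (Set.Icc 0 (-ν)).indicator (HH m) (1 - ν - η)
      rw [Set.indicator_of_mem hmem]
      refine (ofReal_gg_le h0 h1 (by rw [habs]; exact hle)).trans (le_of_eq ?_)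
      rw [habs]
      congr 1; ring
    · have : 1 < |ν + η| := (not_le.1 hle).trans_le (le_abs_self _)
      rw [gg_eq_zero this, ENNReal.ofReal_zero]
      exact zero_le
  · rw [Set.indicator_of_notMem h]
    exact zero_le

theorem Jint_zero {m ν t : ℝ} (hν : 0 < ν) : Jint m ν t = 0 := by
  unfold Jint
  rw [← lintegral_zero]
  congr 1
  ext η
  by_cases h : η ∈ Set.Icc 1 (t - 1)
  · rw [Set.indicator_of_mem h]
    have : 1 < |ν + η| := lt_of_lt_of_le (by linarith [h.1]) (le_abs_self _)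
    rw [gg_eq_zero this, ENNReal.ofReal_zero]
  · rw [Set.indicator_of_notMem h]

theorem Jint_le_three {m : ℝ} (h0 : 0 ≤ m) (h1 : m ≤ 1) (ν t : ℝ) :
    Jint m ν t ≤ ENNReal.ofReal 3 := by
  have hH := lint_HH h0 h1 zero_le_one
  rw [BB_one h1, BB_one (by linarith)] at hH
  have e1 : 1 - m / 2 + (1 - (1 - m) / 2) = 3 / 2 := by ring
  rw [e1] at hH
  have hsum : ENNReal.ofReal 3 = ENNReal.ofReal (3 / 2) + ENNReal.ofReal (3 / 2) := by
    rw [← ENNReal.ofReal_add (by norm_num) (by norm_num)]; norm_num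
  rw [hsum]
  have hmeas : Measurable ((Set.Icc (0 : ℝ) 1).indicator (HH m)) := by
    apply Measurable.indicator _ measurableSet_Icc
    unfold HH
    exact (ENNReal.measurable_ofReal.comp (AA_measurable m)).add
      (ENNReal.measurable_ofReal.comp (AA_measurable (1 - m)))
  have k1 : ∫⁻ η, (Set.Icc (0 : ℝ) 1).indicator (HH m) ((1 - ν) - η) ≤ ENNReal.ofReal (3 / 2) := by
    rw [lintegral_sub_left_eq_self _ (1 - ν)]; exact hH
  have k2 : ∫⁻ η, (Set.Icc (0 : ℝ) 1).indicator (HH m) ((1 + ν) + η) ≤ ENNReal.ofReal (3 / 2) := by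
    rw [lintegral_add_left_eq_self _ (1 + ν)]; exact hH
  refine le_trans ?_ (add_le_add k1 k2)
  have hmeas2 : Measurable (fun η => (Set.Icc (0 : ℝ) 1).indicator (HH m) ((1 - ν) - η)) :=
    hmeas.comp (by fun_prop)
  rw [← lintegral_add_left hmeas2]
  unfold Jint
  apply lintegral_mono
  intro η
  refine (Set.indicator_le_self _ _ _).trans ?_
  by_cases hle : |ν + η| ≤ 1
  · refine (ofReal_gg_le h0 h1 hle).trans ?_
    have hle' := abs_le.1 hle
    rcases le_total 0 (ν + η) with hs | hs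
    · refine le_trans ?_ (le_add_of_nonneg_right zero_le)
      have hmem : 1 - ν - η ∈ Set.Icc (0 : ℝ) 1 := by constructor <;> linarith
      rw [Set.indicator_of_mem hmem, abs_of_nonneg hs]
      apply le_of_eq
      congr 1; ring
    · refine le_trans ?_ (le_add_of_nonneg_left zero_le)
      have hmem : 1 + ν + η ∈ Set.Icc (0 : ℝ) 1 := by constructor <;> linarith
      rw [Set.indicator_of_mem hmem, abs_of_nonpos hs]
      apply le_of_eq
      congr 1; ring
  · rw [gg_eq_zero (not_le.1 hle), ENNReal.ofReal_zero]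
    exact zero_le

end Pool.Agent.Lib.MP_eb03ca_co
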