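import Mathlib
import Pool.Agent.Lib.MP_eb03ca_co.HexBracket

/-!
Parallelograms covered by `N` hexagons have parametric value at most `3 N` for the parameter
`1/4` (problem MP_eb03ca_co).
-/

set_option autoImplicit false

open MeasureTheory

namespace Pool.Agent.Lib.MP_eb03ca_co

theorem left_ineq_half {m ζ : ℝ} (h0 : 0 ≤ m) (h1 : m ≤ 1 / 2) (hζ0 : 0 ≤ ζ) (hζ1 : ζ ≤ 1) :
    5 / 4 * (AA m (1 - ζ) + AA (1 - m) (1 - ζ)) + (BB m ζ + BB (1 - m) ζ) ≤ 3 := by
  have hm' : 0 < 1 - m := by linarith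
  have p1 := AA_nonneg h0 (by linarith : 0 ≤ 1 - ζ)
  have p3 := AA_nonneg hm'.le (by linarith : 0 ≤ 1 - ζ)
  have q1 := AA_le_one (δ := 1 - ζ) h0
  have q3 := AA_le_one (δ := 1 - ζ) hm'.le
  have r1 := mul_AA_le (m := m) (by linarith : 0 ≤ 1 - ζ)
  have r3 := mul_AA_le (m := 1 - m) (by linarith : 0 ≤ 1 - ζ)
  rcases lt_or_ge ζ m with hA | hA
  · -- small `ζ`
    have e1 : BB m ζ ≤ m / 2 := by
      unfold BB
      rw [if_pos hA]
      have hm0 : 0 < m := hζ0.trans_lt hA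
      rw [div_le_div_iff₀ (by positivity) (by norm_num)]
      nlinarith
    have e2 : BB (1 - m) ζ ≤ m / 2 := by
      unfold BB
      rw [if_pos (by linarith)]
      rw [div_le_div_iff₀ (by positivity) (by norm_num)]
      nlinarith [mul_nonneg hζ0 (sub_nonneg.2 hA.le)]
    linarith
  have eB : BB m ζ = ζ - m / 2 := by
    unfold BB
    rw [if_neg (not_lt.2 hA)]
  rw [eB]
  rcases lt_or_ge ζ (1 - m) with hB | hB
  · -- middle `ζ`
    have eB2 : BB (1 - m) ζ = ζ ^ 2 / (2 * (1 - m)) := by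
      unfold BB
      rw [if_pos hB]
    rw [eB2]
    -- multiply by `1 - m`
    have key : (1 - m) * (5 / 4 * (AA m (1 - ζ) + AA (1 - m) (1 - ζ)) +
        (ζ - m / 2 + ζ ^ 2 / (2 * (1 - m)))) ≤ (1 - m) * 3 := by
      have e3 : (1 - m) * (ζ ^ 2 / (2 * (1 - m))) = ζ ^ 2 / 2 := by
        field_simp
      have e4 : (1 - m) * AA m (1 - ζ) ≤ 1 - m := by
        have := mul_le_mul_of_nonneg_left q1 hm'.le
        linarith
      have e5 : (1 - m) * (5 / 4 * (AA m (1 - ζ) + AA (1 - m) (1 - ζ)) +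
          (ζ - m / 2 + ζ ^ 2 / (2 * (1 - m)))) = 5 / 4 * ((1 - m) * AA m (1 - ζ)
          + (1 - m) * AA (1 - m) (1 - ζ)) + ((1 - m) * (ζ - m / 2)
          + (1 - m) * (ζ ^ 2 / (2 * (1 - m)))) := by ring
      rw [e5, e3]
      -- with `w = ζ - m`
      have hw0 : 0 ≤ ζ - m := by linarith
      have hw1 : ζ - m ≤ 1 - 2 * m := by linarith
      have hw2 : (ζ - m) ^ 2 ≤ 1 - 2 * m := by nlinarith
      have e6 : 5 / 4 * ((1 - m) + (1 - ζ)) + ((1 - m) * (ζ - m / 2) + ζ ^ 2 / 2) - (1 - m) * 3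
          = -(1 - 2 * m) / 2 - (ζ - m) / 4 + (ζ - m) ^ 2 / 2 := by ring
      linarith
    exact le_of_mul_le_mul_left key hm'
  · -- large `ζ`
    have eB2 : BB (1 - m) ζ = ζ - (1 - m) / 2 := by
      unfold BB
      rw [if_neg (not_lt.2 hB)]
    rw [eB2]
    have key := ab_bound (m := m) (α := AA m (1 - ζ)) (β := AA (1 - m) (1 - ζ)) (δ := 1 - ζ)
      p1 q1 p3 q3 (by linarith) (by linarith) r1 r3
    have hζpos : 0 < ζ := by linarith
    have e1 : 1 - (1 - ζ) = ζ := by ring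
    rw [e1] at key
    have e2 : ζ * (5 / 4 * (AA m (1 - ζ) + AA (1 - m) (1 - ζ)) +
        (ζ - m / 2 + (ζ - (1 - m) / 2))) ≤ ζ * 3 := by
      have hz : 1 / 2 ≤ ζ := by linarith
      nlinarith [mul_nonneg (sub_nonneg.2 hz) (sub_nonneg.2 hζ1)]
    exact le_of_mul_le_mul_left e2 hζpos

theorem left_ineq {m ζ : ℝ} (h0 : 0 ≤ m) (h1 : m ≤ 1) (hζ0 : 0 ≤ ζ) (hζ1 : ζ ≤ 1) :
    5 / 4 * (AA m (1 - ζ) + AA (1 - m) (1 - ζ)) + (BB m ζ + BB (1 - m) ζ) ≤ 3 := by
  rcases le_total m (1 / 2) with h | h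
  · exact left_ineq_half h0 h hζ0 hζ1
  · have := left_ineq_half (m := 1 - m) (ζ := ζ) (by linarith) (by linarith) hζ0 hζ1
    have e : 1 - (1 - m) = m := by ring
    rw [e] at this
    linarith

theorem bracket_left {m : ℝ} (h0 : 0 ≤ m) (h1 : m ≤ 1) {t : ℝ} (ht2 : 2 < t)
    {ν : ℝ} (hν : |ν| ≤ 1) : ∃ b : ℝ, 0 ≤ b ∧ Jint m ν t ≤ ENNReal.ofReal b ∧
    5 / 4 * (gg m ν + gg m (ν + t)) + b ≤ 3 := by
  have hν' := abs_le.1 hν
  have e0 : gg m (ν + t) = 0 := gg_eq_zero (lt_of_lt_of_le (by linarith) (le_abs_self _))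
  rw [e0, add_zero]
  rcases le_or_gt ν 0 with hs | hs
  · refine ⟨BB m (-ν) + BB (1 - m) (-ν), add_nonneg (BB_nonneg (by linarith))
      (BB_nonneg (by linarith)), Jint_left h0 h1 hν'.1 hs, ?_⟩
    unfold gg
    rw [if_pos hν, abs_of_nonpos hs]
    exact left_ineq h0 h1 (by linarith) (by linarith)
  · refine ⟨0, le_rfl, ?_, ?_⟩
    · rw [Jint_zero hs]; exact zero_le
    · have := gg_le_two (ν := ν) h0 h1
      linarith

/-- High parallelograms. -/
theorem bracket_large {m : ℝ} (h0 : 0 ≤ m) (h1 : m ≤ 1) {t : ℝ} (ht2 : 2 < t)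
    (ν : ℝ) : ∃ b : ℝ, 0 ≤ b ∧ Jint m ν t ≤ ENNReal.ofReal b ∧
    5 / 4 * (gg m ν + gg m (ν + t)) + b ≤ 3 := by
  by_cases ha : |ν| ≤ 1
  · exact bracket_left h0 h1 ht2 ha
  by_cases hb : |ν + t| ≤ 1
  · obtain ⟨b, hb0, hb1, hb2⟩ := bracket_left h0 h1 ht2 (ν := -ν - t)
      (by rw [show -ν - t = -(ν + t) by ring, abs_neg]; exact hb)
    refine ⟨b, hb0, ?_, ?_⟩
    · rw [Jint_symm]; exact hb1
    · rw [show -ν - t = -(ν + t) by ring, gg_neg, show -(ν + t) + t = -ν by ring, gg_neg] at hb2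
      linarith
  · refine ⟨3, by norm_num, Jint_le_three h0 h1 ν t, ?_⟩
    rw [gg_eq_zero (not_le.1 ha), gg_eq_zero (not_le.1 hb)]
    norm_num

/-- The sum of the inner level estimates. -/
theorem sum_Jint {m : ℝ} (h0 : 0 ≤ m) (h1 : m ≤ 1) {ℓ t L : ℝ} (ht2 : 2 < t)
    {S : Finset (ℝ × ℝ)}
    (hlev : ∀ η : ℝ, 0 ≤ η → η ≤ t → ℓ ≤ ∑ c ∈ S, gg m (L + η - lev m c)) :
    ENNReal.ofReal (ℓ * (t - 2)) ≤ ∑ c ∈ S, Jint m (L - lev m c) t := by
  unfold Jint
  rw [← lintegral_finsetSum]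
  swap
  · intro c _
    apply Measurable.indicator _ measurableSet_Icc
    exact ENNReal.measurable_ofReal.comp ((gg_measurable m).comp (by fun_prop))
  have e1 : ENNReal.ofReal (ℓ * (t - 2)) = ∫⁻ η in Set.Icc 1 (t - 1), ENNReal.ofReal ℓ := by
    rw [lintegral_const, Measure.restrict_apply_univ, Real.volume_Icc,
      ← ENNReal.ofReal_mul' (by linarith)]
    congr 1; ring
  rw [e1, ← lintegral_indicator measurableSet_Icc]
  apply lintegral_mono
  intro η
  by_cases h : η ∈ Set.Icc 1 (t - 1)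
  · rw [Set.indicator_of_mem h]
    have h2 := hlev η (by linarith [h.1]) (by linarith [h.2])
    refine (ENNReal.ofReal_le_ofReal h2).trans ?_
    rw [ENNReal.ofReal_sum_of_nonneg (fun c _ => gg_nonneg h0 h1)]
    apply Finset.sum_le_sum
    intro c _
    rw [Set.indicator_of_mem h]
    apply le_of_eq
    congr 2; ring
  · rw [Set.indicator_of_notMem h]
    exact zero_le

theorem hexa_sector {m : ℝ} (h0 : 0 ≤ m) (h1 : m ≤ 1) {ℓ t L : ℝ} (ht0 : 0 ≤ t)
    {S : Finset (ℝ × ℝ)}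
    (hlev : ∀ η : ℝ, 0 ≤ η → η ≤ t → ℓ ≤ ∑ c ∈ S, gg m (L + η - lev m c)) :
    ℓ * (t + 1 / 2) ≤ 3 * S.card := by
  have hbot := hlev 0 le_rfl ht0
  have htop := hlev t ht0 le_rfl
  rcases le_or_gt t 2 with ht2 | ht2
  · have hsum : (t / 2 + 1 / 4) * (∑ c ∈ S, gg m (L + 0 - lev m c)
        + ∑ c ∈ S, gg m (L + t - lev m c)) ≤ 3 * S.card := by
      rw [← Finset.sum_add_distrib, Finset.mul_sum]
      refine (Finset.sum_le_card_nsmul S _ 3 ?_).trans (le_of_eq ?_)
      · intro c _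
        have := bracket_small h0 h1 ht0 ht2 (L - lev m c)
        have e1 : L + 0 - lev m c = L - lev m c := by ring
        have e2 : L + t - lev m c = L - lev m c + t := by ring
        rw [e1, e2]; exact this
      · rw [nsmul_eq_mul]; ring
    have h2 : (t / 2 + 1 / 4) * (ℓ + ℓ) ≤ (t / 2 + 1 / 4) * (∑ c ∈ S, gg m (L + 0 - lev m c)
        + ∑ c ∈ S, gg m (L + t - lev m c)) :=
      mul_le_mul_of_nonneg_left (add_le_add hbot htop) (by linarith)
    linarith
  · have hex : ∀ c : ℝ × ℝ, ∃ b : ℝ, 0 ≤ b ∧ Jint m (L - lev m c) t ≤ ENNReal.ofReal b ∧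
        5 / 4 * (gg m (L - lev m c) + gg m (L - lev m c + t)) + b ≤ 3 :=
      fun c => bracket_large h0 h1 ht2 _
    choose b hb0 hb1 hb2 using hex
    have h3 := (sum_Jint h0 h1 ht2 hlev).trans (Finset.sum_le_sum fun c _ => hb1 c)
    rw [← ENNReal.ofReal_sum_of_nonneg (fun c _ => hb0 c),
      ENNReal.ofReal_le_ofReal_iff (Finset.sum_nonneg fun c _ => hb0 c)] at h3
    have hsum : 5 / 4 * (∑ c ∈ S, gg m (L + 0 - lev m c) + ∑ c ∈ S, gg m (L + t - lev m c))
        + ∑ c ∈ S, b c ≤ 3 * S.card := by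
      rw [← Finset.sum_add_distrib, Finset.mul_sum, ← Finset.sum_add_distrib]
      refine (Finset.sum_le_card_nsmul S _ 3 ?_).trans (le_of_eq ?_)
      · intro c _
        have := hb2 c
        have e1 : L + 0 - lev m c = L - lev m c := by ring
        have e2 : L + t - lev m c = L - lev m c + t := by ring
        rw [e1, e2]; exact this
      · rw [nsmul_eq_mul]; ring
    linarith

/-- Directions in the first sector. -/
theorem hexa_para_sector {S : Finset (ℝ × ℝ)} {p f e s t : ℝ × ℝ} (hf1 : 0 ≤ f.2)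
    (hf2 : f.2 ≤ f.1) (hcov : CovBy hexa S p f e) (hs : s ∈ hexa) (ht : t ∈ hexa)
    (hdet : 0 ≤ det f e) : det f e + 1 / 4 * det f (s - t) ≤ 3 * S.card := by
  rcases (hf1.trans hf2).eq_or_lt with h | hℓ
  · have hf : f = 0 := by
      ext
      · exact h.symm
      · simp only [Prod.snd_zero]; linarith
    rw [hf]
    simp only [det, Prod.fst_zero, Prod.snd_zero, zero_mul, sub_zero, mul_zero, add_zero]
    positivity
  set ℓ := f.1 with hℓdef
  set m := f.2 / ℓ with hm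
  have hf2' : f.2 = m * ℓ := by rw [hm]; field_simp
  have hm0 : 0 ≤ m := div_nonneg hf1 hℓ.le
  have hm1 : m ≤ 1 := by rw [hm, div_le_one hℓ]; exact hf2
  have hf : f = ((ℓ, m * ℓ) : ℝ × ℝ) := by
    ext
    · rfl
    · exact hf2'
  set T := det f e / ℓ with hT
  have hT0 : 0 ≤ T := div_nonneg hdet hℓ.le
  have hTℓ : det f e = ℓ * T := by rw [hT]; field_simp
  have hleve : lev m e = T := by
    have : det f e = ℓ * lev m e := by
      unfold det lev; rw [hf2', ← hℓdef]; ring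
    rw [hT, this]; field_simp
  have hlev : ∀ η : ℝ, 0 ≤ η → η ≤ T → ℓ ≤ ∑ c ∈ S, gg m (lev m p + η - lev m c) := by
    intro η hη0 hη1
    obtain ⟨τ, hτ0, hτ1, hτ⟩ : ∃ τ : ℝ, 0 ≤ τ ∧ τ ≤ 1 ∧ τ * T = η := by
      rcases hT0.eq_or_lt with h | h
      · exact ⟨0, le_rfl, zero_le_one, by rw [zero_mul]; linarith⟩
      · exact ⟨η / T, div_nonneg hη0 hT0, (div_le_one h).2 hη1, by field_simp⟩
    have key := level_cover hm0 hm1 hℓ (S := S) (q := p + τ • e) (by
      intro σ h1 h2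
      obtain ⟨c, hcS, hc⟩ := hcov σ τ h1 h2 hτ0 hτ1
      refine ⟨c, hcS, ?_⟩
      rw [← hf]
      convert hc using 1
      abel)
    have e1 : lev m (p + τ • e) = lev m p + η := by
      rw [← hτ, ← hleve]
      simp only [lev, Prod.fst_add, Prod.snd_add, Prod.smul_fst, Prod.smul_snd, smul_eq_mul]
      ring
    rw [e1] at key
    exact key
  have key := hexa_sector hm0 hm1 hT0 hlev
  have hst : det f (s - t) ≤ 2 * ℓ := by
    have e1 : det f (s - t) = ℓ * (lev m s - lev m t) := by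
      simp only [det, lev, Prod.fst_sub, Prod.snd_sub]
      rw [hf2', ← hℓdef]; ring
    have h1 := abs_le.1 (abs_lev_le hm0 hm1 hs)
    have h2 := abs_le.1 (abs_lev_le hm0 hm1 ht)
    rw [e1, mul_comm]
    exact mul_le_mul_of_nonneg_right (by linarith) hℓ.le
  rw [hTℓ]
  linarith

/-- All values of a direction are bounded. -/
def PB (f : ℝ × ℝ) : Prop :=
  ∀ (S : Finset (ℝ × ℝ)) (p e s t : ℝ × ℝ), CovBy hexa S p f e → s ∈ hexa → t ∈ hexa →
    det f e + 1 / 4 * det f (s - t) ≤ 3 * S.card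

theorem CovBy.flip {K : Set (ℝ × ℝ)} {S : Finset (ℝ × ℝ)} {p f e : ℝ × ℝ}
    (h : CovBy K S p f e) : CovBy K S (p + e) f (-e) := by
  intro σ τ h1 h2 h3 h4
  obtain ⟨c, hcS, hc⟩ := h σ (1 - τ) h1 h2 (by linarith) (by linarith)
  refine ⟨c, hcS, ?_⟩
  convert hc using 1
  module

theorem PB_sector {f : ℝ × ℝ} (hf1 : 0 ≤ f.2) (hf2 : f.2 ≤ f.1) : PB f := by
  intro S p e s t hcov hs ht
  rcases le_total 0 (det f e) with h | h
  · exact hexa_para_sector hf1 hf2 hcov hs ht h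
  · have e1 : det f (-e) = - det f e := by
      simp only [det, Prod.fst_neg, Prod.snd_neg]; ring
    have := hexa_para_sector hf1 hf2 hcov.flip hs ht (by rw [e1]; linarith)
    rw [e1] at this
    linarith

/-- The rotation of order six. -/
def rot (z : ℝ × ℝ) : ℝ × ℝ := (z.1 - z.2, z.1)

theorem rot_hexa {z : ℝ × ℝ} (hz : z ∈ hexa) : rot z ∈ hexa := by
  rw [mem_hexa] at hz ⊢
  obtain ⟨⟨a1, a2⟩, ⟨a3, a4⟩, a5, a6⟩ := hz
  refine ⟨⟨?_, ?_⟩, ⟨?_, ?_⟩, ?_, ?_⟩ <;> simp only [rot] <;> linarith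

theorem det_rot (a b : ℝ × ℝ) : det (rot a) (rot b) = det a b := by
  simp only [det, rot]; ring

theorem PB_of_rot {f : ℝ × ℝ} (h : PB (rot f)) : PB f := by
  classical
  intro S p e s t hcov hs ht
  have hcov' : CovBy hexa (S.image rot) (rot p) (rot f) (rot e) := by
    intro σ τ h1 h2 h3 h4
    obtain ⟨c, hcS, hc⟩ := hcov σ τ h1 h2 h3 h4
    refine ⟨rot c, Finset.mem_image_of_mem _ hcS, ?_⟩
    convert rot_hexa hc using 1
    ext
    · simp only [rot, Prod.fst_sub, Prod.fst_add, Prod.smul_fst, smul_eq_mul, Prod.snd_sub,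
        Prod.snd_add, Prod.smul_snd]; ring
    · simp only [rot, Prod.fst_sub, Prod.fst_add, Prod.smul_fst, smul_eq_mul, Prod.snd_sub,
        Prod.snd_add, Prod.smul_snd]
  have h1 := h (S.image rot) (rot p) (rot e) (rot s) (rot t) hcov' (rot_hexa hs) (rot_hexa ht)
  have e1 : rot s - rot t = rot (s - t) := by
    ext
    · simp only [rot, Prod.fst_sub, Prod.snd_sub]; ring
    · simp only [rot, Prod.fst_sub, Prod.snd_sub]
  rw [e1, det_rot, det_rot] at h1
  have h2 : ((S.image rot).card : ℝ) ≤ S.card := by exact_mod_cast Finset.card_image_le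
  linarith

theorem PB_all (f : ℝ × ℝ) : PB f := by
  rcases le_total 0 f.1 with hx | hx
  · rcases le_total f.2 0 with hy | hy
    · apply PB_of_rot
      apply PB_sector
      · exact hx
      · simp only [rot]; linarith
    · rcases le_total f.2 f.1 with hxy | hxy
      · exact PB_sector hy hxy
      · apply PB_of_rot
        apply PB_of_rot
        apply PB_of_rot
        apply PB_of_rot
        apply PB_of_rot
        apply PB_sector
        · simp only [rot]; linarith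
        · simp only [rot]; linarith
  · rcases le_total f.2 0 with hy | hy
    · rcases le_total f.2 f.1 with hxy | hxy
      · apply PB_of_rot
        apply PB_of_rot
        apply PB_sector
        · simp only [rot]; linarith
        · simp only [rot]; linarith
      · apply PB_of_rot
        apply PB_of_rot
        apply PB_of_rot
        apply PB_sector
        · simp only [rot]; linarith
        · simp only [rot]; linarith
    · apply PB_of_rot
      apply PB_of_rot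
      apply PB_of_rot
      apply PB_of_rot
      apply PB_sector
      · simp only [rot]; linarith
      · simp only [rot]; linarith

theorem hexa_paraBound : ParaBound hexa (1 / 4) 3 :=
  fun S p f e s t hcov hs ht => PB_all f S p e s t hcov hs ht

theorem hexa_Uv_quarter : Uv hexa (1 / 4) ≤ 3 := Uv_le ⟨0, zero_mem_hexa⟩ hexa_paraBound

/-- The density of the hexagon is constant on `[0, 1/4]`. -/
theorem hexa_Uv {θ : ℝ} (h0 : 0 ≤ θ) (h1 : θ ≤ 1 / 4) : Uv hexa θ = 3 := by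
  have hne : hexa.Nonempty := ⟨0, zero_mem_hexa⟩
  apply le_antisymm
  · exact (Uv_mono hexa_compact hexa_convex hne h0 h1).trans hexa_Uv_quarter
  · exact three_le_Uv.trans (Uv_mono hexa_compact hexa_convex hne le_rfl h0)

end Pool.Agent.Lib.MP_eb03ca_co
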