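import Mathlib
import Pool.Agent.Lib.MP_eb03ca_co.Limit

/-!
For every convex domain `K` and every `θ > 1/4` the density `Θ(K,θ)` exceeds `Θ(K,0)`
(problem MP_eb03ca_co).
-/

set_option autoImplicit false

open scoped Pointwise Topology
open MeasureTheory Filter

namespace Pool.Agent.Lib.MP_eb03ca_co

variable {K : Set (ℝ × ℝ)}

theorem covBy_single (hc : Convex ℝ K) {p q d : ℝ × ℝ} (hp : p ∈ K) (hq : q ∈ K)
    (hpd : p + d ∈ K) (hqd : q + d ∈ K) : CovBy K {(0 : ℝ × ℝ)} q d (p - q) := by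
  intro σ τ h1 h2 h3 h4
  refine ⟨0, Finset.mem_singleton_self _, ?_⟩
  have e1 := hc hq hqd (a := 1 - σ) (b := σ) (by linarith) h1 (by ring)
  have e2 := hc hp hpd (a := 1 - σ) (b := σ) (by linarith) h1 (by ring)
  have e3 := hc e1 e2 (a := 1 - τ) (b := τ) (by linarith) h3 (by ring)
  convert e3 using 1
  ext
  · simp only [Prod.fst_add, Prod.smul_fst, smul_eq_mul, Prod.fst_sub, Prod.fst_zero]; ring
  · simp only [Prod.snd_add, Prod.smul_snd, smul_eq_mul, Prod.snd_sub, Prod.snd_zero]; ring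

theorem row_le (hK : IsCompact K) (hc : Convex ℝ K) (θ : ℝ) {p q d s t : ℝ × ℝ} (hp : p ∈ K)
    (hq : q ∈ K) (hpd : p + d ∈ K) (hqd : q + d ∈ K) (hs : s ∈ K) (ht : t ∈ K) :
    det d (p - q) + θ * det d (s - t) ≤ Uv K θ := by
  have := paraBound_Uv hK hc θ _ _ _ _ s t (covBy_single hc hp hq hpd hqd) hs ht
  simpa using this

/-- The values of one-row strips for the parameter `1/4`. -/
def rowVals (K : Set (ℝ × ℝ)) : Set ℝ :=
  {r | ∃ p q d s t : ℝ × ℝ, p ∈ K ∧ q ∈ K ∧ p + d ∈ K ∧ q + d ∈ K ∧ s ∈ K ∧ t ∈ K ∧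
    r = det d (p - q) + det d (s - t) / 4}

theorem rowVals_bdd (hK : IsCompact K) (hc : Convex ℝ K) : BddAbove (rowVals K) := by
  refine ⟨Uv K (1 / 4), ?_⟩
  rintro _ ⟨p, q, d, s, t, hp, hq, hpd, hqd, hs, ht, rfl⟩
  have := row_le hK hc (1 / 4) hp hq hpd hqd hs ht
  linarith

theorem rowBound_sSup (hK : IsCompact K) (hc : Convex ℝ K) :
    RowBound K (sSup (rowVals K)) := by
  intro p q d s t hp hq hpd hqd hs ht
  have := le_csSup (rowVals_bdd hK hc) ⟨p, q, d, s, t, hp, hq, hpd, hqd, hs, ht, rfl⟩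
  linarith

theorem sSup_rowVals_pos (hK : IsCompact K) (hc : Convex ℝ K) (hint : (interior K).Nonempty) :
    0 < sSup (rowVals K) := by
  obtain ⟨z0, hz0⟩ := hint
  obtain ⟨r, hr0, hr⟩ : ∃ r > 0, ∀ u : ℝ × ℝ, |u.1| ≤ r → |u.2| ≤ r → z0 + u ∈ K := by
    rw [mem_interior_iff_mem_nhds, Metric.mem_nhds_iff] at hz0
    obtain ⟨r, hr0, hr⟩ := hz0
    refine ⟨r / 2, by linarith, fun u h1 h2 => hr ?_⟩
    rw [Metric.mem_ball, dist_eq_norm]
    have : z0 + u - z0 = u := by abel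
    rw [this, Prod.norm_def]
    exact max_lt (by rw [Real.norm_eq_abs]; linarith) (by rw [Real.norm_eq_abs]; linarith)
  have habs : |r| ≤ r := le_of_eq (abs_of_pos hr0)
  have a1 : z0 + ((0, r) : ℝ × ℝ) ∈ K := hr _ (by simpa using hr0.le) habs
  have a2 : z0 + ((r, 0) : ℝ × ℝ) ∈ K := hr _ habs (by simpa using hr0.le)
  have a3 : z0 + ((0, r) : ℝ × ℝ) + ((r, 0) : ℝ × ℝ) ∈ K := by
    have := hr (r, r) habs habs
    convert this using 1
    ext
    · simp
    · simp
  have a0 : z0 ∈ K := interior_subset hz0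
  have key := le_csSup (rowVals_bdd hK hc)
    ⟨z0 + ((0, r) : ℝ × ℝ), z0, ((r, 0) : ℝ × ℝ), z0, z0, a1, a0, a3, a2, a0, a0, rfl⟩
  refine lt_of_lt_of_le ?_ key
  simp only [det, Prod.fst_sub, Prod.snd_sub, Prod.fst_add, Prod.snd_add]
  nlinarith

theorem Uv_zero_le (hK : IsConvexDomain K) : Uv K 0 ≤ sSup (rowVals K) := by
  obtain ⟨hKc, hc, hint⟩ := hK
  apply Uv_le (hint.mono interior_subset)
  intro S p f e s t hcov _ _
  rw [zero_mul, add_zero]
  exact para_bound hKc hc hint (rowBound_sSup hKc hc) hcov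

theorem strict_of_gt (hK : IsConvexDomain K) {θ : ℝ} (hθ : 1 / 4 < θ) : Uv K 0 < Uv K θ := by
  refine (Uv_zero_le hK).trans_lt ?_
  obtain ⟨hKc, hc, hint⟩ := hK
  have hR0 := sSup_rowVals_pos hKc hc hint
  have hne := hint.mono interior_subset
  set η := θ - 1 / 4 with hη
  have hη0 : 0 < η := by linarith
  have hU0 := Uv_nonneg hKc hc hne θ
  have hle : sSup (rowVals K) ≤ Uv K θ / (1 + 4 / 5 * η) := by
    apply csSup_le
    · obtain ⟨z, hz⟩ := hne
      exact ⟨_, z, z, 0, z, z, hz, hz, by simpa using hz, by simpa using hz, hz, hz, rfl⟩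
    rintro _ ⟨p, q, d, s, t, hp, hq, hpd, hqd, hs, ht, rfl⟩
    rw [le_div_iff₀ (by positivity)]
    set A := det d (p - q) with hA
    set W := det d (s - t) with hW
    rcases le_or_gt (A + W / 4) 0 with h0 | h0
    · have : (A + W / 4) * (1 + 4 / 5 * η) ≤ 0 :=
        mul_nonpos_of_nonpos_of_nonneg h0 (by positivity)
      linarith
    rcases le_total A W with h | h
    · have h1 := row_le hKc hc θ hp hq hpd hqd hs ht
      rw [← hA, ← hW] at h1
      have h2 : 4 / 5 * (A + W / 4) ≤ W := by linarith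
      have h3 := mul_le_mul_of_nonneg_left h2 hη0.le
      have h4 : A + θ * W = A + W / 4 + η * W := by rw [hη]; ring
      linarith
    · have h1 := row_le hKc hc θ hp hq hpd hqd hp hq
      rw [← hA] at h1
      have h2 : 4 / 5 * (A + W / 4) ≤ A := by linarith
      have h3 := mul_le_mul_of_nonneg_left h2 hη0.le
      have h4 : A + θ * A = A + A / 4 + η * A := by rw [hη]; ring
      linarith
  rw [le_div_iff₀ (by positivity)] at hle
  have h5 : 0 < sSup (rowVals K) * (4 / 5 * η) := by positivity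
  have h6 : sSup (rowVals K) * (1 + 4 / 5 * η)
      = sSup (rowVals K) + sSup (rowVals K) * (4 / 5 * η) := by ring
  linarith

end Pool.Agent.Lib.MP_eb03ca_co
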