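import Mathlib
import Pool.Agent.Lib.MP_eb03ca_co.Strict
import Pool.Agent.Lib.MP_eb03ca_co.HexFinal

/-!
The critical radius: existence, the upper bound `1/4`, and its value for the hexagon
(problem MP_eb03ca_co).
-/

set_option autoImplicit false

open Filter
open scoped Topology

namespace Pool.Agent.Lib.MP_eb03ca_co

variable {K : Set (ℝ × ℝ)}

/-- The set of parameters with the same density as the parameter `0`. -/
def critSet (K : Set (ℝ × ℝ)) : Set ℝ := {θ : ℝ | 0 ≤ θ ∧ Theta K θ = Theta K 0}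

theorem critSet_le (hK : IsConvexDomain K) {θ : ℝ} (hθ : θ ∈ critSet K) : θ ≤ 1 / 4 := by
  by_contra hcon
  push Not at hcon
  have h1 := strict_of_gt hK hcon
  have h2 := hθ.2
  rw [Theta_eq hK hθ.1, Theta_eq hK le_rfl] at h2
  linarith

theorem critSet_bdd (hK : IsConvexDomain K) : BddAbove (critSet K) :=
  ⟨1 / 4, fun _ hθ => critSet_le hK hθ⟩

theorem zero_mem_critSet (K : Set (ℝ × ℝ)) : (0 : ℝ) ∈ critSet K := ⟨le_rfl, rfl⟩

/-- The supremum defining the critical radius is a maximum. -/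
theorem criticalRadius_isGreatest (hK : IsConvexDomain K) :
    IsGreatest {θ : ℝ | 0 ≤ θ ∧ Theta K θ = Theta K 0} (criticalRadius K) := by
  have hbdd := critSet_bdd hK
  refine ⟨?_, fun θ hθ => le_csSup hbdd hθ⟩
  have hne := hK.2.2.mono interior_subset
  have h0 : 0 ≤ criticalRadius K := le_csSup hbdd (zero_mem_critSet K)
  refine ⟨h0, ?_⟩
  rw [Theta_eq hK h0, Theta_eq hK le_rfl]
  apply le_antisymm _ (Uv_mono hK.1 hK.2.1 hne le_rfl h0)
  by_contra hcon
  push Not at hcon
  have hU1 := Uv_nonneg hK.1 hK.2.1 hne 1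
  set gap := Uv K (criticalRadius K) - Uv K 0 with hgap
  have hgap0 : 0 < gap := by linarith
  have hlt : criticalRadius K - gap / (Uv K 1 + 1) < criticalRadius K := by
    have : 0 < gap / (Uv K 1 + 1) := by positivity
    linarith
  obtain ⟨θ, hθ, hθlt⟩ := exists_lt_of_lt_csSup ⟨0, zero_mem_critSet K⟩ hlt
  have hθle : θ ≤ criticalRadius K := le_csSup hbdd hθ
  have h1 := Uv_lip hK.1 hK.2.1 hne hθle
  have h2 := hθ.2
  rw [Theta_eq hK hθ.1, Theta_eq hK le_rfl] at h2
  rw [h2] at h1
  have h3 : (criticalRadius K - θ) * (Uv K 1 + 1) < gap := by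
    rw [← lt_div_iff₀ (by positivity)]
    linarith
  nlinarith [sub_nonneg.2 hθle]

theorem criticalRadius_le (hK : IsConvexDomain K) : criticalRadius K ≤ 1 / 4 :=
  critSet_le hK (criticalRadius_isGreatest hK).1

theorem criticalRadius_hexa : criticalRadius hexa = 1 / 4 := by
  apply le_antisymm (criticalRadius_le hexa_domain)
  apply le_csSup (critSet_bdd hexa_domain)
  refine ⟨by norm_num, ?_⟩
  rw [Theta_eq hexa_domain (by norm_num), Theta_eq hexa_domain le_rfl,
    hexa_Uv (by norm_num) le_rfl, hexa_Uv le_rfl (by norm_num)]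

/-- The largest critical radius of a convex domain is `1/4`. -/
theorem max_criticalRadius :
    IsGreatest {r : ℝ | ∃ K : Set (ℝ × ℝ), IsConvexDomain K ∧ criticalRadius K = r} (1 / 4) := by
  refine ⟨⟨hexa, hexa_domain, criticalRadius_hexa⟩, ?_⟩
  rintro _ ⟨K, hK, rfl⟩
  exact criticalRadius_le hK

end Pool.Agent.Lib.MP_eb03ca_co
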